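import Mathlib

set_option autoImplicit false

namespace Pool.Agent.LP

/-- index of the block of length `2*M+1` (centered at multiples of `2*M+1`) containing `n`. -/
def blk (M : ℕ) (n : ℤ) : ℤ := (n + M) / (2 * M + 1)

theorem blk_eq_iff (M : ℕ) (n t : ℤ) :
    blk M n = t ↔ (2 * M + 1) * t - M ≤ n ∧ n ≤ (2 * M + 1) * t + M := by
  unfold blk
  have hp : (0 : ℤ) < 2 * M + 1 := by positivity
  constructor
  · intro h
    have h1 := Int.mul_ediv_self_le (x := n + M) (k := 2 * (M : ℤ) + 1) hp.ne'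
    have h2 := Int.lt_mul_ediv_self_add (x := n + M) (k := 2 * (M : ℤ) + 1) hp
    rw [h] at h1 h2
    constructor <;> linarith
  · rintro ⟨h1, h2⟩
    rw [Int.ediv_eq_iff_of_pos hp]
    constructor <;> nlinarith

theorem blk_spec (M : ℕ) (n : ℤ) :
    (2 * M + 1) * blk M n - M ≤ n ∧ n ≤ (2 * M + 1) * blk M n + M :=
  (blk_eq_iff M n _).mp rfl

theorem blk_zero_iff (M : ℕ) (n : ℤ) : blk M n = 0 ↔ |n| ≤ M := by
  rw [blk_eq_iff, abs_le]
  constructor <;> rintro ⟨h1, h2⟩ <;> constructor <;> linarith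

theorem blk_add_mul (M : ℕ) (n t : ℤ) : blk M (n + (2 * M + 1) * t) = blk M n + t := by
  rw [blk_eq_iff]
  have := blk_spec M n
  constructor <;> nlinarith [this.1, this.2]

theorem blk_neg (M : ℕ) (n : ℤ) : blk M (-n) = - blk M n := by
  rw [blk_eq_iff]
  have := blk_spec M n
  constructor <;> nlinarith [this.1, this.2]

/-- nesting of blocks: the block index at the next level. -/
theorem blk_next (M l : ℕ) (n : ℤ) (t : ℤ) (h : blk M n = (2 * l + 1) * t) :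
    blk (l * (2 * M + 1) + M) n = t ∧ |n - (2 * ((l * (2 * M + 1) + M : ℕ) : ℤ) + 1) * t| ≤ M := by
  rw [blk_eq_iff] at h
  rw [blk_eq_iff, abs_le]
  push_cast
  have hl : (0 : ℤ) ≤ l := by positivity
  have hM : (0 : ℤ) ≤ M := by positivity
  have e : (2 * ((l : ℤ) * (2 * M + 1) + M) + 1) * t = (2 * (M : ℤ) + 1) * ((2 * l + 1) * t) := by
    ring
  rw [e]
  refine ⟨⟨?_, ?_⟩, ?_, ?_⟩
  · nlinarith [h.1, h.2, mul_nonneg hl (by positivity : (0 : ℤ) ≤ 2 * M + 1)]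
  · nlinarith [h.1, h.2, mul_nonneg hl (by positivity : (0 : ℤ) ≤ 2 * M + 1)]
  · linarith [h.1]
  · linarith [h.2]

/-- The perturbation at one level: `0` on blocks with index divisible by `2*l+1`, `s` on others. -/
noncomputable def Dk (M l : ℕ) (s : ℝ) (n : ℤ) : ℝ :=
  if (2 * (l : ℤ) + 1) ∣ blk M n then 0 else s

theorem Dk_nonneg (M l : ℕ) (s : ℝ) (hs : 0 ≤ s) (n : ℤ) : 0 ≤ Dk M l s n := by
  unfold Dk; split_ifs <;> simp [hs]

theorem Dk_le (M l : ℕ) (s : ℝ) (hs : 0 ≤ s) (n : ℤ) : Dk M l s n ≤ s := by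
  unfold Dk; split_ifs <;> simp [hs]

theorem Dk_neg (M l : ℕ) (s : ℝ) (n : ℤ) : Dk M l s (-n) = Dk M l s n := by
  unfold Dk; simp only [blk_neg, dvd_neg]

theorem Dk_zero_of_abs_le (M l : ℕ) (s : ℝ) (n : ℤ) (h : |n| ≤ M) : Dk M l s n = 0 := by
  unfold Dk; rw [(blk_zero_iff M n).mpr h]; simp

theorem Dk_period (M l : ℕ) (s : ℝ) (n t : ℤ) :
    Dk M l s (n + (2 * ((l * (2 * M + 1) + M : ℕ) : ℤ) + 1) * t) = Dk M l s n := by
  unfold Dk
  have e : n + (2 * ((l * (2 * M + 1) + M : ℕ) : ℤ) + 1) * t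
      = n + (2 * (M : ℤ) + 1) * ((2 * l + 1) * t) := by push_cast; ring
  rw [e, blk_add_mul]
  have : (2 * (l : ℤ) + 1) ∣ (2 * l + 1) * t := Dvd.intro _ rfl
  simp only [Int.dvd_add_left this]

/-- `Dk` equals `s` at distance larger than `M` of the multiples of the next period. -/
theorem Dk_eq_s (M l : ℕ) (s : ℝ) (n : ℤ)
    (h : (M : ℤ) < |n - (2 * ((l * (2 * M + 1) + M : ℕ) : ℤ) + 1)
      * blk (l * (2 * M + 1) + M) n|) : Dk M l s n = s := by
  unfold Dk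
  rw [if_neg]
  rintro ⟨t, ht⟩
  have := blk_next M l n t ht
  rw [this.1] at h
  linarith [this.2]

/-- constancy on blocks -/
theorem Dk_on_block (M l : ℕ) (s : ℝ) (n m : ℤ) (h : blk M n = blk M m) :
    Dk M l s n = Dk M l s m := by
  unfold Dk; rw [h]

end Pool.Agent.LP
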