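import Mathlib
import Pool.Agent.Lib_helper90.Blocks

set_option autoImplicit false

namespace Pool.Agent.LP

/-- finitely supported -/
def FS (ψ : ℤ → ℝ) : Prop := (Function.support ψ).Finite

/-- kinetic energy -/
noncomputable def kin (ψ : ℤ → ℝ) : ℝ := ∑' n, (ψ (n + 1) - ψ n) ^ 2

/-- potential energy -/
noncomputable def pot (W ψ : ℤ → ℝ) : ℝ := ∑' n, W n * ψ n ^ 2

/-- squared norm -/
noncomputable def nr (ψ : ℤ → ℝ) : ℝ := ∑' n, ψ n ^ 2

theorem summable_of_supp {f : ℤ → ℝ} (s : Set ℤ) (hs : s.Finite) (h : ∀ n, f n ≠ 0 → n ∈ s) :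
    Summable f := by
  apply summable_of_hasFiniteSupport
  exact hs.subset (fun n hn => h n hn)

theorem FS.mul {ψ : ℤ → ℝ} (h : FS ψ) (a : ℤ → ℝ) : FS (fun n => a n * ψ n) := by
  apply Set.Finite.subset h
  intro n hn
  simp only [Function.mem_support] at *
  exact right_ne_zero_of_mul hn

theorem FS.shift {ψ : ℤ → ℝ} (h : FS ψ) (t : ℤ) : FS (fun n => ψ (n + t)) := by
  have : Function.support (fun n => ψ (n + t)) = (fun n => n + t) ⁻¹' (Function.support ψ) := rfl
  unfold FS
  rw [this]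
  exact Set.Finite.preimage (fun a _ b _ hab => by simpa using hab) h

theorem FS.summable_sq {ψ : ℤ → ℝ} (h : FS ψ) : Summable (fun n => ψ n ^ 2) := by
  apply summable_of_supp _ h
  intro n hn
  simp only [Function.mem_support]
  intro h0
  apply hn
  rw [h0]; ring

theorem FS.summable_sq_shift {ψ : ℤ → ℝ} (h : FS ψ) : Summable (fun n => ψ (n + 1) ^ 2) :=
  (h.shift 1).summable_sq

theorem FS.summable_pot {ψ : ℤ → ℝ} (h : FS ψ) (W : ℤ → ℝ) : Summable (fun n => W n * ψ n ^ 2) := by
  apply summable_of_supp _ h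
  intro n hn
  simp only [Function.mem_support]
  intro h0
  apply hn
  rw [h0]; ring

theorem FS.summable_kin {ψ : ℤ → ℝ} (h : FS ψ) : Summable (fun n => (ψ (n + 1) - ψ n) ^ 2) := by
  apply summable_of_supp (Function.support ψ ∪ Function.support (fun n => ψ (n + 1)))
    (h.union (h.shift 1))
  intro n hn
  by_contra hc
  simp only [Set.mem_union, Function.mem_support, not_or, not_not] at hc
  apply hn
  rw [hc.1, hc.2]; ring

theorem nr_shift (ψ : ℤ → ℝ) (t : ℤ) : nr (fun n => ψ (n + t)) = nr ψ := by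
  unfold nr
  exact (Equiv.addRight t).tsum_eq (fun n => ψ n ^ 2)

theorem kin_shift (ψ : ℤ → ℝ) (t : ℤ) : kin (fun n => ψ (n + t)) = kin ψ := by
  unfold kin
  rw [← (Equiv.addRight t).tsum_eq (fun n => (ψ (n + 1) - ψ n) ^ 2)]
  congr 1
  funext n
  simp only [Equiv.coe_addRight]
  rw [show n + 1 + t = n + t + 1 by ring]

theorem pot_shift (W ψ : ℤ → ℝ) (t : ℤ) (hW : ∀ n, W (n + t) = W n) :
    pot W (fun n => ψ (n + t)) = pot W ψ := by
  unfold pot
  rw [← (Equiv.addRight t).tsum_eq (fun n => W n * ψ n ^ 2)]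
  congr 1
  funext n
  simp only [Equiv.coe_addRight]
  rw [hW]

theorem nr_nonneg (ψ : ℤ → ℝ) : 0 ≤ nr ψ := tsum_nonneg (fun _ => by positivity)

theorem kin_nonneg (ψ : ℤ → ℝ) : 0 ≤ kin ψ := tsum_nonneg (fun _ => by positivity)

theorem pot_nonneg (W ψ : ℤ → ℝ) (hW : ∀ n, 0 ≤ W n) : 0 ≤ pot W ψ :=
  tsum_nonneg (fun n => mul_nonneg (hW n) (by positivity))

theorem nr_eq_shift {ψ : ℤ → ℝ} : ∑' n, ψ (n + 1) ^ 2 = nr ψ := nr_shift ψ 1

/-- IMS localization. -/
theorem ims {ψ θ : ℤ → ℝ} (h : FS ψ) (δ : ℝ) (hθ : ∀ n, |θ (n + 1) - θ n| ≤ δ) :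
    kin (fun n => Real.cos (θ n) * ψ n) + kin (fun n => Real.sin (θ n) * ψ n)
      ≤ kin ψ + δ ^ 2 * nr ψ := by
  have h1 := (h.mul (fun n => Real.cos (θ n))).summable_kin
  have h2 := (h.mul (fun n => Real.sin (θ n))).summable_kin
  have h3 := h.summable_kin
  have h4 := h.summable_sq
  have h5 := h.summable_sq_shift
  have e : kin ψ + δ ^ 2 * nr ψ
      = ∑' n, ((ψ (n + 1) - ψ n) ^ 2 + (δ ^ 2 / 2 * ψ n ^ 2 + δ ^ 2 / 2 * ψ (n + 1) ^ 2)) := by
    rw [Summable.tsum_add h3 ((h4.mul_left _).add (h5.mul_left _)),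
      Summable.tsum_add (h4.mul_left _) (h5.mul_left _), tsum_mul_left, tsum_mul_left,
      nr_eq_shift]
    unfold kin nr
    ring
  rw [e]
  unfold kin
  rw [← Summable.tsum_add h1 h2]
  apply Summable.tsum_le_tsum _ (h1.add h2) (h3.add ((h4.mul_left _).add (h5.mul_left _)))
  intro n
  set a := ψ n
  set a' := ψ (n + 1)
  set x := θ n
  set x' := θ (n + 1)
  have hc : Real.cos (x' - x) = Real.cos x' * Real.cos x + Real.sin x' * Real.sin x :=
    Real.cos_sub x' x
  have c1 := Real.cos_sq_add_sin_sq x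
  have c2 := Real.cos_sq_add_sin_sq x'
  have key : (Real.cos x' * a' - Real.cos x * a) ^ 2 + (Real.sin x' * a' - Real.sin x * a) ^ 2
      = (a' - a) ^ 2 + 2 * a * a' * (1 - Real.cos (x' - x)) := by
    rw [hc]
    linear_combination a' ^ 2 * c2 + a ^ 2 * c1
  rw [key]
  have h6 : 1 - Real.cos (x' - x) ≤ δ ^ 2 / 2 := by
    have := Real.one_sub_sq_div_two_le_cos (x := x' - x)
    have h7 : (x' - x) ^ 2 ≤ δ ^ 2 := by
      rw [← sq_abs]
      exact pow_le_pow_left₀ (abs_nonneg _) (hθ n) 2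
    linarith
  have h8 : 0 ≤ 1 - Real.cos (x' - x) := by linarith [Real.cos_le_one (x' - x)]
  have h9 : 2 * a * a' * (1 - Real.cos (x' - x)) ≤ (a ^ 2 + a' ^ 2) * (1 - Real.cos (x' - x)) := by
    apply mul_le_mul_of_nonneg_right _ h8
    nlinarith [sq_nonneg (a - a')]
  have h10 : (a ^ 2 + a' ^ 2) * (1 - Real.cos (x' - x)) ≤ (a ^ 2 + a' ^ 2) * (δ ^ 2 / 2) := by
    apply mul_le_mul_of_nonneg_left h6
    positivity
  nlinarith

theorem pot_cos_sin (W : ℤ → ℝ) {ψ θ : ℤ → ℝ} (h : FS ψ) :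
    pot W (fun n => Real.cos (θ n) * ψ n) + pot W (fun n => Real.sin (θ n) * ψ n) = pot W ψ := by
  unfold pot
  rw [← Summable.tsum_add ((h.mul _).summable_pot W) ((h.mul _).summable_pot W)]
  congr 1
  funext n
  have c1 := Real.cos_sq_add_sin_sq (θ n)
  linear_combination (W n * ψ n ^ 2) * c1

theorem nr_cos_sin {ψ θ : ℤ → ℝ} (h : FS ψ) :
    nr (fun n => Real.cos (θ n) * ψ n) + nr (fun n => Real.sin (θ n) * ψ n) = nr ψ := by
  unfold nr
  rw [← Summable.tsum_add ((h.mul _).summable_sq) ((h.mul _).summable_sq)]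
  congr 1
  funext n
  have c1 := Real.cos_sq_add_sin_sq (θ n)
  linear_combination (ψ n ^ 2) * c1

/-- restriction to a block -/
noncomputable def restr (M : ℕ) (m : ℤ) (c : ℤ → ℝ) (n : ℤ) : ℝ := if blk M n = m then c n else 0

theorem FS.restr {c : ℤ → ℝ} (h : FS c) (M : ℕ) (m : ℤ) : FS (restr M m c) := by
  apply Set.Finite.subset h
  intro n hn
  simp only [Function.mem_support, LP.restr] at *
  intro h0
  apply hn
  rw [h0]; simp

/-- lower bound for functions vanishing at block boundaries, from the one on the block `0`. -/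
theorem block_lower (M : ℕ) (W : ℤ → ℝ) (β : ℝ)
    (hWper : ∀ n t : ℤ, W (n + (2 * M + 1) * t) = W n)
    (hβ : ∀ φ : ℤ → ℝ, FS φ → (∀ n, φ n ≠ 0 → |n| ≤ M) → β * nr φ ≤ kin φ + pot W φ)
    (c : ℤ → ℝ) (hc : FS c) (hbd : ∀ n, blk M n ≠ blk M (n + 1) → c n = 0 ∧ c (n + 1) = 0) :
    β * nr c ≤ kin c + pot W c := by
  classical
  let F : Finset ℤ := hc.toFinset.image (blk M)
  have hF : ∀ n, c n ≠ 0 → blk M n ∈ F := by
    intro n hn
    apply Finset.mem_image_of_mem
    exact (Set.Finite.mem_toFinset hc).mpr hn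
  -- decomposition identities
  have e1 : nr c = ∑ m ∈ F, nr (restr M m c) := by
    unfold nr
    rw [← Summable.tsum_finsetSum (fun m _ => (hc.restr M m).summable_sq)]
    congr 1
    funext n
    by_cases h0 : c n = 0
    · rw [h0]
      symm
      rw [Finset.sum_eq_zero]
      · norm_num
      · intro m _
        simp [restr, h0]
    · rw [Finset.sum_eq_single (blk M n)]
      · simp [restr]
      · intro m _ hm
        simp [restr, hm.symm]
      · intro h
        exact absurd (hF n h0) h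
  have e2 : pot W c = ∑ m ∈ F, pot W (restr M m c) := by
    unfold pot
    rw [← Summable.tsum_finsetSum (fun m _ => (hc.restr M m).summable_pot W)]
    congr 1
    funext n
    by_cases h0 : c n = 0
    · rw [h0]
      symm
      rw [Finset.sum_eq_zero]
      · norm_num
      · intro m _
        simp [restr, h0]
    · rw [Finset.sum_eq_single (blk M n)]
      · simp [restr]
      · intro m _ hm
        simp [restr, hm.symm]
      · intro h
        exact absurd (hF n h0) h
  have e3 : kin c = ∑ m ∈ F, kin (restr M m c) := by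
    unfold kin
    rw [← Summable.tsum_finsetSum (fun m _ => (hc.restr M m).summable_kin)]
    congr 1
    funext n
    by_cases hb : blk M n = blk M (n + 1)
    · by_cases h0 : c n = 0 ∧ c (n + 1) = 0
      · rw [h0.1, h0.2]
        symm
        rw [Finset.sum_eq_zero]
        · norm_num
        · intro m _
          simp [restr, h0.1, h0.2]
      · have hmem : blk M n ∈ F := by
          by_cases h1 : c n = 0
          · have h2 : c (n + 1) ≠ 0 := fun h => h0 ⟨h1, h⟩
            rw [hb]; exact hF _ h2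
          · exact hF _ h1
        rw [Finset.sum_eq_single (blk M n)]
        · simp [restr, ← hb]
        · intro m _ hm
          simp [restr, ← hb, hm.symm]
        · intro h
          exact absurd hmem h
    · obtain ⟨h1, h2⟩ := hbd n hb
      rw [h1, h2]
      symm
      rw [Finset.sum_eq_zero]
      · norm_num
      · intro m _
        simp [restr, h1, h2]
  rw [e1, e2, e3, Finset.mul_sum, ← Finset.sum_add_distrib]
  apply Finset.sum_le_sum
  intro m _
  -- translate
  have hb := hβ (fun n => restr M m c (n + (2 * M + 1) * m)) ((hc.restr M m).shift _) (by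
    intro n hn
    have h1 : blk M (n + (2 * M + 1) * m) = m := by
      by_contra h
      apply hn
      simp [restr, h]
    rw [blk_add_mul] at h1
    have h2 : blk M n = 0 := by linarith
    exact (blk_zero_iff M n).mp h2)
  rw [nr_shift, kin_shift, pot_shift W _ _ (fun n => hWper n m)] at hb
  exact hb

/-- The angle function used in the localization. -/
noncomputable def ang (M : ℕ) (n : ℤ) : ℝ :=
  (Real.pi / 2) * max 0 ((2 * |((n : ℝ) - (2 * M + 1) * blk M n)| - M) / M)

theorem blk_ne_succ (M : ℕ) (n : ℤ) (h : blk M n ≠ blk M (n + 1)) :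
    n - (2 * M + 1) * blk M n = M ∧ (n + 1) - (2 * M + 1) * blk M (n + 1) = -M := by
  have h1 := blk_spec M n
  have h2 : n = (2 * M + 1) * blk M n + M := by
    by_contra hne
    apply h
    symm
    rw [blk_eq_iff]
    constructor
    · linarith [h1.1]
    · have : n < (2 * M + 1) * blk M n + M := lt_of_le_of_ne h1.2 hne
      omega
  have h3 : blk M (n + 1) = blk M n + 1 := by
    rw [blk_eq_iff]
    constructor
    · nlinarith
    · have : (0 : ℤ) ≤ M := by positivity
      nlinarith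
  constructor
  · linarith
  · rw [h3]; linarith

theorem ang_lip (M : ℕ) (hM : 1 ≤ M) (n : ℤ) : |ang M (n + 1) - ang M n| ≤ Real.pi / M := by
  have hMpos : (0 : ℝ) < M := by exact_mod_cast hM
  have hpi := Real.pi_pos
  by_cases hb : blk M n = blk M (n + 1)
  · unfold ang
    rw [← mul_sub, abs_mul, abs_of_pos (by positivity : (0 : ℝ) < Real.pi / 2)]
    have h1 : |max 0 ((2 * |(((n + 1 : ℤ) : ℝ) - (2 * M + 1) * blk M (n + 1))| - M) / M)
        - max 0 ((2 * |((n : ℝ) - (2 * M + 1) * blk M n)| - M) / M)| ≤ 2 / M := by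
      refine le_trans (abs_max_sub_max_le_max _ _ _ _) ?_
      rw [sub_self, abs_zero, max_eq_right (abs_nonneg _), ← sub_div, abs_div,
        abs_of_pos hMpos]
      gcongr
      rw [← hb]
      push_cast
      have h2 : |((n : ℝ) + 1 - (2 * M + 1) * blk M n)| - |((n : ℝ) - (2 * M + 1) * blk M n)| ≤ 1 := by
        have := abs_sub_abs_le_abs_sub ((n : ℝ) + 1 - (2 * M + 1) * blk M n)
          ((n : ℝ) - (2 * M + 1) * blk M n)
        refine le_trans this ?_
        rw [show ((n : ℝ) + 1 - (2 * M + 1) * blk M n) - ((n : ℝ) - (2 * M + 1) * blk M n) = 1 by ring]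
        simp
      have h3 : |((n : ℝ) - (2 * M + 1) * blk M n)| - |((n : ℝ) + 1 - (2 * M + 1) * blk M n)| ≤ 1 := by
        have := abs_sub_abs_le_abs_sub ((n : ℝ) - (2 * M + 1) * blk M n)
          ((n : ℝ) + 1 - (2 * M + 1) * blk M n)
        refine le_trans this ?_
        rw [show ((n : ℝ) - (2 * M + 1) * blk M n) - ((n : ℝ) + 1 - (2 * M + 1) * blk M n) = -1 by ring]
        simp
      rw [abs_le]
      constructor <;> linarith
    calc Real.pi / 2 * |max 0 ((2 * |(((n + 1 : ℤ) : ℝ) - (2 * M + 1) * blk M (n + 1))| - M) / M)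
        - max 0 ((2 * |((n : ℝ) - (2 * M + 1) * blk M n)| - M) / M)| ≤ Real.pi / 2 * (2 / M) := by
          gcongr
      _ = Real.pi / M := by ring
  · obtain ⟨h1, h2⟩ := blk_ne_succ M n hb
    have h1' : ((n : ℝ) - (2 * M + 1) * blk M n) = M := by exact_mod_cast h1
    have h2' : (((n + 1 : ℤ) : ℝ) - (2 * M + 1) * blk M (n + 1)) = -M := by exact_mod_cast h2
    unfold ang
    rw [h1', h2', abs_neg]
    rw [sub_self, abs_zero]
    positivity

theorem cos_ang_zero (M : ℕ) (hM : 1 ≤ M) (n : ℤ)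
    (h : |(n : ℝ) - (2 * M + 1) * blk M n| = M) : Real.cos (ang M n) = 0 := by
  have hMpos : (0 : ℝ) < M := by exact_mod_cast hM
  unfold ang
  rw [h]
  have : (2 * (M : ℝ) - M) / M = 1 := by field_simp; ring
  rw [this, max_eq_right (by norm_num), mul_one, Real.cos_pi_div_two]

theorem sin_ang_ne (M : ℕ) (hM : 1 ≤ M) (n : ℤ) (h : Real.sin (ang M n) ≠ 0) :
    (M : ℝ) < 2 * |(n : ℝ) - (2 * M + 1) * blk M n| := by
  have hMpos : (0 : ℝ) < M := by exact_mod_cast hM
  by_contra hc
  push Not at hc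
  apply h
  unfold ang
  rw [max_eq_left]
  · simp
  · apply div_nonpos_of_nonpos_of_nonneg _ hMpos.le
    linarith

/-- The inductive step of the lower bound. -/
theorem ims_step (M' l' : ℕ) (s : ℝ) (W' W : ℤ → ℝ) (β lam : ℝ) (M : ℕ)
    (hMdef : M = l' * (2 * M' + 1) + M') (hM1 : 1 ≤ M) (hM2 : 2 * M' ≤ M)
    (hW : ∀ n, W n = W' n + Dk M' l' s n)
    (hWper : ∀ n t : ℤ, W (n + (2 * M + 1) * t) = W n)
    (hβ : ∀ φ : ℤ → ℝ, FS φ → (∀ n, φ n ≠ 0 → |n| ≤ M) → β * nr φ ≤ kin φ + pot W φ)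
    (hlam : ∀ ψ : ℤ → ℝ, FS ψ → lam * nr ψ ≤ kin ψ + pot W' ψ)
    (hβs : β ≤ lam + s) (ψ : ℤ → ℝ) (hψ : FS ψ) :
    (β - (Real.pi / M) ^ 2) * nr ψ ≤ kin ψ + pot W ψ := by
  have h1 := ims hψ (Real.pi / M) (ang_lip M hM1)
  have h2 := pot_cos_sin W (θ := ang M) hψ
  have h3 := nr_cos_sin (θ := ang M) hψ
  set c : ℤ → ℝ := fun n => Real.cos (ang M n) * ψ n with hc
  set d : ℤ → ℝ := fun n => Real.sin (ang M n) * ψ n with hd
  have hcFS : FS c := hψ.mul _
  have hdFS : FS d := hψ.mul _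
  have k1 : β * nr c ≤ kin c + pot W c := by
    apply block_lower M W β hWper hβ c hcFS
    intro n hb
    obtain ⟨b1, b2⟩ := blk_ne_succ M n hb
    have b1' : ((n : ℝ) - (2 * M + 1) * blk M n) = M := by exact_mod_cast b1
    have b2' : (((n + 1 : ℤ) : ℝ) - (2 * M + 1) * blk M (n + 1)) = -M := by exact_mod_cast b2
    constructor
    · simp only [hc]
      rw [cos_ang_zero M hM1 n (by rw [b1']; exact abs_of_nonneg (by positivity)), zero_mul]
    · simp only [hc]
      rw [cos_ang_zero M hM1 (n + 1) (by rw [b2', abs_neg]; exact abs_of_nonneg (by positivity)),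
        zero_mul]
  have k2 : pot W d = pot W' d + s * nr d := by
    unfold pot nr
    rw [← tsum_mul_left, ← Summable.tsum_add (hdFS.summable_pot W') (hdFS.summable_sq.mul_left s)]
    congr 1
    funext n
    rw [hW n]
    by_cases h0 : Real.sin (ang M n) = 0
    · simp [hd, h0]
    · have h5 := sin_ang_ne M hM1 n h0
      have h6 : (M' : ℤ) < |n - (2 * ((l' * (2 * M' + 1) + M' : ℕ) : ℤ) + 1)
          * blk (l' * (2 * M' + 1) + M') n| := by
        rw [← hMdef]
        have h7 : (M : ℤ) < 2 * |n - (2 * M + 1) * blk M n| := by exact_mod_cast h5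
        have h8 : (2 * M' : ℤ) ≤ M := by exact_mod_cast hM2
        linarith
      rw [Dk_eq_s M' l' s n h6]
      ring
  have k3 := hlam d hdFS
  have k4 : β * nr d ≤ kin d + pot W d := by
    rw [k2]
    have := mul_le_mul_of_nonneg_right hβs (nr_nonneg d)
    nlinarith
  rw [← h3] at h1 ⊢
  nlinarith

end Pool.Agent.LP
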