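import Mathlib
import Pool.Agent.Lib_helper90.Energy

set_option autoImplicit false

namespace Pool.Agent.LP

/-! ### first variation -/

theorem nr_var {φ : ℤ → ℝ} (h : FS φ) (m : ℤ) (t : ℝ) :
    nr (fun n => φ n + t * (if n = m then 1 else 0)) = nr φ + 2 * t * φ m + t ^ 2 := by
  unfold nr
  have hs : Summable (fun n : ℤ => (if n = m then 2 * t * φ m + t ^ 2 else 0 : ℝ)) := by
    apply summable_of_supp {m} (Set.finite_singleton m)
    intro n hn
    by_contra hc
    simp only [Set.mem_singleton_iff] at hc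
    simp [hc] at hn
  have e : (fun n => (φ n + t * (if n = m then 1 else 0)) ^ 2)
      = fun n => φ n ^ 2 + (if n = m then 2 * t * φ m + t ^ 2 else 0) := by
    funext n
    by_cases hn : n = m
    · simp only [hn, if_true]; ring
    · simp only [hn, if_false]; ring
  rw [e, Summable.tsum_add h.summable_sq hs, tsum_ite_eq]
  ring

theorem pot_var (W : ℤ → ℝ) {φ : ℤ → ℝ} (h : FS φ) (m : ℤ) (t : ℝ) :
    pot W (fun n => φ n + t * (if n = m then 1 else 0))
      = pot W φ + 2 * t * (W m * φ m) + t ^ 2 * W m := by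
  unfold pot
  have hs : Summable (fun n : ℤ =>
      (if n = m then 2 * t * (W m * φ m) + t ^ 2 * W m else 0 : ℝ)) := by
    apply summable_of_supp {m} (Set.finite_singleton m)
    intro n hn
    by_contra hc
    simp only [Set.mem_singleton_iff] at hc
    simp [hc] at hn
  have e : (fun n => W n * (φ n + t * (if n = m then 1 else 0)) ^ 2)
      = fun n => W n * φ n ^ 2 + (if n = m then 2 * t * (W m * φ m) + t ^ 2 * W m else 0) := by
    funext n
    by_cases hn : n = m
    · simp only [hn, if_true]; ring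
    · simp only [hn, if_false]; ring
  rw [e, Summable.tsum_add (h.summable_pot W) hs, tsum_ite_eq]
  ring

theorem kin_var {φ : ℤ → ℝ} (h : FS φ) (m : ℤ) (t : ℝ) :
    kin (fun n => φ n + t * (if n = m then 1 else 0))
      = kin φ + 2 * t * (2 * φ m - φ (m + 1) - φ (m - 1)) + 2 * t ^ 2 := by
  unfold kin
  set g : ℤ → ℝ := fun n => (if n = m then -(2 * t * (φ (m + 1) - φ m)) + t ^ 2 else 0)
    + (if n = m - 1 then 2 * t * (φ m - φ (m - 1)) + t ^ 2 else 0) with hg
  have hs1 : Summable (fun n : ℤ =>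
      (if n = m then -(2 * t * (φ (m + 1) - φ m)) + t ^ 2 else 0 : ℝ)) := by
    apply summable_of_supp {m} (Set.finite_singleton m)
    intro n hn
    by_contra hc
    simp only [Set.mem_singleton_iff] at hc
    simp [hc] at hn
  have hs2 : Summable (fun n : ℤ =>
      (if n = m - 1 then 2 * t * (φ m - φ (m - 1)) + t ^ 2 else 0 : ℝ)) := by
    apply summable_of_supp {m - 1} (Set.finite_singleton (m - 1))
    intro n hn
    by_contra hc
    simp only [Set.mem_singleton_iff] at hc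
    simp [hc] at hn
  have e : (fun n => ((φ (n + 1) + t * (if n + 1 = m then 1 else 0))
      - (φ n + t * (if n = m then 1 else 0))) ^ 2)
      = fun n => (φ (n + 1) - φ n) ^ 2 + g n := by
    funext n
    by_cases hn : n = m
    · have h1 : ¬ (n + 1 = m) := by omega
      have h2 : ¬ (n = m - 1) := by omega
      simp only [hg, hn, if_true]
      have h3 : ¬ (m + 1 = m) := by omega
      have h4 : ¬ (m = m - 1) := by omega
      simp only [h3, h4, if_false]
      ring
    · by_cases hn1 : n = m - 1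
      · have h1 : m - 1 + 1 = m := by ring
        have h2 : ¬ (m - 1 = m) := by omega
        simp only [hg, hn1, h1, if_true, h2, if_false]
        ring
      · have h1 : ¬ (n + 1 = m) := by omega
        simp only [hg, hn, hn1, h1, if_false]
        ring
  rw [e, Summable.tsum_add h.summable_kin (hs1.add hs2), Summable.tsum_add hs1 hs2,
    tsum_ite_eq, tsum_ite_eq]
  ring

theorem FS.add_single {φ : ℤ → ℝ} (h : FS φ) (m : ℤ) (t : ℝ) :
    FS (fun n => φ n + t * (if n = m then 1 else 0)) := by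
  apply Set.Finite.subset (h.union (Set.finite_singleton m))
  intro n hn
  simp only [Function.mem_support] at hn
  by_contra hc
  simp only [Set.mem_union, Function.mem_support, Set.mem_singleton_iff, not_or, not_not] at hc
  apply hn
  rw [hc.1, if_neg hc.2]; ring

/-- Residual estimate for an approximate minimizer. -/
theorem residual (W : ℤ → ℝ) (β : ℝ)
    (hlow : ∀ ψ : ℤ → ℝ, FS ψ → β * nr ψ ≤ kin ψ + pot W ψ)
    (φ : ℤ → ℝ) (hφ : FS φ) (hn : nr φ = 1) (m : ℤ) :
    (2 * φ m - φ (m + 1) - φ (m - 1) + W m * φ m - β * φ m) ^ 2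
      ≤ (kin φ + pot W φ - β) * (2 + W m - β) := by
  set ρ := 2 * φ m - φ (m + 1) - φ (m - 1) + W m * φ m - β * φ m with hρ
  have key : ∀ t : ℝ, 0 ≤ (2 + W m - β) * (t * t) + (2 * ρ) * t + (kin φ + pot W φ - β) := by
    intro t
    have h := hlow _ (hφ.add_single m t)
    rw [nr_var hφ, kin_var hφ, pot_var W hφ, hn] at h
    rw [hρ]
    nlinarith
  have hd := discrim_le_zero key
  unfold discrim at hd
  nlinarith

/-! ### the sequence of scales -/

/-- Hypotheses on the scales `N`, `l`, `s`. -/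
structure Scales (N l : ℕ → ℕ) (s : ℕ → ℝ) : Prop where
  N0 : N 0 = 0
  Nsucc : ∀ k, N (k + 1) = l k * (2 * N k + 1) + N k
  lpos : ∀ k, 1 ≤ l k
  spos : ∀ k, 0 < s k
  shalf : ∀ k, s (k + 1) ≤ s k / 2
  slow : ∀ k, 1 ≤ k → 11 / (N k : ℝ) ^ 2 ≤ s k * (1 / 2) ^ (k + 2)
  N1 : 2 / s 0 ≤ N 1

/-- the (nonnegative) potential at level `k`. -/
noncomputable def Wk (N l : ℕ → ℕ) (s : ℕ → ℝ) (k : ℕ) (n : ℤ) : ℝ :=
  ∑ j ∈ Finset.range k, Dk (N j) (l j) (s j) n

/-- the limit potential -/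
noncomputable def Winf (N l : ℕ → ℕ) (s : ℕ → ℝ) (n : ℤ) : ℝ := Wk N l s n.natAbs n

section
variable {N l : ℕ → ℕ} {s : ℕ → ℝ} (H : Scales N l s)
include H

theorem Scales.N_succ_ge (k : ℕ) : 3 * N k + 1 ≤ N (k + 1) := by
  rw [H.Nsucc k]
  have := H.lpos k
  nlinarith

theorem Scales.N_mono {j k : ℕ} (h : j ≤ k) : N j ≤ N k := by
  induction k, h using Nat.le_induction with
  | base => exact le_rfl
  | succ k _ ih =>
    have := H.N_succ_ge k
    omega

theorem Scales.N_ge (k : ℕ) : k ≤ N k := by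
  induction k with
  | zero => omega
  | succ k ih =>
    have := H.N_succ_ge k
    omega

theorem Scales.Wk_stable {k j : ℕ} (hkj : k ≤ j) (n : ℤ) (hn : |n| ≤ N k) :
    Wk N l s j n = Wk N l s k n := by
  induction j, hkj using Nat.le_induction with
  | base => rfl
  | succ j hj ih =>
    rw [← ih]
    unfold Wk
    rw [Finset.sum_range_succ, Dk_zero_of_abs_le, add_zero]
    refine le_trans hn ?_
    exact_mod_cast H.N_mono hj

theorem Scales.Winf_eq {k : ℕ} (n : ℤ) (hn : |n| ≤ N k) : Winf N l s n = Wk N l s k n := by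
  unfold Winf
  have h1 : |n| ≤ N n.natAbs := by
    have := H.N_ge n.natAbs
    rw [Int.abs_eq_natAbs]
    exact_mod_cast this
  rcases le_total k n.natAbs with h | h
  · exact H.Wk_stable h n hn
  · exact (H.Wk_stable h n h1).symm

theorem Scales.Wk_mono {k j : ℕ} (hkj : k ≤ j) (n : ℤ) : Wk N l s k n ≤ Wk N l s j n := by
  induction j, hkj using Nat.le_induction with
  | base => exact le_rfl
  | succ j hj ih =>
    refine le_trans ih ?_
    unfold Wk
    rw [Finset.sum_range_succ]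
    linarith [Dk_nonneg (N j) (l j) (s j) (H.spos j).le n]

theorem Scales.exists_big (k : ℕ) (n : ℤ) : ∃ j, k ≤ j ∧ |n| ≤ N j := by
  refine ⟨max k n.natAbs, le_max_left _ _, ?_⟩
  have h1 := H.N_ge (max k n.natAbs)
  have h2 : n.natAbs ≤ N (max k n.natAbs) := le_trans (le_max_right _ _) h1
  rw [Int.abs_eq_natAbs]
  exact_mod_cast h2

theorem Scales.Wk_le_Winf (k : ℕ) (n : ℤ) : Wk N l s k n ≤ Winf N l s n := by
  obtain ⟨j, hj, hn⟩ := H.exists_big k n
  rw [H.Winf_eq n hn]
  exact H.Wk_mono hj n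

theorem Scales.Wk_diff {k j : ℕ} (hkj : k ≤ j) (n : ℤ) :
    Wk N l s j n ≤ Wk N l s k n + 2 * s k - 2 * s j := by
  induction j, hkj using Nat.le_induction with
  | base => linarith
  | succ j hj ih =>
    have e : Wk N l s (j + 1) n = Wk N l s j n + Dk (N j) (l j) (s j) n := by
      unfold Wk; rw [Finset.sum_range_succ]
    have h1 := Dk_le (N j) (l j) (s j) (H.spos j).le n
    have h2 := H.shalf j
    linarith

theorem Scales.Winf_le (k : ℕ) (n : ℤ) : Winf N l s n ≤ Wk N l s k n + 2 * s k := by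
  obtain ⟨j, hj, hn⟩ := H.exists_big k n
  rw [H.Winf_eq n hn]
  have := H.Wk_diff hj n
  linarith [H.spos j]

theorem Scales.Wk_nonneg (k : ℕ) (n : ℤ) : 0 ≤ Wk N l s k n :=
  Finset.sum_nonneg (fun j _ => Dk_nonneg _ _ _ (H.spos j).le n)

theorem Scales.Winf_nonneg (n : ℤ) : 0 ≤ Winf N l s n := H.Wk_nonneg _ n

theorem Scales.Wk_period (k : ℕ) (n t : ℤ) :
    Wk N l s k (n + (2 * N k + 1) * t) = Wk N l s k n := by
  unfold Wk
  apply Finset.sum_congr rfl
  intro j hj
  rw [Finset.mem_range] at hj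
  -- (2 N k + 1) is a multiple of (2 N (j+1) + 1)
  have hdiv : ∀ i, j + 1 ≤ i → (2 * (N (j + 1) : ℤ) + 1) ∣ (2 * (N i : ℤ) + 1) := by
    intro i hi
    induction i, hi using Nat.le_induction with
    | base => exact dvd_rfl
    | succ i _ ih =>
      have e : (2 * (N (i + 1) : ℤ) + 1) = (2 * (N i : ℤ) + 1) * (2 * l i + 1) := by
        rw [H.Nsucc i]; push_cast; ring
      rw [e]
      exact Dvd.dvd.mul_right ih _
  obtain ⟨q, hq⟩ := hdiv k hj
  rw [hq, mul_assoc]
  have := Dk_period (N j) (l j) (s j) n (q * t)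
  rw [← H.Nsucc j] at this
  exact this

theorem Scales.Wk_even (k : ℕ) (n : ℤ) : Wk N l s k (-n) = Wk N l s k n := by
  unfold Wk
  exact Finset.sum_congr rfl (fun j _ => Dk_neg _ _ _ n)

theorem Scales.Winf_even (n : ℤ) : Winf N l s (-n) = Winf N l s n := by
  unfold Winf
  rw [Int.natAbs_neg]
  exact H.Wk_even _ n

omit H in
theorem pot_congr_supp {W W' φ : ℤ → ℝ} (h : ∀ n, φ n ≠ 0 → W n = W' n) : pot W φ = pot W' φ := by
  unfold pot
  congr 1
  funext n
  by_cases h0 : φ n = 0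
  · simp [h0]
  · rw [h n h0]

omit H in
theorem pot_mono {W W' φ : ℤ → ℝ} (hφ : FS φ) (h : ∀ n, W n ≤ W' n) : pot W φ ≤ pot W' φ := by
  unfold pot
  apply Summable.tsum_le_tsum _ (hφ.summable_pot W) (hφ.summable_pot W')
  intro n
  exact mul_le_mul_of_nonneg_right (h n) (by positivity)

omit H in
theorem pot_add {W W' φ : ℤ → ℝ} (hφ : FS φ) :
    pot (fun n => W n + W' n) φ = pot W φ + pot W' φ := by
  unfold pot
  rw [← Summable.tsum_add (hφ.summable_pot W) (hφ.summable_pot W')]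
  congr 1
  funext n
  ring

/-- the set of Rayleigh quotients on block `k` -/
def RQ (N l : ℕ → ℕ) (s : ℕ → ℝ) (k : ℕ) : Set ℝ :=
  {x | ∃ φ : ℤ → ℝ, FS φ ∧ (∀ n, φ n ≠ 0 → |n| ≤ N k) ∧ nr φ = 1 ∧
    kin φ + pot (Winf N l s) φ = x}

/-- bottom of the spectrum on the block `k` -/
noncomputable def bet (N l : ℕ → ℕ) (s : ℕ → ℝ) (k : ℕ) : ℝ := sInf (RQ N l s k)

theorem Scales.RQ_bdd (k : ℕ) : BddBelow (RQ N l s k) := by
  refine ⟨0, ?_⟩
  rintro x ⟨φ, _, _, _, rfl⟩
  have h1 := kin_nonneg φ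
  have h2 := pot_nonneg (Winf N l s) φ H.Winf_nonneg
  linarith

omit H in
theorem FS_delta (t : ℝ) : FS (fun n => if n = 0 then t else 0) := by
  apply Set.Finite.subset (Set.finite_singleton 0)
  intro n hn
  simp only [Function.mem_support] at hn
  by_contra hc
  simp only [Set.mem_singleton_iff] at hc
  simp [hc] at hn

omit H in
theorem RQ_nonempty (k : ℕ) : (RQ N l s k).Nonempty := by
  refine ⟨_, (fun n => if n = 0 then 1 else 0), FS_delta 1, ?_, ?_, rfl⟩
  · intro n hn
    by_cases h : n = 0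
    · simp [h]
    · simp [h] at hn
  · unfold nr
    have : (fun n : ℤ => (if n = 0 then (1 : ℝ) else 0) ^ 2) = fun n => if n = 0 then 1 else 0 := by
      funext n
      by_cases h : n = 0 <;> simp [h]
    rw [this, tsum_ite_eq]

theorem Scales.bet_nonneg (k : ℕ) : 0 ≤ bet N l s k := by
  apply le_csInf (RQ_nonempty k)
  rintro x ⟨φ, _, _, _, rfl⟩
  have h1 := kin_nonneg φ
  have h2 := pot_nonneg (Winf N l s) φ H.Winf_nonneg
  linarith

theorem Scales.bet_anti {j k : ℕ} (h : j ≤ k) : bet N l s k ≤ bet N l s j := by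
  apply csInf_le_csInf (H.RQ_bdd k) (RQ_nonempty j)
  rintro x ⟨φ, h1, h2, h3, h4⟩
  refine ⟨φ, h1, ?_, h3, h4⟩
  intro n hn
  have := h2 n hn
  have h5 := H.N_mono h
  have h6 : (N j : ℤ) ≤ N k := by exact_mod_cast h5
  linarith

omit H in
theorem nr_smul (t : ℝ) (φ : ℤ → ℝ) : nr (fun n => t * φ n) = t ^ 2 * nr φ := by
  unfold nr
  rw [← tsum_mul_left]
  congr 1
  funext n
  ring

omit H in
theorem kin_smul (t : ℝ) (φ : ℤ → ℝ) : kin (fun n => t * φ n) = t ^ 2 * kin φ := by
  unfold kin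
  rw [← tsum_mul_left]
  congr 1
  funext n
  ring

omit H in
theorem pot_smul (W : ℤ → ℝ) (t : ℝ) (φ : ℤ → ℝ) : pot W (fun n => t * φ n) = t ^ 2 * pot W φ := by
  unfold pot
  rw [← tsum_mul_left]
  congr 1
  funext n
  ring

theorem Scales.bet_lower (k : ℕ) (φ : ℤ → ℝ) (hφ : FS φ) (hs : ∀ n, φ n ≠ 0 → |n| ≤ N k) :
    bet N l s k * nr φ ≤ kin φ + pot (Winf N l s) φ := by
  rcases eq_or_lt_of_le (nr_nonneg φ) with h0 | hpos
  · rw [← h0, mul_zero]
    have h1 := kin_nonneg φ
    have h2 := pot_nonneg (Winf N l s) φ H.Winf_nonneg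
    linarith
  · set t := (Real.sqrt (nr φ))⁻¹ with ht
    have ht2 : t ^ 2 * nr φ = 1 := by
      rw [ht, inv_pow, Real.sq_sqrt hpos.le, inv_mul_cancel₀ hpos.ne']
    have hmem : t ^ 2 * (kin φ + pot (Winf N l s) φ) ∈ RQ N l s k := by
      refine ⟨fun n => t * φ n, hφ.mul _, ?_, ?_, ?_⟩
      · intro n hn
        exact hs n (right_ne_zero_of_mul hn)
      · rw [nr_smul, ht2]
      · rw [kin_smul, pot_smul]; ring
    have h1 : bet N l s k ≤ t ^ 2 * (kin φ + pot (Winf N l s) φ) := csInf_le (H.RQ_bdd k) hmem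
    calc bet N l s k * nr φ ≤ (t ^ 2 * (kin φ + pot (Winf N l s) φ)) * nr φ :=
          mul_le_mul_of_nonneg_right h1 hpos.le
      _ = (t ^ 2 * nr φ) * (kin φ + pot (Winf N l s) φ) := by ring
      _ = _ := by rw [ht2, one_mul]

theorem Scales.bet_lower' (k : ℕ) (φ : ℤ → ℝ) (hφ : FS φ) (hs : ∀ n, φ n ≠ 0 → |n| ≤ N k) :
    bet N l s k * nr φ ≤ kin φ + pot (Wk N l s k) φ := by
  have h := H.bet_lower k φ hφ hs
  rwa [pot_congr_supp (W' := Wk N l s k) (fun n hn => H.Winf_eq n (hs n hn))] at h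

end

end Pool.Agent.LP
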