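import Mathlib

set_option autoImplicit false

namespace Pool.Agent.LP

open scoped ENNReal

/-- The Hilbert space `ℓ²(ℤ)`. -/
noncomputable abbrev l2 := lp (fun _ : ℤ => ℂ) 2

theorem two_toReal : (2 : ℝ≥0∞).toReal = 2 := by norm_num

theorem l2_norm_sq (ψ : l2) : ‖ψ‖ ^ 2 = ∑' n : ℤ, ‖ψ n‖ ^ 2 := by
  have h := lp.norm_rpow_eq_tsum (p := 2) (by norm_num) ψ
  simpa using h

theorem l2_summable (ψ : l2) : Summable (fun n : ℤ => ‖ψ n‖ ^ 2) := by
  have h := (lp.memℓp ψ).summable (by norm_num)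
  simpa using h

theorem memlp_of_summable {f : ℤ → ℂ} (h : Summable (fun n : ℤ => ‖f n‖ ^ 2)) :
    Memℓp f 2 := by
  apply memℓp_gen
  simpa using h

/-- composition with a permutation of `ℤ`. -/
noncomputable def compOp (e : ℤ ≃ ℤ) : l2 →L[ℂ] l2 :=
  LinearMap.mkContinuous
    { toFun := fun ψ => ⟨fun n => ψ (e n), memlp_of_summable (by
        have := (e.summable_iff (f := fun n : ℤ => ‖ψ n‖ ^ 2)).mpr (l2_summable ψ)
        exact this)⟩
      map_add' := by
        intro ψ φ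
        apply Subtype.ext
        funext n
        rfl
      map_smul' := by
        intro c ψ
        apply Subtype.ext
        funext n
        rfl } 1 (by
      intro ψ
      rw [one_mul]
      have h1 : ‖(⟨fun n => ψ (e n), memlp_of_summable (by
        have := (e.summable_iff (f := fun n : ℤ => ‖ψ n‖ ^ 2)).mpr (l2_summable ψ)
        exact this)⟩ : l2)‖ ^ 2 = ‖ψ‖ ^ 2 := by
        rw [l2_norm_sq, l2_norm_sq]
        exact e.tsum_eq (fun n : ℤ => ‖ψ n‖ ^ 2)
      exact le_of_eq (by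
        have := congrArg Real.sqrt h1
        rwa [Real.sqrt_sq (norm_nonneg _), Real.sqrt_sq (norm_nonneg _)] at this))

theorem compOp_apply (e : ℤ ≃ ℤ) (ψ : l2) (n : ℤ) : (compOp e ψ) n = ψ (e n) := rfl

/-- multiplication by a bounded real function. -/
noncomputable def mulOp (V : ℤ → ℝ) (C : ℝ) (hV : ∀ n, |V n| ≤ C) : l2 →L[ℂ] l2 :=
  have hC : 0 ≤ C := le_trans (abs_nonneg _) (hV 0)
  have hb : ∀ (ψ : l2) (n : ℤ), ‖(V n : ℂ) * ψ n‖ ^ 2 ≤ C ^ 2 * ‖ψ n‖ ^ 2 := by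
    intro ψ n
    rw [norm_mul, mul_pow]
    apply mul_le_mul_of_nonneg_right _ (by positivity)
    rw [Complex.norm_real, Real.norm_eq_abs]
    exact pow_le_pow_left₀ (abs_nonneg _) (hV n) 2
  have hs : ∀ (ψ : l2), Summable (fun n : ℤ => ‖(V n : ℂ) * ψ n‖ ^ 2) := by
    intro ψ
    exact Summable.of_nonneg_of_le (fun n => by positivity) (hb ψ) ((l2_summable ψ).mul_left _)
  LinearMap.mkContinuous
    { toFun := fun ψ => ⟨fun n => (V n : ℂ) * ψ n, memlp_of_summable (hs ψ)⟩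
      map_add' := by
        intro ψ φ
        apply Subtype.ext
        funext n
        show (V n : ℂ) * (ψ n + φ n) = (V n : ℂ) * ψ n + (V n : ℂ) * φ n
        ring
      map_smul' := by
        intro c ψ
        apply Subtype.ext
        funext n
        show (V n : ℂ) * (c * ψ n) = c * ((V n : ℂ) * ψ n)
        ring } C (by
      intro ψ
      have h1 : ‖(⟨fun n => (V n : ℂ) * ψ n, memlp_of_summable (hs ψ)⟩ : l2)‖ ^ 2
          ≤ (C * ‖ψ‖) ^ 2 := by
        rw [l2_norm_sq, mul_pow, l2_norm_sq, ← tsum_mul_left]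
        exact Summable.tsum_le_tsum (hb ψ) (hs ψ) ((l2_summable ψ).mul_left _)
      exact abs_le_of_sq_le_sq' h1 (by positivity) |>.2)

theorem mulOp_apply (V : ℤ → ℝ) (C : ℝ) (hV : ∀ n, |V n| ≤ C) (ψ : l2) (n : ℤ) :
    (mulOp V C hV ψ) n = (V n : ℂ) * ψ n := rfl

/-- The discrete Schrödinger operator. -/
noncomputable def opH (V : ℤ → ℝ) (C : ℝ) (hV : ∀ n, |V n| ≤ C) : l2 →L[ℂ] l2 :=
  compOp (Equiv.addRight 1) + compOp (Equiv.subRight 1) + mulOp V C hV

theorem opH_apply (V : ℤ → ℝ) (C : ℝ) (hV : ∀ n, |V n| ≤ C) (ψ : l2) (n : ℤ) :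
    (opH V C hV ψ) n = ψ (n + 1) + ψ (n - 1) + (V n : ℂ) * ψ n := rfl

theorem opH_isSelfAdjoint (V : ℤ → ℝ) (C : ℝ) (hV : ∀ n, |V n| ≤ C) :
    IsSelfAdjoint (opH V C hV) := by
  rw [ContinuousLinearMap.isSelfAdjoint_iff_isSymmetric]
  intro ψ φ
  have hc : ∀ (e : ℤ ≃ ℤ) (ψ φ : l2), inner ℂ (compOp e ψ) φ = inner ℂ ψ (compOp e.symm φ) := by
    intro e ψ φ
    rw [lp.inner_eq_tsum, lp.inner_eq_tsum]
    rw [← e.tsum_eq (fun n : ℤ => inner ℂ (ψ n) ((compOp e.symm φ) n))]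
    congr 1
    funext n
    rw [compOp_apply, compOp_apply, Equiv.symm_apply_apply]
  have hm : inner ℂ (mulOp V C hV ψ) φ = inner ℂ ψ (mulOp V C hV φ) := by
    rw [lp.inner_eq_tsum, lp.inner_eq_tsum]
    congr 1
    funext n
    rw [mulOp_apply, mulOp_apply]
    simp only [RCLike.inner_apply, map_mul, Complex.conj_ofReal]
    ring
  have e1 : (Equiv.addRight (1 : ℤ)).symm = Equiv.subRight 1 := by
    ext n; simp [sub_eq_add_neg]
  have e2 : (Equiv.subRight (1 : ℤ)).symm = Equiv.addRight 1 := by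
    ext n; simp
  show inner ℂ (opH V C hV ψ) φ = inner ℂ ψ (opH V C hV φ)
  unfold opH
  simp only [add_apply, inner_add_left, inner_add_right]
  rw [hc, hc, hm, e1, e2]
  ring

end Pool.Agent.LP
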