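import Mathlib

set_option autoImplicit false
open MeasureTheory CompactlySupported

namespace Pool.Agent.LP

variable {F : Type*} [NormedAddCommGroup F] [InnerProductSpace ℂ F] [CompleteSpace F]

/-- real continuous functional calculus of a bounded operator. -/
noncomputable def fc (H : F →L[ℂ] F) (f : ℝ → ℝ) : F →L[ℂ] F := cfc f H

/-- The inner product of `ψ` with `f(H) ψ`, for `H` selfadjoint, is real. -/
theorem inner_cfc_real (H : F →L[ℂ] F) (f : ℝ → ℝ) (ψ : F) :
    (inner ℂ ψ ((fc H f) ψ) : ℂ) = ((RCLike.re (inner ℂ ψ ((fc H f) ψ) : ℂ) : ℝ) : ℂ) := by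
  have h1 : IsSelfAdjoint (fc H f) := cfc_predicate f H
  have h2 := h1.adjoint_eq
  have h3 : inner ℂ ψ ((fc H f) ψ) = (starRingEnd ℂ) (inner ℂ ψ ((fc H f) ψ)) := by
    rw [inner_conj_symm]
    conv_lhs => rw [← h2]
    rw [ContinuousLinearMap.adjoint_inner_right]
  have h4 := (Complex.conj_eq_iff_re.mp h3.symm)
  rw [← h4]
  simp

/-- Property of being a spectral measure of `H` at `ψ` (tested on continuous functions). -/
def IsSpec (H : F →L[ℂ] F) (ψ : F) (μ : Measure ℝ) : Prop :=
  ∀ f : ℝ → ℝ, Continuous f → Integrable f μ ∧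
        (∫ x, f x ∂μ = RCLike.re (inner ℂ ψ ((fc H f) ψ) : ℂ))

/-- Existence of the spectral measure of a bounded selfadjoint operator at a vector. -/
theorem exists_spectral_measure (H : F →L[ℂ] F) (hH : IsSelfAdjoint H) (ψ : F) :
    ∃ μ : Measure ℝ, IsFiniteMeasure μ ∧ IsSpec H ψ μ := by
  classical
  -- the functional
  let X := spectrum ℝ H
  have : CompactSpace X := by
    exact isCompact_iff_compactSpace.mp (spectrum.isCompact (𝕜 := ℝ) H)
  let Λ₀ : C(X, ℝ) →ₗ[ℝ] ℝ :=
    { toFun := fun f => RCLike.re (inner ℂ ψ ((cfcHom hH f : F →L[ℂ] F) ψ) : ℂ)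
      map_add' := by
        intro f g
        simp
      map_smul' := by
        intro c f
        simp only [map_smul, smul_apply, RingHom.id_apply, smul_eq_mul]
        rw [show (c • ((cfcHom hH f : F →L[ℂ] F) ψ)) = ((c : ℂ) • ((cfcHom hH f : F →L[ℂ] F) ψ)) from
          (RCLike.real_smul_eq_coe_smul (K := ℂ) c _)]
        rw [inner_smul_right]
        simp }
  have hpos : ∀ f : C(X, ℝ), 0 ≤ f → 0 ≤ Λ₀ f := by
    intro f hf
    have h1 : (0 : F →L[ℂ] F) ≤ cfcHom hH f := by
      have := cfcHom_mono hH (f := 0) (g := f) hf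
      simpa using this
    have h2 := (ContinuousLinearMap.nonneg_iff_isPositive _).mp h1
    exact h2.re_inner_nonneg_right ψ
  let Λ : C_c(X, ℝ) →ₚ[ℝ] ℝ :=
    PositiveLinearMap.mk₀
      { toFun := fun f => Λ₀ (f : C(X, ℝ))
        map_add' := by
          intro f g
          rw [← map_add]
          rfl
        map_smul' := by
          intro c f
          rw [RingHom.id_apply, ← map_smul]
          rfl }
      (by
        intro f hf
        exact hpos _ (fun x => hf x))
  let ν := RealRMK.rieszMeasure Λ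
  have : IsFiniteMeasure ν := by infer_instance
  have hmeas : Measurable (Subtype.val : X → ℝ) := measurable_subtype_coe
  refine ⟨ν.map Subtype.val, inferInstance, ?_⟩
  intro f hf
  have hint : Integrable (fun x : X => f x) ν := by
    have hc : Continuous (fun x : X => f x) := hf.comp continuous_subtype_val
    exact hc.integrable_of_hasCompactSupport (HasCompactSupport.of_compactSpace _)
  constructor
  · rw [integrable_map_measure hf.aestronglyMeasurable hmeas.aemeasurable]
    exact hint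
  · rw [integral_map hmeas.aemeasurable hf.aestronglyMeasurable]
    let f' : C_c(X, ℝ) :=
      { toFun := fun x => f x
        continuous_toFun := hf.comp continuous_subtype_val
        hasCompactSupport' := HasCompactSupport.of_compactSpace _ }
    have h1 := RealRMK.integral_rieszMeasure Λ f'
    have h2 : Λ f' = RCLike.re (inner ℂ ψ ((fc H f) ψ) : ℂ) := by
      unfold fc
      rw [cfc_apply f H hH hf.continuousOn]
      rfl
    rw [← h2, ← h1]
    rfl

/-- moments -/
theorem spectral_measure_moments (H : F →L[ℂ] F) (hH : IsSelfAdjoint H) (ψ : F) (μ : Measure ℝ)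
    (hμ : IsSpec H ψ μ) :
    (∀ k : ℕ, Integrable (fun x : ℝ => x ^ k) μ) ∧
    (∀ k : ℕ, ∫ x, (x : ℂ) ^ k ∂μ = inner ℂ ψ ((H ^ k) ψ)) := by
  constructor
  · intro k
    exact (hμ (fun x => x ^ k) (by fun_prop)).1
  · intro k
    have h1 := (hμ (fun x => x ^ k) (by fun_prop)).2
    have h2 : fc H (fun x : ℝ => x ^ k) = H ^ k := cfc_pow_id H k
    have h3 := inner_cfc_real H (fun x : ℝ => x ^ k) ψ
    rw [← h2, h3, ← h1]
    rw [← integral_complex_ofReal]
    simp

theorem norm_sq_fc {H : F →L[ℂ] F} {ψ : F} {μ : Measure ℝ}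
    (hμ : IsSpec H ψ μ) (f : ℝ → ℝ) (hf : Continuous f) :
    ‖(fc H f) ψ‖ ^ 2 = ∫ x, (f x) ^ 2 ∂μ := by
  rw [(hμ (fun x => (f x) ^ 2) (by fun_prop)).2]
  have h1 : fc H (fun x => (f x) ^ 2) = fc H f * fc H f := by
    unfold fc
    rw [← cfc_mul f f H hf.continuousOn hf.continuousOn]
    congr 1
    funext x
    ring
  rw [h1]
  have h2 : IsSelfAdjoint (fc H f) := cfc_predicate f H
  have h3 : inner ℂ ψ ((fc H f * fc H f) ψ) = inner ℂ ((fc H f) ψ) ((fc H f) ψ) := by
    have h := ContinuousLinearMap.adjoint_inner_right (fc H f) ψ ((fc H f) ψ)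
    rw [h2.adjoint_eq] at h
    exact h
  rw [h3]
  rw [inner_self_eq_norm_sq]

theorem apply_fc {H : F →L[ℂ] F} (hH : IsSelfAdjoint H) (ψ : F)
    (f : ℝ → ℝ) (hf : Continuous f) (E : ℝ) :
    H ((fc H f) ψ) - (E : ℂ) • ((fc H f) ψ) = (fc H (fun x => (x - E) * f x)) ψ := by
  unfold fc
  have h1 : cfc (fun x : ℝ => (x - E) * f x) H = (H - algebraMap ℝ (F →L[ℂ] F) E) * cfc f H := by
    rw [cfc_mul (fun x : ℝ => x - E) f H (by fun_prop) hf.continuousOn]
    congr 1
    rw [cfc_sub (fun x : ℝ => x) (fun _ => E) H (by fun_prop) (by fun_prop)]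
    rw [cfc_id' ℝ H, cfc_const E H]
  rw [h1]
  rw [sub_mul]
  simp only [sub_apply]
  congr 1

theorem fc_one_apply {H : F →L[ℂ] F} (hH : IsSelfAdjoint H) (ψ : F) :
    (fc H (fun _ : ℝ => (1 : ℝ))) ψ = ψ := by
  unfold fc
  rw [cfc_const_one ℝ H]
  rfl

theorem fc_sub_smul_apply {H : F →L[ℂ] F} (ψ : F)
    (f g : ℝ → ℝ) (hf : Continuous f) (hg : Continuous g) (c : ℝ) :
    (fc H (fun x => f x - c * g x)) ψ = (fc H f) ψ - (c : ℂ) • ((fc H g) ψ) := by
  unfold fc
  rw [cfc_sub f (fun x => c * g x) H hf.continuousOn (by fun_prop)]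
  rw [cfc_const_mul c g H hg.continuousOn]
  simp

end Pool.Agent.LP
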