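import Mathlib
import Pool.Agent.Lib_helper90.Operator
import Pool.Agent.Lib_helper90.Spectral

set_option autoImplicit false
open MeasureTheory

namespace Pool.Agent.LP

theorem wronsk (c g h y : ℕ → ℝ) (hg : ∀ n, g (n+2) = c (n+1) * g (n+1) - g n + h (n+1))
    (hy : ∀ n, y (n+2) = c (n+1) * y (n+1) - y n) (n : ℕ) :
    g (n+1) * y n - g n * y (n+1)
      = g 1 * y 0 - g 0 * y 1 + ∑ j ∈ Finset.range n, h (j+1) * y (j+1) := by
  induction n with
  | zero => simp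
  | succ n ih =>
    rw [Finset.sum_range_succ, ← add_assoc, ← ih]
    rw [show n + 1 + 1 = n + 2 from rfl, hg n, hy n]
    ring

theorem sum_abs_le (g : ℕ → ℝ) (G : ℝ) (hG0 : 0 ≤ G) (N : ℕ)
    (hG : ∑ n ∈ Finset.range N, (g n) ^ 2 ≤ G ^ 2) :
    ∑ n ∈ Finset.range N, |g n| ≤ Real.sqrt N * G := by
  have h1 : (∑ n ∈ Finset.range N, |g n|) ^ 2 ≤ (Real.sqrt N * G) ^ 2 := by
    calc (∑ n ∈ Finset.range N, |g n|) ^ 2
        ≤ (Finset.range N).card * ∑ n ∈ Finset.range N, |g n| ^ 2 := sq_sum_le_card_mul_sum_sq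
      _ = N * ∑ n ∈ Finset.range N, (g n) ^ 2 := by simp
      _ ≤ N * G ^ 2 := by gcongr
      _ = (Real.sqrt N * G) ^ 2 := by
        rw [mul_pow, Real.sq_sqrt (by positivity)]
  exact abs_le_of_sq_le_sq' h1 (by positivity) |>.2

theorem wronsk_bound (c g h y : ℕ → ℝ) (hg : ∀ n, g (n+2) = c (n+1) * g (n+1) - g n + h (n+1))
    (hy : ∀ n, y (n+2) = c (n+1) * y (n+1) - y n) (B G K : ℝ) (hB0 : 0 ≤ B) (hG0 : 0 ≤ G)
    (hK0 : 0 ≤ K) (hB : ∀ n, |y n| ≤ B)
    (hG : ∀ N, ∑ n ∈ Finset.range N, (g n) ^ 2 ≤ G ^ 2)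
    (hG' : ∀ N, ∑ n ∈ Finset.range N, (g (n+1)) ^ 2 ≤ G ^ 2)
    (hK : ∀ N, ∑ n ∈ Finset.range N, (h (n+1)) ^ 2 ≤ K ^ 2) (N : ℕ) (hN : 1 ≤ N) :
    |g 1 * y 0 - g 0 * y 1| ≤ B * (2 * G / Real.sqrt N + Real.sqrt N * K) := by
  set W := |g 1 * y 0 - g 0 * y 1| with hW
  have hNpos : (0 : ℝ) < N := by exact_mod_cast hN
  have hsq : 0 < Real.sqrt N := Real.sqrt_pos.mpr hNpos
  have h1 : ∀ n ∈ Finset.range N, W ≤ B * |g (n+1)| + B * |g n| + B * (Real.sqrt N * K) := by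
    intro n hn
    have e := wronsk c g h y hg hy n
    have e2 : g 1 * y 0 - g 0 * y 1 = g (n+1) * y n - g n * y (n+1)
        - ∑ j ∈ Finset.range n, h (j+1) * y (j+1) := by linarith
    have hs : |∑ j ∈ Finset.range n, h (j+1) * y (j+1)| ≤ B * (Real.sqrt N * K) := by
      calc |∑ j ∈ Finset.range n, h (j+1) * y (j+1)|
          ≤ ∑ j ∈ Finset.range n, |h (j+1) * y (j+1)| := Finset.abs_sum_le_sum_abs _ _
        _ ≤ ∑ j ∈ Finset.range n, B * |h (j+1)| := by
            apply Finset.sum_le_sum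
            intro j _
            rw [abs_mul, mul_comm]
            exact mul_le_mul_of_nonneg_right (hB _) (abs_nonneg _)
        _ ≤ ∑ j ∈ Finset.range N, B * |h (j+1)| := by
            apply Finset.sum_le_sum_of_subset_of_nonneg
            · intro j hj
              rw [Finset.mem_range] at *
              omega
            · intro j _ _
              positivity
        _ = B * ∑ j ∈ Finset.range N, |h (j+1)| := by rw [Finset.mul_sum]
        _ ≤ B * (Real.sqrt N * K) := by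
            apply mul_le_mul_of_nonneg_left _ hB0
            exact sum_abs_le (fun j => h (j+1)) K hK0 N (hK N)
    rw [hW, e2]
    calc |g (n+1) * y n - g n * y (n+1) - ∑ j ∈ Finset.range n, h (j+1) * y (j+1)|
        ≤ |g (n+1) * y n - g n * y (n+1)| + |∑ j ∈ Finset.range n, h (j+1) * y (j+1)| :=
          abs_sub _ _
      _ ≤ (|g (n+1) * y n| + |g n * y (n+1)|) + B * (Real.sqrt N * K) := by
          gcongr
          exact abs_sub _ _
      _ ≤ (B * |g (n+1)| + B * |g n|) + B * (Real.sqrt N * K) := by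
          rw [abs_mul, abs_mul]
          have k1 : |g (n+1)| * |y n| ≤ |g (n+1)| * B :=
            mul_le_mul_of_nonneg_left (hB n) (abs_nonneg _)
          have k2 : |g n| * |y (n+1)| ≤ |g n| * B :=
            mul_le_mul_of_nonneg_left (hB (n+1)) (abs_nonneg _)
          linarith
  have h2 : ∑ n ∈ Finset.range N, W
      ≤ ∑ n ∈ Finset.range N, (B * |g (n+1)| + B * |g n| + B * (Real.sqrt N * K)) :=
    Finset.sum_le_sum h1
  rw [Finset.sum_const, Finset.card_range, nsmul_eq_mul, Finset.sum_add_distrib,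
    Finset.sum_add_distrib, ← Finset.mul_sum, ← Finset.mul_sum, Finset.sum_const,
    Finset.card_range, nsmul_eq_mul] at h2
  have h3 := sum_abs_le g G hG0 N (hG N)
  have h4 := sum_abs_le (fun n => g (n+1)) G hG0 N (hG' N)
  have h5 : (N : ℝ) * W ≤ B * (Real.sqrt N * G) + B * (Real.sqrt N * G)
      + N * (B * (Real.sqrt N * K)) := by
    have a1 := mul_le_mul_of_nonneg_left h3 hB0
    have a2 := mul_le_mul_of_nonneg_left h4 hB0
    linarith
  have hNs : (N : ℝ) = Real.sqrt N * Real.sqrt N := (Real.mul_self_sqrt hNpos.le).symm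
  have h6 : (N : ℝ) * W ≤ N * (B * (2 * G / Real.sqrt N + Real.sqrt N * K)) := by
    have e : (N : ℝ) * (B * (2 * G / Real.sqrt N + Real.sqrt N * K))
        = B * (Real.sqrt N * G) + B * (Real.sqrt N * G) + N * (B * (Real.sqrt N * K)) := by
      have : (N : ℝ) * (2 * G / Real.sqrt N) = 2 * (Real.sqrt N * G) := by
        rw [mul_div_assoc']
        rw [div_eq_iff hsq.ne']
        nlinarith [hNs]
      rw [mul_add, mul_add, ← mul_assoc (N : ℝ) B, mul_comm (N : ℝ) B, mul_assoc B, this]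
      ring
    rw [e]; exact h5
  exact le_of_mul_le_mul_left h6 hNpos

/-- canonical homogeneous solution on `ℕ` with data `(a, b)`. -/
noncomputable def hsol (c : ℕ → ℝ) (a b : ℝ) : ℕ → ℝ × ℝ
  | 0 => (a, b)
  | (n+1) => ((hsol c a b n).2, c (n+1) * (hsol c a b n).2 - (hsol c a b n).1)

theorem hsol_rec (c : ℕ → ℝ) (a b : ℝ) (n : ℕ) :
    (hsol c a b (n+2)).1 = c (n+1) * (hsol c a b (n+1)).1 - (hsol c a b n).1 := by
  simp [hsol]

/-- The bounded solutions property on the half line, for coefficient sequence `c`. -/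
def BddSol (c : ℕ → ℝ) (B : ℝ) : Prop :=
  ∀ y : ℕ → ℝ, (∀ n, y (n+2) = c (n+1) * y (n+1) - y n) → |y 0| ≤ 1 → |y 1| ≤ 1 →
    ∀ n, |y n| ≤ B

theorem half_line_bound (c g h : ℕ → ℝ)
    (hg : ∀ n, g (n+2) = c (n+1) * g (n+1) - g n + h (n+1))
    (B G K : ℝ) (hB0 : 0 ≤ B) (hG0 : 0 ≤ G) (hK0 : 0 ≤ K) (hB : BddSol c B)
    (hG : ∀ N, ∑ n ∈ Finset.range N, (g n) ^ 2 ≤ G ^ 2)
    (hG' : ∀ N, ∑ n ∈ Finset.range N, (g (n+1)) ^ 2 ≤ G ^ 2)
    (hK : ∀ N, ∑ n ∈ Finset.range N, (h (n+1)) ^ 2 ≤ K ^ 2) (N : ℕ) (hN : 1 ≤ N) :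
    |g 0| ≤ B * (2 * G / Real.sqrt N + Real.sqrt N * K) ∧
    |g 1| ≤ B * (2 * G / Real.sqrt N + Real.sqrt N * K) := by
  constructor
  · have h1 := wronsk_bound c g h (fun n => (hsol c 0 1 n).1) hg (hsol_rec c 0 1) B G K hB0 hG0 hK0
      (hB _ (hsol_rec c 0 1) (by simp [hsol]) (by simp [hsol])) hG hG' hK N hN
    simpa [hsol] using h1
  · have h1 := wronsk_bound c g h (fun n => (hsol c 1 0 n).1) hg (hsol_rec c 1 0) B G K hB0 hG0 hK0
      (hB _ (hsol_rec c 1 0) (by simp [hsol]) (by simp [hsol])) hG hG' hK N hN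
    simpa [hsol] using h1

end Pool.Agent.LP
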