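import Mathlib

set_option autoImplicit false
open Matrix

namespace Pool.Agent.LP

/-- 2x2 real matrices -/
abbrev M2 := Matrix (Fin 2) (Fin 2) ℝ

/-- vectors -/
abbrev V2 := Fin 2 → ℝ

/-- area form -/
def wedge (v w : V2) : ℝ := v 0 * w 1 - v 1 * w 0

theorem wedge_mulVec (M : M2) (v w : V2) : wedge (M *ᵥ v) (M *ᵥ w) = M.det * wedge v w := by
  simp only [wedge, Matrix.mulVec, dotProduct, Fin.sum_univ_two, Matrix.det_fin_two]
  ring

theorem wedge_add_right (v w w' : V2) : wedge v (w + w') = wedge v w + wedge v w' := by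
  simp only [wedge, Pi.add_apply]; ring

theorem wedge_sub_right (v w w' : V2) : wedge v (w - w') = wedge v w - wedge v w' := by
  simp only [wedge, Pi.sub_apply]; ring

theorem wedge_smul_right (c : ℝ) (v w : V2) : wedge v (c • w) = c * wedge v w := by
  simp only [wedge, Pi.smul_apply, smul_eq_mul]; ring

theorem wedge_self (v : V2) : wedge v v = 0 := by
  simp only [wedge]; ring

theorem abs_wedge_le (v w : V2) : |wedge v w| ≤ 2 * (‖v‖ * ‖w‖) := by
  have h0 : |v 0| ≤ ‖v‖ := norm_le_pi_norm v 0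
  have h1 : |v 1| ≤ ‖v‖ := norm_le_pi_norm v 1
  have k0 : |w 0| ≤ ‖w‖ := norm_le_pi_norm w 0
  have k1 : |w 1| ≤ ‖w‖ := norm_le_pi_norm w 1
  calc |wedge v w| ≤ |v 0 * w 1| + |v 1 * w 0| := abs_sub _ _
    _ = |v 0| * |w 1| + |v 1| * |w 0| := by rw [abs_mul, abs_mul]
    _ ≤ ‖v‖ * ‖w‖ + ‖v‖ * ‖w‖ := by gcongr
    _ = 2 * (‖v‖ * ‖w‖) := by ring

/-- Cayley-Hamilton for 2x2 matrices of determinant one. -/
theorem cayley (R : M2) (hR : R.det = 1) : R * R = R.trace • R - 1 := by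
  rw [Matrix.det_fin_two] at hR
  ext i j
  fin_cases i <;> fin_cases j <;>
    simp [Matrix.mul_apply, Fin.sum_univ_two, Matrix.trace_fin_two] <;> nlinarith

theorem pow_formula (R : M2) (hR : R.det = 1) (φ : ℝ) (htr : R.trace = 2 * Real.cos φ) (n : ℕ) :
    Real.sin φ • R ^ n = Real.sin (n * φ) • R - Real.sin ((n - 1) * φ) • (1 : M2) := by
  induction n with
  | zero =>
    simp
  | succ n ih =>
    rw [pow_succ, ← smul_mul_assoc, ih, sub_mul, smul_mul_assoc, smul_mul_assoc, one_mul,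
      cayley R hR, htr]
    have h1 : Real.sin (((n + 1 : ℕ) : ℝ) * φ)
        = 2 * Real.cos φ * Real.sin (n * φ) - Real.sin ((n - 1) * φ) := by
      have e1 : ((n + 1 : ℕ) : ℝ) * φ = n * φ + φ := by push_cast; ring
      have e2 : ((n : ℝ) - 1) * φ = n * φ - φ := by ring
      rw [e1, e2, Real.sin_add, Real.sin_sub]
      ring
    have h2 : (((n + 1 : ℕ) : ℝ) - 1) * φ = n * φ := by push_cast; ring
    rw [h1, h2]
    rw [smul_sub, sub_smul, smul_smul]
    rw [mul_comm (Real.sin (n * φ)) (2 * Real.cos φ)]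
    abel

theorem wedge_pow (R : M2) (hR : R.det = 1) (φ : ℝ) (htr : R.trace = 2 * Real.cos φ)
    (hs : Real.sin φ ≠ 0) (n : ℕ) (v : V2) :
    wedge v (R ^ n *ᵥ v) = Real.sin (n * φ) * (wedge v (R *ᵥ v) / Real.sin φ) := by
  have h := pow_formula R hR φ htr n
  have h2 : Real.sin φ • (R ^ n *ᵥ v)
      = Real.sin (n * φ) • (R *ᵥ v) - Real.sin ((n - 1) * φ) • v := by
    rw [← Matrix.smul_mulVec, h, Matrix.sub_mulVec, Matrix.smul_mulVec, Matrix.smul_mulVec,
      Matrix.one_mulVec]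
  have h3 := congrArg (wedge v) h2
  rw [wedge_smul_right, wedge_sub_right, wedge_smul_right, wedge_smul_right, wedge_self] at h3
  field_simp
  linarith

theorem trace_pow (R : M2) (hR : R.det = 1) (φ : ℝ) (htr : R.trace = 2 * Real.cos φ)
    (hs : Real.sin φ ≠ 0) (n : ℕ) :
    (R ^ n).trace = 2 * Real.cos (n * φ) := by
  have h := congrArg Matrix.trace (pow_formula R hR φ htr n)
  rw [Matrix.trace_smul, Matrix.trace_sub, Matrix.trace_smul, Matrix.trace_smul, htr,
    Matrix.trace_one] at h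
  have e2 : ((n : ℝ) - 1) * φ = n * φ - φ := by ring
  rw [e2, Real.sin_sub] at h
  simp only [smul_eq_mul, Fintype.card_fin, Nat.cast_ofNat] at h
  have h4 : Real.sin φ * (R ^ n).trace = Real.sin φ * (2 * Real.cos (n * φ)) := by
    rw [h]; ring
  exact mul_left_cancel₀ hs h4

theorem abs_trace_le (M : M2) (c : ℝ) (hM : ∀ v : V2, ‖M *ᵥ v‖ ≤ c * ‖v‖) :
    |M.trace| ≤ 2 * c := by
  have n0 : ‖(Pi.single 0 1 : V2)‖ = 1 := by
    rw [Pi.norm_single]; simp
  have n1 : ‖(Pi.single 1 1 : V2)‖ = 1 := by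
    rw [Pi.norm_single]; simp
  have h0 : |M 0 0| ≤ c := by
    have h := hM (Pi.single 0 1)
    rw [n0, mul_one] at h
    refine le_trans ?_ h
    have := norm_le_pi_norm (M *ᵥ (Pi.single 0 1 : V2)) 0
    simpa [Matrix.mulVec_single_one] using this
  have h1 : |M 1 1| ≤ c := by
    have h := hM (Pi.single 1 1)
    rw [n1, mul_one] at h
    refine le_trans ?_ h
    have := norm_le_pi_norm (M *ᵥ (Pi.single 1 1 : V2)) 1
    simpa [Matrix.mulVec_single_one] using this
  rw [Matrix.trace_fin_two]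
  calc |M 0 0 + M 1 1| ≤ |M 0 0| + |M 1 1| := abs_add_le _ _
    _ ≤ 2 * c := by linarith

/-! ### transfer matrices -/

/-- one step transfer matrix -/
def stepM (e : ℝ) : M2 := !![e, -1; 1, 0]

theorem det_stepM (e : ℝ) : (stepM e).det = 1 := by
  simp [stepM, Matrix.det_fin_two]

/-- transfer matrix over the sites `m, …, m+n-1` for the potential `-W` at energy `E`. -/
def TZ (W : ℤ → ℝ) (E : ℝ) (m : ℤ) : ℕ → M2
  | 0 => 1
  | (n + 1) => stepM (E + W (m + n)) * TZ W E m n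

theorem TZ_zero (W : ℤ → ℝ) (E : ℝ) (m : ℤ) : TZ W E m 0 = 1 := rfl

theorem TZ_succ (W : ℤ → ℝ) (E : ℝ) (m : ℤ) (n : ℕ) :
    TZ W E m (n + 1) = stepM (E + W (m + n)) * TZ W E m n := rfl

theorem det_TZ (W : ℤ → ℝ) (E : ℝ) (m : ℤ) (n : ℕ) : (TZ W E m n).det = 1 := by
  induction n with
  | zero => rw [TZ_zero, Matrix.det_one]
  | succ n ih => rw [TZ_succ, Matrix.det_mul, ih, det_stepM, one_mul]

theorem TZ_add (W : ℤ → ℝ) (E : ℝ) (m : ℤ) (a b : ℕ) :
    TZ W E m (a + b) = TZ W E (m + a) b * TZ W E m a := by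
  induction b with
  | zero => rw [TZ_zero, one_mul, add_zero]
  | succ b ih =>
    rw [← add_assoc, TZ_succ, ih, TZ_succ, Matrix.mul_assoc]
    congr 3
    push_cast
    ring_nf

theorem TZ_congr (W W' : ℤ → ℝ) (E E' : ℝ) (m m' : ℤ) (n : ℕ)
    (h : ∀ i : ℕ, i < n → E + W (m + i) = E' + W' (m' + i)) : TZ W E m n = TZ W' E' m' n := by
  induction n with
  | zero => rfl
  | succ n ih =>
    rw [TZ_succ, TZ_succ, ih (fun i hi => h i (by omega)), h n (by omega)]

end Pool.Agent.LP
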