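import Mathlib
import Pool.Agent.Lib_helper90.Mat

set_option autoImplicit false
open Matrix

namespace Pool.Agent.LP

/-- invariant quadratic form of `R`. -/
noncomputable def qf (R : M2) (σ : ℝ) (v : V2) : ℝ := wedge v (R *ᵥ v) / σ

theorem qf_inv (R : M2) (hR : R.det = 1) (σ : ℝ) (v : V2) : qf R σ (R *ᵥ v) = qf R σ v := by
  unfold qf
  rw [wedge_mulVec, hR, one_mul]

theorem qf_pow (R : M2) (hR : R.det = 1) (σ : ℝ) (n : ℕ) (v : V2) :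
    qf R σ (R ^ n *ᵥ v) = qf R σ v := by
  induction n with
  | zero => rw [pow_zero, Matrix.one_mulVec]
  | succ n ih => rw [pow_succ', ← Matrix.mulVec_mulVec, qf_inv R hR, ih]

theorem qf_add (R : M2) (σ : ℝ) (x y : V2) (t : ℝ) (ht : 0 < t) (hpos : ∀ v, 0 ≤ qf R σ v) :
    qf R σ (x + y) ≤ (1 + t) * qf R σ x + (1 + 1 / t) * qf R σ y := by
  have h := hpos (t • x - y)
  have e1 : qf R σ (t • x - y) = t ^ 2 * qf R σ x + qf R σ y
      - t * (qf R σ (x + y) - qf R σ x - qf R σ y) := by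
    unfold qf
    simp only [wedge, Matrix.mulVec, dotProduct, Fin.sum_univ_two, Pi.add_apply, Pi.sub_apply,
      Pi.smul_apply, smul_eq_mul]
    ring
  rw [e1] at h
  have h2 : t * (qf R σ (x + y) - qf R σ x - qf R σ y) ≤ t ^ 2 * qf R σ x + qf R σ y := by linarith
  have h3 : qf R σ (x + y) - qf R σ x - qf R σ y ≤ (t ^ 2 * qf R σ x + qf R σ y) / t := by
    rw [le_div_iff₀ ht]; linarith
  have e2 : (t ^ 2 * qf R σ x + qf R σ y) / t = t * qf R σ x + 1 / t * qf R σ y := by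
    field_simp
  rw [e2] at h3
  linarith

theorem exists_preimage (M : M2) (hM : M.det = 1) (v : V2) : ∃ y : V2, M *ᵥ y = v := by
  refine ⟨M⁻¹ *ᵥ v, ?_⟩
  rw [Matrix.mulVec_mulVec, Matrix.mul_nonsing_inv _ (by rw [hM]; exact isUnit_one),
    Matrix.one_mulVec]

/-- The core perturbation lemma. -/
theorem core (R G : M2) (hR : R.det = 1) (φ : ℝ) (hsin : Real.sin φ ≠ 0)
    (htr : R.trace = 2 * Real.cos φ) (b : ℝ) (hb : 1 ≤ b)
    (hq1 : ∀ v : V2, ‖v‖ ^ 2 ≤ b * qf R (Real.sin φ) v)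
    (hq2 : ∀ v : V2, qf R (Real.sin φ) v ≤ b * ‖v‖ ^ 2)
    (η : ℝ) (hη : 0 ≤ η) (hδ : ∀ v : V2, ‖G *ᵥ v - R *ᵥ v‖ ≤ η * ‖v‖) (l : ℕ)
    (κ : ℝ) (hκ0 : 0 < κ) (hκ1 : κ ≤ 1)
    (hS : κ ^ 2 ≤ Real.sin (((2 * l + 1 : ℕ) : ℝ) * φ) ^ 2)
    (ρ : ℝ) (hρ : ρ = 3 * (b * η) / κ ^ 2) (hρ8 : ρ ≤ 1 / 8) :
    ∃ σ' : ℝ, σ' ≠ 0 ∧ σ' ^ 2 + ((R ^ l * G * R ^ l).trace / 2) ^ 2 = 1 ∧
      ∀ v : V2, (1 - 2 * ρ) * qf R (Real.sin φ) v ≤ qf (R ^ l * G * R ^ l) σ' v ∧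
        qf (R ^ l * G * R ^ l) σ' v ≤ (1 + 3 * ρ) * qf R (Real.sin φ) v := by
  set σ := Real.sin φ with hσ
  set S := Real.sin (((2 * l + 1 : ℕ) : ℝ) * φ) with hSdef
  set T := R ^ l * G * R ^ l with hT
  have hb0 : 0 < b := by linarith
  set t := b * η with ht
  have ht0 : 0 ≤ t := by positivity
  have hρ0 : 0 ≤ ρ := by rw [hρ]; positivity
  have htρ : 3 * t = ρ * κ ^ 2 := by rw [hρ]; field_simp
  have hqpos : ∀ v, 0 ≤ qf R σ v := by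
    intro v
    have := hq1 v
    have h2 : 0 ≤ ‖v‖ ^ 2 := by positivity
    by_contra hc
    push Not at hc
    nlinarith
  have hRn : ∀ (n : ℕ) (v : V2), ‖R ^ n *ᵥ v‖ ≤ b * ‖v‖ := by
    intro n v
    have h1 := hq1 (R ^ n *ᵥ v)
    rw [qf_pow R hR] at h1
    have h2 := hq2 v
    have h3 : ‖R ^ n *ᵥ v‖ ^ 2 ≤ (b * ‖v‖) ^ 2 := by
      rw [mul_pow]
      nlinarith
    exact abs_le_of_sq_le_sq' h3 (by positivity) |>.2
  have hRl : (R ^ l).det = 1 := by rw [Matrix.det_pow, hR, one_pow]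
  -- wedge estimate
  have hw : ∀ v : V2, |wedge v (T *ᵥ v) - S * qf R σ v| ≤ 2 * t * qf R σ v := by
    intro v
    obtain ⟨y, hy⟩ := exists_preimage (R ^ l) hRl v
    have e1 : wedge v (R ^ (2 * l + 1) *ᵥ v) = S * qf R σ v := wedge_pow R hR φ htr hsin _ v
    have e2 : T *ᵥ v - R ^ (2 * l + 1) *ᵥ v
        = R ^ l *ᵥ (G *ᵥ (R ^ l *ᵥ v) - R *ᵥ (R ^ l *ᵥ v)) := by
      have h1 : R ^ (2 * l + 1) = R ^ l * R * R ^ l := by
        rw [← pow_succ, ← pow_add]; congr 1; ring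
      rw [hT, h1, Matrix.mulVec_sub]
      simp only [Matrix.mulVec_mulVec, Matrix.mul_assoc]
    have e3 : wedge v (T *ᵥ v) - S * qf R σ v
        = wedge y (G *ᵥ (R ^ l *ᵥ v) - R *ᵥ (R ^ l *ᵥ v)) := by
      rw [← e1, ← wedge_sub_right, e2]
      nth_rewrite 1 [← hy]
      rw [wedge_mulVec, hRl, one_mul]
    rw [e3]
    have h1 := abs_wedge_le y (G *ᵥ (R ^ l *ᵥ v) - R *ᵥ (R ^ l *ᵥ v))
    have h2 := hδ (R ^ l *ᵥ v)
    have h3 : qf R σ y = qf R σ v := by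
      rw [← hy, qf_pow R hR]
    have h4 := hq1 y
    rw [h3] at h4
    have h5 := hq1 (R ^ l *ᵥ v)
    rw [qf_pow R hR] at h5
    have h6 : 2 * (‖y‖ * ‖R ^ l *ᵥ v‖) ≤ ‖y‖ ^ 2 + ‖R ^ l *ᵥ v‖ ^ 2 := by
      nlinarith [sq_nonneg (‖y‖ - ‖R ^ l *ᵥ v‖)]
    calc |wedge y (G *ᵥ (R ^ l *ᵥ v) - R *ᵥ (R ^ l *ᵥ v))|
        ≤ 2 * (‖y‖ * ‖G *ᵥ (R ^ l *ᵥ v) - R *ᵥ (R ^ l *ᵥ v)‖) := h1
      _ ≤ 2 * (‖y‖ * (η * ‖R ^ l *ᵥ v‖)) := by gcongr
      _ = η * (2 * (‖y‖ * ‖R ^ l *ᵥ v‖)) := by ring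
      _ ≤ η * (‖y‖ ^ 2 + ‖R ^ l *ᵥ v‖ ^ 2) := by gcongr
      _ ≤ η * (b * qf R σ v + b * qf R σ v) := by gcongr
      _ = 2 * t * qf R σ v := by rw [ht]; ring
  -- trace estimate
  have htrace : |T.trace - 2 * Real.cos (((2 * l + 1 : ℕ) : ℝ) * φ)| ≤ 2 * t := by
    rw [← trace_pow R hR φ htr hsin]
    have e1 : T.trace - (R ^ (2 * l + 1)).trace = (R ^ (2 * l) * (G - R)).trace := by
      rw [hT, Matrix.mul_sub, Matrix.trace_sub, Matrix.mul_assoc, Matrix.trace_mul_comm,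
        Matrix.mul_assoc, ← pow_add, Matrix.trace_mul_comm]
      rw [← pow_succ, show l + l = 2 * l by ring]
    rw [e1]
    apply abs_trace_le
    intro v
    rw [← Matrix.mulVec_mulVec, Matrix.sub_mulVec]
    calc ‖R ^ (2 * l) *ᵥ (G *ᵥ v - R *ᵥ v)‖ ≤ b * ‖G *ᵥ v - R *ᵥ v‖ := hRn _ _
      _ ≤ b * (η * ‖v‖) := by gcongr; exact hδ v
      _ = t * ‖v‖ := by rw [ht]; ring
  set c := T.trace / 2 with hc
  set C := Real.cos (((2 * l + 1 : ℕ) : ℝ) * φ) with hCdef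
  have hcC : |c - C| ≤ t := by
    have e : c - C = (T.trace - 2 * C) / 2 := by rw [hc]; ring
    rw [e, abs_div, abs_two]
    linarith
  have hSC : S ^ 2 + C ^ 2 = 1 := Real.sin_sq_add_cos_sq _
  have hC1 : |C| ≤ 1 := Real.abs_cos_le_one _
  have hκ2 : κ ^ 2 ≤ 1 := by nlinarith
  have ht1 : t ≤ 1 := by nlinarith
  have hsq : |c ^ 2 - C ^ 2| ≤ 3 * t := by
    have e : c ^ 2 - C ^ 2 = (c - C) * (c + C) := by ring
    rw [e, abs_mul]
    have h1 : |c + C| ≤ t + 2 := by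
      have e2 : c + C = (c - C) + 2 * C := by ring
      rw [e2]
      refine le_trans (abs_add_le _ _) ?_
      rw [abs_mul, abs_two]
      linarith
    calc |c - C| * |c + C| ≤ t * (t + 2) := by gcongr
      _ ≤ 3 * t := by nlinarith
  have hSpos : 0 < S ^ 2 := lt_of_lt_of_le (by positivity) hS
  have hS0 : S ≠ 0 := by
    intro h; rw [h] at hSpos; simp at hSpos
  have h3t : 3 * t ≤ ρ * S ^ 2 := by
    rw [htρ]; gcongr
  set r2 := (1 - c ^ 2) / S ^ 2 with hr2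
  have hr2a : 1 - ρ ≤ r2 := by
    rw [hr2, le_div_iff₀ hSpos]
    have := (abs_le.mp hsq).2
    nlinarith
  have hr2b : r2 ≤ 1 + ρ := by
    rw [hr2, div_le_iff₀ hSpos]
    have := (abs_le.mp hsq).1
    nlinarith
  set r := Real.sqrt r2 with hr
  have hr2pos : 0 < r2 := by linarith
  have hrpos : 0 < r := Real.sqrt_pos.mpr hr2pos
  have hrsq : r ^ 2 = r2 := Real.sq_sqrt hr2pos.le
  have hnum1 : (1 - ρ) ^ 2 ≤ 1 - ρ := by
    have : 0 ≤ ρ * (1 - ρ) := mul_nonneg hρ0 (by linarith)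
    linarith
  have hnum2 : 1 + ρ ≤ (1 + ρ) ^ 2 := by
    have : 0 ≤ ρ * (1 + ρ) := mul_nonneg hρ0 (by linarith)
    linarith
  have hra : 1 - ρ ≤ r := by
    apply Real.le_sqrt_of_sq_le
    linarith
  have hrb : r ≤ 1 + ρ := by
    rw [hr]
    apply Real.sqrt_le_iff.mpr
    constructor
    · linarith
    · linarith
  refine ⟨S * r, mul_ne_zero hS0 hrpos.ne', ?_, ?_⟩
  · rw [mul_pow, hrsq, hr2]
    field_simp
    ring
  · intro v
    -- wedge / S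
    have hwS : |wedge v (T *ᵥ v) / S - qf R σ v| ≤ ρ * qf R σ v := by
      have e : wedge v (T *ᵥ v) / S - qf R σ v = (wedge v (T *ᵥ v) - S * qf R σ v) / S := by
        field_simp
      rw [e, abs_div, div_le_iff₀ (abs_pos.mpr hS0)]
      refine le_trans (hw v) ?_
      have hκS : κ ≤ |S| := by
        apply abs_le_of_sq_le_sq' _ (abs_nonneg S) |>.2
        rw [sq_abs]; exact hS
      have h7 : 2 * t ≤ ρ * |S| := by
        have h71 : κ ^ 2 ≤ κ := by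
          calc κ ^ 2 = κ * κ := by ring
            _ ≤ κ * 1 := by gcongr
            _ = κ := mul_one κ
        have h72 : κ ^ 2 ≤ |S| := le_trans h71 hκS
        calc 2 * t ≤ 3 * t := by linarith
          _ = ρ * κ ^ 2 := htρ
          _ ≤ ρ * |S| := by gcongr
      calc 2 * t * qf R σ v ≤ (ρ * |S|) * qf R σ v := by
            apply mul_le_mul_of_nonneg_right h7 (hqpos v)
        _ = ρ * qf R σ v * |S| := by ring
    have e : qf T (S * r) v = (wedge v (T *ᵥ v) / S) / r := by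
      unfold qf; rw [div_div]
    rw [e]
    have hw1 := (abs_le.mp hwS).1
    have hw2 := (abs_le.mp hwS).2
    have hqv := hqpos v
    constructor
    · rw [le_div_iff₀ hrpos]
      have h8 : (1 - 2 * ρ) * qf R σ v * r ≤ (1 - 2 * ρ) * qf R σ v * (1 + ρ) := by
        apply mul_le_mul_of_nonneg_left hrb
        apply mul_nonneg _ hqv
        linarith
      have h9 : (1 - 2 * ρ) * (1 + ρ) ≤ 1 - ρ := by
        have : 0 ≤ ρ * ρ := mul_nonneg hρ0 hρ0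
        linarith
      have h10 := mul_le_mul_of_nonneg_right h9 hqv
      linarith
    · rw [div_le_iff₀ hrpos]
      have h8 : (1 + 3 * ρ) * qf R σ v * (1 - ρ) ≤ (1 + 3 * ρ) * qf R σ v * r := by
        apply mul_le_mul_of_nonneg_left hra
        apply mul_nonneg _ hqv
        linarith
      have h9 : 1 + ρ ≤ (1 + 3 * ρ) * (1 - ρ) := by
        have : 0 ≤ ρ * (1 - 3 * ρ) := mul_nonneg hρ0 (by linarith)
        linarith
      have h10 := mul_le_mul_of_nonneg_right h9 hqv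
      linarith

/-- comparison of `q(G x)` and `q(x)` for `G` close to `R`. -/
theorem qf_near (R G : M2) (hR : R.det = 1) (σ b : ℝ) (hb : 1 ≤ b)
    (hq1 : ∀ v : V2, ‖v‖ ^ 2 ≤ b * qf R σ v) (hq2 : ∀ v : V2, qf R σ v ≤ b * ‖v‖ ^ 2)
    (η : ℝ) (hη : 0 < η) (hδ : ∀ v : V2, ‖G *ᵥ v - R *ᵥ v‖ ≤ η * ‖v‖) (ht : b * η ≤ 1 / 4)
    (x : V2) :
    qf R σ (G *ᵥ x) ≤ (1 + 3 * (b * η)) * qf R σ x ∧
      qf R σ x ≤ (1 + 4 * (b * η)) * qf R σ (G *ᵥ x) := by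
  have hb0 : 0 < b := by linarith
  set t := b * η with htdef
  have ht0 : 0 < t := by positivity
  have hqpos : ∀ v, 0 ≤ qf R σ v := by
    intro v
    have := hq1 v
    have h2 : 0 ≤ ‖v‖ ^ 2 := by positivity
    by_contra hc
    push Not at hc
    nlinarith
  have hy : qf R σ (G *ᵥ x - R *ᵥ x) ≤ t ^ 2 * qf R σ x := by
    have h1 := hq2 (G *ᵥ x - R *ᵥ x)
    have h2 : ‖G *ᵥ x - R *ᵥ x‖ ^ 2 ≤ (η * ‖x‖) ^ 2 :=
      pow_le_pow_left₀ (norm_nonneg _) (hδ x) 2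
    have h3 := hq1 x
    calc qf R σ (G *ᵥ x - R *ᵥ x) ≤ b * ‖G *ᵥ x - R *ᵥ x‖ ^ 2 := h1
      _ ≤ b * (η * ‖x‖) ^ 2 := by gcongr
      _ = b * η ^ 2 * ‖x‖ ^ 2 := by ring
      _ ≤ b * η ^ 2 * (b * qf R σ x) := by gcongr
      _ = t ^ 2 * qf R σ x := by rw [htdef]; ring
  have hy' : qf R σ (R *ᵥ x - G *ᵥ x) ≤ t ^ 2 * qf R σ x := by
    have : qf R σ (R *ᵥ x - G *ᵥ x) = qf R σ (G *ᵥ x - R *ᵥ x) := by
      unfold qf
      congr 1
      simp only [wedge, Matrix.mulVec, dotProduct, Fin.sum_univ_two, Pi.sub_apply]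
      ring
    rw [this]; exact hy
  have hx := hqpos x
  have hg := hqpos (G *ᵥ x)
  have e0 : (1 + 1 / t) * t ^ 2 = t ^ 2 + t := by field_simp
  constructor
  · have h1 := qf_add R σ (R *ᵥ x) (G *ᵥ x - R *ᵥ x) t ht0 hqpos
    rw [add_sub_cancel, qf_inv R hR] at h1
    have h2 : (1 + 1 / t) * qf R σ (G *ᵥ x - R *ᵥ x) ≤ (1 + 1 / t) * (t ^ 2 * qf R σ x) := by
      gcongr
    rw [← mul_assoc, e0] at h2
    have h3 : (1 + t + (t ^ 2 + t)) * qf R σ x ≤ (1 + 3 * t) * qf R σ x := by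
      apply mul_le_mul_of_nonneg_right _ hx
      nlinarith
    linarith
  · have h1 := qf_add R σ (G *ᵥ x) (R *ᵥ x - G *ᵥ x) t ht0 hqpos
    rw [add_sub_cancel, qf_inv R hR] at h1
    have h2 : (1 + 1 / t) * qf R σ (R *ᵥ x - G *ᵥ x) ≤ (1 + 1 / t) * (t ^ 2 * qf R σ x) := by
      gcongr
    rw [← mul_assoc, e0] at h2
    -- (1 - t - t^2) q(x) ≤ (1+t) q(Gx)
    have h3 : (1 - t - t ^ 2) * qf R σ x ≤ (1 + t) * qf R σ (G *ᵥ x) := by nlinarith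
    have h4 : 1 + t ≤ (1 + 4 * t) * (1 - t - t ^ 2) := by nlinarith
    have h5 : 0 < 1 - t - t ^ 2 := by nlinarith
    have h6 : (1 - t - t ^ 2) * qf R σ x ≤ (1 - t - t ^ 2) * ((1 + 4 * t) * qf R σ (G *ᵥ x)) := by
      calc (1 - t - t ^ 2) * qf R σ x ≤ (1 + t) * qf R σ (G *ᵥ x) := h3
        _ ≤ ((1 + 4 * t) * (1 - t - t ^ 2)) * qf R σ (G *ᵥ x) := by gcongr
        _ = _ := by ring
    exact le_of_mul_le_mul_left h6 h5

/-- comparison of norms squares of nearby vectors -/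
theorem norm_near (b η q : ℝ) (hb : 1 ≤ b) (hη : 0 < η) (ht : b * η ≤ 1 / 4) (x y z : V2)
    (hq : 0 ≤ q) (hx : ‖x‖ ^ 2 ≤ b * q) (hd : ‖y - z‖ ≤ η * ‖x‖)
    (h1 : ‖z‖ ^ 2 ≤ b * q) (h2 : q ≤ b * ‖z‖ ^ 2) :
    ‖y‖ ^ 2 ≤ b * (1 + 3 * (b * η)) * q ∧ q ≤ b * (1 + 4 * (b * η)) * ‖y‖ ^ 2 := by
  have hb0 : 0 < b := by linarith
  set t := b * η with htdef
  have ht0 : 0 < t := by positivity
  have hd2 : ‖y - z‖ ^ 2 ≤ t ^ 2 / b * q := by
    calc ‖y - z‖ ^ 2 ≤ (η * ‖x‖) ^ 2 := pow_le_pow_left₀ (norm_nonneg _) hd 2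
      _ = η ^ 2 * ‖x‖ ^ 2 := by ring
      _ ≤ η ^ 2 * (b * q) := by gcongr
      _ = t ^ 2 / b * q := by rw [htdef]; field_simp
  have hamgm : ∀ a c d : ℝ, 0 ≤ a → 0 ≤ c → 0 ≤ d → a ≤ c + d →
      a ^ 2 ≤ (1 + t) * c ^ 2 + (1 + 1 / t) * d ^ 2 := by
    intro a c d ha hc hd' hle
    have h5 : a ^ 2 ≤ (c + d) ^ 2 := pow_le_pow_left₀ ha hle 2
    have h6 : 2 * (c * d) ≤ t * c ^ 2 + 1 / t * d ^ 2 := by
      have : t * c ^ 2 + 1 / t * d ^ 2 - 2 * (c * d) = (t * c - d) ^ 2 / t := by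
        field_simp
        ring
      have h7 : 0 ≤ (t * c - d) ^ 2 / t := by positivity
      linarith
    nlinarith
  have e0 : (1 + 1 / t) * t ^ 2 = t ^ 2 + t := by field_simp
  have hbq : q / b ≤ q := by
    rw [div_le_iff₀ hb0]; nlinarith
  have hterm : (1 + 1 / t) * ‖y - z‖ ^ 2 ≤ (t ^ 2 + t) * (q / b) := by
    calc (1 + 1 / t) * ‖y - z‖ ^ 2 ≤ (1 + 1 / t) * (t ^ 2 / b * q) := by gcongr
      _ = ((1 + 1 / t) * t ^ 2) * (q / b) := by ring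
      _ = _ := by rw [e0]
  constructor
  · have h3 := hamgm ‖y‖ ‖z‖ ‖y - z‖ (norm_nonneg _) (norm_nonneg _) (norm_nonneg _) (by
      have : y = z + (y - z) := by abel
      calc ‖y‖ = ‖z + (y - z)‖ := by rw [← this]
        _ ≤ ‖z‖ + ‖y - z‖ := norm_add_le _ _)
    have h4 : q / b ≤ b * q := by
      have : q ≤ b * q := by nlinarith
      linarith
    have h5 : (t ^ 2 + t) * (q / b) ≤ (t ^ 2 + t) * (b * q) := by gcongr
    have h6 : (1 + t) * ‖z‖ ^ 2 ≤ (1 + t) * (b * q) := by gcongr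
    have h7 : (1 + t) * (b * q) + (t ^ 2 + t) * (b * q) ≤ b * (1 + 3 * t) * q := by
      have hbq0 : 0 ≤ b * q := by positivity
      have : (1 + t + (t ^ 2 + t)) * (b * q) ≤ (1 + 3 * t) * (b * q) := by
        apply mul_le_mul_of_nonneg_right _ hbq0
        nlinarith
      linarith
    linarith
  · have h3 := hamgm ‖z‖ ‖y‖ ‖y - z‖ (norm_nonneg _) (norm_nonneg _) (norm_nonneg _) (by
      have : z = y - (y - z) := by abel
      calc ‖z‖ = ‖y - (y - z)‖ := by rw [← this]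
        _ ≤ ‖y‖ + ‖y - z‖ := norm_sub_le _ _)
    -- q ≤ b ‖z‖² ≤ b(1+t)‖y‖² + (t²+t) q
    have h4 : b * ((t ^ 2 + t) * (q / b)) = (t ^ 2 + t) * q := by field_simp
    have h5 : b * ‖z‖ ^ 2 ≤ b * ((1 + t) * ‖y‖ ^ 2 + (t ^ 2 + t) * (q / b)) := by
      gcongr
      linarith
    have h6 : (1 - t - t ^ 2) * q ≤ b * (1 + t) * ‖y‖ ^ 2 := by nlinarith
    have h7 : 1 + t ≤ (1 + 4 * t) * (1 - t - t ^ 2) := by nlinarith
    have h8 : 0 < 1 - t - t ^ 2 := by nlinarith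
    have h9 : (1 - t - t ^ 2) * q ≤ (1 - t - t ^ 2) * (b * (1 + 4 * t) * ‖y‖ ^ 2) := by
      calc (1 - t - t ^ 2) * q ≤ b * (1 + t) * ‖y‖ ^ 2 := h6
        _ ≤ b * ((1 + 4 * t) * (1 - t - t ^ 2)) * ‖y‖ ^ 2 := by gcongr
        _ = _ := by ring
    exact le_of_mul_le_mul_left h9 h8

end Pool.Agent.LP
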