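import Mathlib
import Pool.Agent.Lib_helper90.Bulk
import Pool.Agent.Lib_helper90.Blocks

set_option autoImplicit false
open Matrix

namespace Pool.Agent.LP

/-- Bounded elliptic dynamics over the block `[-M, M]` at energy `E` (potential `-W`). -/
def Good (W : ℤ → ℝ) (M : ℕ) (E b : ℝ) : Prop :=
  ∃ φ : ℝ, Real.sin φ ≠ 0 ∧ (TZ W E (-M) (2 * M + 1)).trace = 2 * Real.cos φ ∧
    ∀ i : ℕ, i ≤ 2 * M + 1 → ∀ v : V2,
      ‖TZ W E (-M) i *ᵥ v‖ ^ 2 ≤ b * qf (TZ W E (-M) (2 * M + 1)) (Real.sin φ) v ∧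
      qf (TZ W E (-M) (2 * M + 1)) (Real.sin φ) v ≤ b * ‖TZ W E (-M) i *ᵥ v‖ ^ 2

theorem Good.mono {W : ℤ → ℝ} {M : ℕ} {E b b' : ℝ} (h : Good W M E b) (hb : 0 ≤ b)
    (hbb : b ≤ b') : Good W M E b' := by
  obtain ⟨φ, h1, h2, h3⟩ := h
  refine ⟨φ, h1, h2, fun i hi v => ?_⟩
  obtain ⟨h4, h5⟩ := h3 i hi v
  have hq : 0 ≤ qf (TZ W E (-M) (2 * M + 1)) (Real.sin φ) v ∨ b = 0 := by
    rcases eq_or_lt_of_le hb with h | h
    · right; exact h.symm
    · left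
      have : 0 ≤ ‖TZ W E (-M) i *ᵥ v‖ ^ 2 := by positivity
      by_contra hc
      push Not at hc
      nlinarith
  constructor
  · rcases hq with hq | hq
    · exact le_trans h4 (mul_le_mul_of_nonneg_right hbb hq)
    · rw [hq, zero_mul] at h4
      rw [hq, zero_mul] at h5
      -- then the quantity is zero
      have h6 : ‖TZ W E (-M) i *ᵥ v‖ ^ 2 = 0 := le_antisymm h4 (by positivity)
      have h7 : TZ W E (-M) i *ᵥ v = 0 := by
        rw [← norm_eq_zero]; exact pow_eq_zero_iff two_ne_zero |>.mp h6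
      have hv : v = 0 := by
        have hdet := det_TZ W E (-M) i
        have h8 : (TZ W E (-M) i)⁻¹ *ᵥ (TZ W E (-M) i *ᵥ v) = v := by
          rw [Matrix.mulVec_mulVec, Matrix.nonsing_inv_mul _ (by rw [hdet]; exact isUnit_one),
            Matrix.one_mulVec]
        rw [h7, Matrix.mulVec_zero] at h8
        exact h8.symm
      rw [hv]
      simp [qf, wedge]
  · exact le_trans h5 (mul_le_mul_of_nonneg_right hbb (by positivity))

theorem Good.infix_bound {W : ℤ → ℝ} {M : ℕ} {E b : ℝ} (h : Good W M E b) (hb : 0 ≤ b)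
    {i j : ℕ} (hij : i ≤ j) (hj : j ≤ 2 * M + 1) (x : V2) :
    ‖TZ W E (-M + i) (j - i) *ᵥ x‖ ≤ b * ‖x‖ := by
  obtain ⟨φ, _, _, h3⟩ := h
  obtain ⟨v, hv⟩ := exists_preimage (TZ W E (-M) i) (det_TZ _ _ _ _) x
  have e : TZ W E (-M + i) (j - i) *ᵥ x = TZ W E (-M) j *ᵥ v := by
    rw [← hv, Matrix.mulVec_mulVec, ← TZ_add]
    congr 2
    omega
  have h4 := (h3 j hj v).1
  have h5 := (h3 i (le_trans hij hj) v).2
  rw [hv] at h5
  rw [e]
  have h6 : ‖TZ W E (-M) j *ᵥ v‖ ^ 2 ≤ (b * ‖x‖) ^ 2 := by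
    calc ‖TZ W E (-M) j *ᵥ v‖ ^ 2 ≤ b * qf (TZ W E (-M) (2 * M + 1)) (Real.sin φ) v := h4
      _ ≤ b * (b * ‖x‖ ^ 2) := by gcongr
      _ = (b * ‖x‖) ^ 2 := by ring
  exact abs_le_of_sq_le_sq' h6 (by positivity) |>.2

/-- backwards version -/
theorem Good.infix_bound' {W : ℤ → ℝ} {M : ℕ} {E b : ℝ} (h : Good W M E b) (hb : 0 ≤ b)
    {i j : ℕ} (hi : i ≤ 2 * M + 1) (hj : j ≤ 2 * M + 1) (v : V2) :
    ‖TZ W E (-M) j *ᵥ v‖ ≤ b * ‖TZ W E (-M) i *ᵥ v‖ := by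
  obtain ⟨φ, _, _, h3⟩ := h
  have h4 := (h3 j hj v).1
  have h5 := (h3 i hi v).2
  have h6 : ‖TZ W E (-M) j *ᵥ v‖ ^ 2 ≤ (b * ‖TZ W E (-M) i *ᵥ v‖) ^ 2 := by
    calc ‖TZ W E (-M) j *ᵥ v‖ ^ 2 ≤ b * qf (TZ W E (-M) (2 * M + 1)) (Real.sin φ) v := h4
      _ ≤ b * (b * ‖TZ W E (-M) i *ᵥ v‖ ^ 2) := by gcongr
      _ = (b * ‖TZ W E (-M) i *ᵥ v‖) ^ 2 := by ring
  exact abs_le_of_sq_le_sq' h6 (by positivity) |>.2

theorem TZ_peel (W : ℤ → ℝ) (E : ℝ) (m : ℤ) (n : ℕ) :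
    TZ W E m (n + 1) = TZ W E (m + 1) n * stepM (E + W m) := by
  have h := TZ_add W E m 1 n
  rw [show 1 + n = n + 1 by ring] at h
  rw [h]
  congr 1
  show stepM (E + W (m + ((0 : ℕ) : ℤ))) * 1 = _
  simp

theorem step_diff (e e' : ℝ) (x : V2) :
    ‖stepM e *ᵥ x - stepM e' *ᵥ x‖ ≤ |e - e'| * ‖x‖ := by
  rw [pi_norm_le_iff_of_nonneg (by positivity)]
  intro i
  fin_cases i
  · simp only [stepM, Matrix.mulVec, dotProduct, Fin.sum_univ_two, Pi.sub_apply, Matrix.of_apply,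
      Matrix.cons_val', Matrix.cons_val_zero, Matrix.cons_val_one, Fin.zero_eta]
    rw [show e * x 0 + -1 * x 1 - (e' * x 0 + -1 * x 1) = (e - e') * x 0 by ring, Real.norm_eq_abs,
      abs_mul]
    gcongr
    exact norm_le_pi_norm x 0
  · simp only [stepM, Matrix.mulVec, dotProduct, Fin.sum_univ_two, Pi.sub_apply, Matrix.of_apply,
      Matrix.cons_val', Matrix.cons_val_zero, Matrix.cons_val_one, Fin.mk_one]
    rw [show 1 * x 0 + 0 * x 1 - (1 * x 0 + 0 * x 1) = 0 by ring, norm_zero]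
    positivity

theorem Good.diff_bound {W : ℤ → ℝ} {M : ℕ} {E E' b : ℝ} (h : Good W M E b) (h' : Good W M E' b)
    (hb : 0 ≤ b) {i : ℕ} (hi : i ≤ 2 * M + 1) (v : V2) :
    ‖TZ W E (-M) i *ᵥ v - TZ W E' (-M) i *ᵥ v‖ ≤ ((2 * M + 1) * b ^ 2 * |E - E'|) * ‖v‖ := by
  let y : ℕ → V2 := fun j => TZ W E (-M + j) (i - j) *ᵥ (TZ W E' (-M) j *ᵥ v)
  have hy0 : y 0 = TZ W E (-M) i *ᵥ v := by
    simp only [y, Nat.sub_zero, Nat.cast_zero, add_zero, TZ_zero, Matrix.one_mulVec]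
  have hyi : y i = TZ W E' (-M) i *ᵥ v := by
    simp only [y, Nat.sub_self, TZ_zero, Matrix.one_mulVec]
  have hstep : ∀ {j}, j < i → dist (y j) (y (j + 1)) ≤ b * (|E - E'| * (b * ‖v‖)) := by
    intro j hj
    rw [dist_eq_norm]
    have e1 : TZ W E (-M + j) (i - j)
        = TZ W E (-M + ((j + 1 : ℕ) : ℤ)) (i - (j + 1)) * stepM (E + W (-M + j)) := by
      have h1 : i - j = (i - (j + 1)) + 1 := by omega
      rw [h1, TZ_peel]
      congr 2
      push_cast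
      ring
    have e2 : y j - y (j + 1) = TZ W E (-M + ((j + 1 : ℕ) : ℤ)) (i - (j + 1)) *ᵥ
        (stepM (E + W (-M + j)) *ᵥ (TZ W E' (-M) j *ᵥ v)
          - stepM (E' + W (-M + j)) *ᵥ (TZ W E' (-M) j *ᵥ v)) := by
      simp only [y]
      rw [e1, TZ_succ, Matrix.mulVec_sub]
      simp only [Matrix.mulVec_mulVec, Matrix.mul_assoc]
    rw [e2]
    refine le_trans (h.infix_bound hb (i := j + 1) (j := i) (by omega) hi _) ?_
    apply mul_le_mul_of_nonneg_left _ hb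
    refine le_trans (step_diff _ _ _) ?_
    rw [show E + W (-M + j) - (E' + W (-M + j)) = E - E' by ring]
    apply mul_le_mul_of_nonneg_left _ (abs_nonneg _)
    have := h'.infix_bound' hb (i := 0) (j := j) (by omega) (by omega) v
    rwa [TZ_zero, Matrix.one_mulVec] at this
  have hsum := dist_le_range_sum_of_dist_le (f := y) i hstep
  rw [hy0, hyi, dist_eq_norm, Finset.sum_const, Finset.card_range, nsmul_eq_mul] at hsum
  refine le_trans hsum ?_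
  have h1 : (i : ℝ) ≤ 2 * M + 1 := by exact_mod_cast hi
  calc (i : ℝ) * (b * (|E - E'| * (b * ‖v‖))) ≤ (2 * M + 1) * (b * (|E - E'| * (b * ‖v‖))) := by
        gcongr
    _ = _ := by ring

/-- the blocks of the next potential. -/
theorem TZ_block (W W' : ℤ → ℝ) (M l : ℕ) (s E : ℝ)
    (hWper : ∀ n t : ℤ, W (n + (2 * M + 1) * t) = W n)
    (hW' : ∀ n, W' n = W n + Dk M l s n) (j : ℕ) (hj : j ≤ 2 * l) (r : ℕ) (hr : r ≤ 2 * M + 1) :
    TZ W' E (-((l * (2 * M + 1) + M : ℕ) : ℤ) + ((j * (2 * M + 1) : ℕ) : ℤ)) r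
      = TZ W (if j = l then E else E + s) (-M) r := by
  apply TZ_congr
  intro i hi
  set n : ℤ := -((l * (2 * M + 1) + M : ℕ) : ℤ) + ((j * (2 * M + 1) : ℕ) : ℤ) + i with hn
  have en : n = (-(M : ℤ) + i) + (2 * M + 1) * ((j : ℤ) - l) := by
    rw [hn]; push_cast; ring
  have e1 : W n = W (-M + i) := by rw [en, hWper]
  have e2 : blk M n = (j : ℤ) - l := by
    rw [en, blk_add_mul]
    have : blk M (-(M : ℤ) + i) = 0 := by
      rw [blk_zero_iff, abs_le]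
      constructor
      · have : (0 : ℤ) ≤ i := by positivity
        linarith
      · have : (i : ℤ) < 2 * M + 1 := by exact_mod_cast (lt_of_lt_of_le hi hr)
        linarith
    rw [this, zero_add]
  rw [hW', e1]
  unfold Dk
  simp only [e2]
  by_cases hjl : j = l
  · simp only [hjl, sub_self, dvd_zero, if_true]
    ring
  · have hnd : ¬ ((2 * (l : ℤ) + 1) ∣ ((j : ℤ) - l)) := by
      intro hdvd
      have h0 : ((j : ℤ) - l) ≠ 0 := by
        intro h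
        apply hjl
        have : (j : ℤ) = l := by linarith
        exact_mod_cast this
      have h1 := Int.le_of_dvd (abs_pos.mpr h0) ((dvd_abs _ _).mpr hdvd)
      have h2 : |(j : ℤ) - l| ≤ l := by
        rw [abs_le]
        constructor
        · have : (0 : ℤ) ≤ j := by positivity
          linarith
        · have : (j : ℤ) ≤ 2 * l := by exact_mod_cast hj
          linarith
      linarith
    simp only [hjl, hnd, if_false]
    ring

theorem TZ_pref (W W' : ℤ → ℝ) (M l : ℕ) (s E : ℝ)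
    (hWper : ∀ n t : ℤ, W (n + (2 * M + 1) * t) = W n)
    (hW' : ∀ n, W' n = W n + Dk M l s n) (j : ℕ) (hj : j ≤ l) :
    TZ W' E (-((l * (2 * M + 1) + M : ℕ) : ℤ)) (j * (2 * M + 1))
      = (TZ W (E + s) (-M) (2 * M + 1)) ^ j := by
  induction j with
  | zero => simp [TZ_zero]
  | succ j ih =>
    rw [show (j + 1) * (2 * M + 1) = j * (2 * M + 1) + (2 * M + 1) by ring, TZ_add,
      ih (by omega), TZ_block W W' M l s E hWper hW' j (by omega) _ le_rfl,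
      if_neg (by omega), pow_succ']

theorem TZ_pref' (W W' : ℤ → ℝ) (M l : ℕ) (s E : ℝ)
    (hWper : ∀ n t : ℤ, W (n + (2 * M + 1) * t) = W n)
    (hW' : ∀ n, W' n = W n + Dk M l s n) (j : ℕ) (hj : j ≤ l) :
    TZ W' E (-((l * (2 * M + 1) + M : ℕ) : ℤ)) ((l + 1 + j) * (2 * M + 1))
      = (TZ W (E + s) (-M) (2 * M + 1)) ^ j * (TZ W E (-M) (2 * M + 1))
        * (TZ W (E + s) (-M) (2 * M + 1)) ^ l := by
  induction j with
  | zero =>
    rw [add_zero, show (l + 1) * (2 * M + 1) = l * (2 * M + 1) + (2 * M + 1) by ring, TZ_add,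
      TZ_pref W W' M l s E hWper hW' l le_rfl,
      TZ_block W W' M l s E hWper hW' l (by omega) _ le_rfl, if_pos rfl, pow_zero, one_mul]
  | succ j ih =>
    rw [show (l + 1 + (j + 1)) * (2 * M + 1) = (l + 1 + j) * (2 * M + 1) + (2 * M + 1) by ring,
      TZ_add, ih (by omega), TZ_block W W' M l s E hWper hW' (l + 1 + j) (by omega) _ le_rfl,
      if_neg (by omega), pow_succ']
    simp only [Matrix.mul_assoc]

theorem exists_angle (σ c : ℝ) (h : σ ^ 2 + c ^ 2 = 1) : ∃ φ : ℝ, Real.sin φ = σ ∧ Real.cos φ = c := by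
  have hc1 : -1 ≤ c := by nlinarith
  have hc2 : c ≤ 1 := by nlinarith
  have hs : Real.sin (Real.arccos c) = |σ| := by
    rw [Real.sin_arccos, ← h]
    rw [show σ ^ 2 + c ^ 2 - c ^ 2 = σ ^ 2 by ring, Real.sqrt_sq_eq_abs]
  rcases le_total 0 σ with hσ | hσ
  · exact ⟨Real.arccos c, by rw [hs, abs_of_nonneg hσ], Real.cos_arccos hc1 hc2⟩
  · refine ⟨-Real.arccos c, ?_, ?_⟩
    · rw [Real.sin_neg, hs, abs_of_nonpos hσ, neg_neg]
    · rw [Real.cos_neg, Real.cos_arccos hc1 hc2]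

/-- The inductive step for the good energies. -/
theorem Good.step {W W' : ℤ → ℝ} {M l : ℕ} {s E b κ ρ : ℝ}
    (hWper : ∀ n t : ℤ, W (n + (2 * M + 1) * t) = W n)
    (hW' : ∀ n, W' n = W n + Dk M l s n) (hb : 1 ≤ b) (hs : 0 < s)
    (h1 : Good W M E b) (h2 : Good W M (E + s) b) (hκ0 : 0 < κ) (hκ1 : κ ≤ 1)
    (hS : (((TZ W (E + s) (-M) (2 * M + 1)) ^ (2 * l + 1)).trace / 2) ^ 2 ≤ 1 - κ ^ 2)
    (hρ : ρ = 3 * (b * ((2 * M + 1) * b ^ 2 * s)) / κ ^ 2) (hρ8 : ρ ≤ 1 / 8) :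
    Good W' (l * (2 * M + 1) + M) E (b * (1 + 5 * ρ)) := by
  have hb0 : 0 < b := by linarith
  obtain ⟨φ, hsin, htr, h3⟩ := h2
  set R := TZ W (E + s) (-M) (2 * M + 1) with hRdef
  set G := TZ W E (-M) (2 * M + 1) with hGdef
  have hR : R.det = 1 := det_TZ _ _ _ _
  set η := (2 * M + 1) * b ^ 2 * s with hη
  have hη0 : 0 < η := by positivity
  set t := b * η with ht
  have ht0 : 0 < t := by positivity
  have hρ0 : 0 < ρ := by rw [hρ]; positivity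
  have hκ2 : κ ^ 2 ≤ 1 := pow_le_one₀ hκ0.le hκ1
  have h3t : 3 * t ≤ ρ := by
    rw [hρ, le_div_iff₀ (by positivity)]
    have : 3 * t * κ ^ 2 ≤ 3 * t * 1 := by gcongr
    linarith
  have ht4 : t ≤ 1 / 4 := by linarith
  have hq1 : ∀ v : V2, ‖v‖ ^ 2 ≤ b * qf R (Real.sin φ) v := by
    intro v
    have := (h3 0 (by omega) v).1
    rwa [TZ_zero, Matrix.one_mulVec] at this
  have hq2 : ∀ v : V2, qf R (Real.sin φ) v ≤ b * ‖v‖ ^ 2 := by
    intro v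
    have := (h3 0 (by omega) v).2
    rwa [TZ_zero, Matrix.one_mulVec] at this
  have hqpos : ∀ v, 0 ≤ qf R (Real.sin φ) v := by
    intro v
    have := hq1 v
    have h2 : 0 ≤ ‖v‖ ^ 2 := by positivity
    by_contra hc
    push Not at hc
    nlinarith
  have h2' : Good W M (E + s) b := ⟨φ, hsin, htr, h3⟩
  have hδi : ∀ i : ℕ, i ≤ 2 * M + 1 → ∀ v : V2,
      ‖TZ W E (-M) i *ᵥ v - TZ W (E + s) (-M) i *ᵥ v‖ ≤ η * ‖v‖ := by
    intro i hi v
    have := h1.diff_bound h2' hb0.le hi v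
    rwa [show E - (E + s) = -s by ring, abs_neg, abs_of_pos hs] at this
  have hδ : ∀ v : V2, ‖G *ᵥ v - R *ᵥ v‖ ≤ η * ‖v‖ := hδi _ le_rfl
  have hSsin : κ ^ 2 ≤ Real.sin (((2 * l + 1 : ℕ) : ℝ) * φ) ^ 2 := by
    rw [trace_pow R hR φ htr hsin] at hS
    have := Real.sin_sq_add_cos_sq (((2 * l + 1 : ℕ) : ℝ) * φ)
    have e : (2 * Real.cos (((2 * l + 1 : ℕ) : ℝ) * φ) / 2) = Real.cos (((2 * l + 1 : ℕ) : ℝ) * φ) := by
      ring
    rw [e] at hS
    linarith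
  obtain ⟨σ', hσ', hσc, hcmp⟩ := core R G hR φ hsin htr b hb hq1 hq2 η hη0.le hδ l κ hκ0 hκ1 hSsin
    ρ hρ hρ8
  obtain ⟨φ', hφ's, hφ'c⟩ := exists_angle σ' _ hσc
  have hfull : TZ W' E (-((l * (2 * M + 1) + M : ℕ) : ℤ)) (2 * (l * (2 * M + 1) + M) + 1)
      = R ^ l * G * R ^ l := by
    have := TZ_pref' W W' M l s E hWper hW' l le_rfl
    rw [show (l + 1 + l) * (2 * M + 1) = 2 * (l * (2 * M + 1) + M) + 1 by ring] at this
    exact this
  refine ⟨φ', by rw [hφ's]; exact hσ', ?_, ?_⟩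
  · rw [hfull, hφ'c]; ring
  intro i hi v
  rw [hfull, hφ's]
  -- decomposition of i
  obtain ⟨j, r, hj, hr, hir⟩ : ∃ j r : ℕ, j ≤ 2 * l ∧ r ≤ 2 * M + 1 ∧ i = j * (2 * M + 1) + r := by
    by_cases hlt : i < (2 * l + 1) * (2 * M + 1)
    · refine ⟨i / (2 * M + 1), i % (2 * M + 1), ?_, (Nat.mod_lt _ (by omega)).le, ?_⟩
      · have := (Nat.div_lt_iff_lt_mul (show 0 < 2 * M + 1 by omega)).mpr hlt
        omega
      · exact (Nat.div_add_mod' i (2 * M + 1)).symm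
    · refine ⟨2 * l, 2 * M + 1, le_rfl, le_rfl, ?_⟩
      have e1 : 2 * (l * (2 * M + 1) + M) + 1 = (2 * l + 1) * (2 * M + 1) := by ring
      have e2 : i = (2 * l + 1) * (2 * M + 1) := by omega
      rw [e2]; ring
  have hTi : TZ W' E (-((l * (2 * M + 1) + M : ℕ) : ℤ)) i
      = TZ W (if j = l then E else E + s) (-M) r
        * TZ W' E (-((l * (2 * M + 1) + M : ℕ) : ℤ)) (j * (2 * M + 1)) := by
    rw [hir, TZ_add, TZ_block W W' M l s E hWper hW' j hj r hr]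
  -- two sided bounds in terms of the form of `R`
  have hmain : ‖TZ W' E (-((l * (2 * M + 1) + M : ℕ) : ℤ)) i *ᵥ v‖ ^ 2
        ≤ b * (1 + 3 * t) * qf R (Real.sin φ) v ∧
      qf R (Real.sin φ) v
        ≤ b * (1 + 4 * t) * ‖TZ W' E (-((l * (2 * M + 1) + M : ℕ) : ℤ)) i *ᵥ v‖ ^ 2 := by
    rw [hTi, ← Matrix.mulVec_mulVec]
    rcases lt_trichotomy j l with hjl | hjl | hjl
    · -- j < l
      rw [if_neg hjl.ne, TZ_pref W W' M l s E hWper hW' j hjl.le, ← hRdef]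
      have h5 := h3 r hr (R ^ j *ᵥ v)
      rw [qf_pow R hR] at h5
      constructor
      · refine le_trans h5.1 ?_
        have : 0 ≤ 3 * t * (b * qf R (Real.sin φ) v) :=
          mul_nonneg (by positivity) (mul_nonneg hb0.le (hqpos v))
        linarith
      · refine le_trans h5.2 ?_
        have : 0 ≤ 4 * t * (b * ‖TZ W (E + s) (-↑M) r *ᵥ R ^ j *ᵥ v‖ ^ 2) := by positivity
        linarith
    · -- j = l
      rw [if_pos hjl, hjl, TZ_pref W W' M l s E hWper hW' l le_rfl, ← hRdef]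
      have h5 := h3 r hr (R ^ l *ᵥ v)
      have h6 := hq1 (R ^ l *ᵥ v)
      have h7 := hδi r hr (R ^ l *ᵥ v)
      rw [qf_pow R hR] at h5 h6
      exact norm_near b η (qf R (Real.sin φ) v) hb hη0 ht4 (R ^ l *ᵥ v) _ _ (hqpos v) h6 h7
        h5.1 h5.2
    · -- j > l
      obtain ⟨j', rfl⟩ : ∃ j', j = l + 1 + j' := ⟨j - (l + 1), by omega⟩
      rw [if_neg (by omega), TZ_pref' W W' M l s E hWper hW' j' (by omega), ← hRdef, ← hGdef]
      have e : (R ^ j' * G * R ^ l) *ᵥ v = R ^ j' *ᵥ (G *ᵥ (R ^ l *ᵥ v)) := by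
        simp only [Matrix.mulVec_mulVec, Matrix.mul_assoc]
      rw [e]
      have h5 := h3 r hr (R ^ j' *ᵥ (G *ᵥ (R ^ l *ᵥ v)))
      rw [qf_pow R hR] at h5
      have h6 := qf_near R G hR (Real.sin φ) b hb hq1 hq2 η hη0 hδ ht4 (R ^ l *ᵥ v)
      rw [qf_pow R hR] at h6
      constructor
      · calc _ ≤ b * qf R (Real.sin φ) (G *ᵥ (R ^ l *ᵥ v)) := h5.1
          _ ≤ b * ((1 + 3 * (b * η)) * qf R (Real.sin φ) v) := by gcongr; exact h6.1
          _ = _ := by rw [ht]; ring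
      · calc qf R (Real.sin φ) v ≤ (1 + 4 * (b * η)) * qf R (Real.sin φ) (G *ᵥ (R ^ l *ᵥ v)) := h6.2
          _ ≤ (1 + 4 * (b * η)) * (b * ‖TZ W (E + s) (-↑M) r *ᵥ
                (R ^ j' *ᵥ (G *ᵥ (R ^ l *ᵥ v)))‖ ^ 2) := by gcongr; exact h5.2
          _ = _ := by rw [ht]; ring
  obtain ⟨m1, m2⟩ := hmain
  obtain ⟨c1, c2⟩ := hcmp v
  have hqv := hqpos v
  set Y := ‖TZ W' E (-((l * (2 * M + 1) + M : ℕ) : ℤ)) i *ᵥ v‖ ^ 2 with hY
  have hY0 : 0 ≤ Y := by positivity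
  constructor
  · -- upper
    have a1 : 1 + 3 * t ≤ (1 + 5 * ρ) * (1 - 2 * ρ) := by
      have : 0 ≤ ρ * (1 - 8 * ρ) := mul_nonneg hρ0.le (by linarith)
      nlinarith
    calc Y ≤ b * (1 + 3 * t) * qf R (Real.sin φ) v := m1
      _ ≤ b * ((1 + 5 * ρ) * (1 - 2 * ρ)) * qf R (Real.sin φ) v := by gcongr
      _ = b * (1 + 5 * ρ) * ((1 - 2 * ρ) * qf R (Real.sin φ) v) := by ring
      _ ≤ b * (1 + 5 * ρ) * qf (R ^ l * G * R ^ l) σ' v := by gcongr
  · have a2 : (1 + 3 * ρ) * (1 + 4 * t) ≤ 1 + 5 * ρ := by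
      have h8 : 1 + 4 * t ≤ 1 + 4 / 3 * ρ := by linarith
      have h9 : (1 + 3 * ρ) * (1 + 4 * t) ≤ (1 + 3 * ρ) * (1 + 4 / 3 * ρ) := by gcongr
      have h10 : 0 ≤ ρ * (1 - 8 * ρ) := mul_nonneg hρ0.le (by linarith)
      nlinarith
    calc qf (R ^ l * G * R ^ l) σ' v ≤ (1 + 3 * ρ) * qf R (Real.sin φ) v := c2
      _ ≤ (1 + 3 * ρ) * (b * (1 + 4 * t) * Y) := by gcongr
      _ = b * ((1 + 3 * ρ) * (1 + 4 * t)) * Y := by ring
      _ ≤ b * (1 + 5 * ρ) * Y := by gcongr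

end Pool.Agent.LP
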