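import Mathlib
import Pool.Agent.Lib_helper90.Step
import Pool.Agent.Lib_helper90.Eigen
import Pool.Agent.Lib_helper90.Resolvent

set_option autoImplicit false
set_option maxHeartbeats 2000000
open Matrix

namespace Pool.Agent.LP

theorem Good.pow_bound {W : ℤ → ℝ} {M : ℕ} {E b : ℝ} (h : Good W M E b) (hb : 0 ≤ b)
    (n : ℕ) (v : V2) : ‖(TZ W E (-M) (2 * M + 1)) ^ n *ᵥ v‖ ≤ b * ‖v‖ := by
  obtain ⟨φ, _, _, h3⟩ := h
  have h4 := (h3 0 (by omega) ((TZ W E (-M) (2 * M + 1)) ^ n *ᵥ v)).1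
  have h5 := (h3 0 (by omega) v).2
  rw [TZ_zero, Matrix.one_mulVec] at h4 h5
  rw [qf_pow _ (det_TZ _ _ _ _)] at h4
  have h6 : ‖(TZ W E (-M) (2 * M + 1)) ^ n *ᵥ v‖ ^ 2 ≤ (b * ‖v‖) ^ 2 := by
    calc _ ≤ b * qf (TZ W E (-M) (2 * M + 1)) (Real.sin φ) v := h4
      _ ≤ b * (b * ‖v‖ ^ 2) := by gcongr
      _ = (b * ‖v‖) ^ 2 := by ring
  exact abs_le_of_sq_le_sq' h6 (by positivity) |>.2

theorem Good.trace_pow_diff {W : ℤ → ℝ} {M : ℕ} {E E' b : ℝ} (h : Good W M E b)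
    (h' : Good W M E' b) (hb : 0 ≤ b) (L : ℕ) :
    |((TZ W E (-M) (2 * M + 1)) ^ L).trace - ((TZ W E' (-M) (2 * M + 1)) ^ L).trace|
      ≤ 2 * (L * (b * ((((2 * M + 1) * b ^ 2 * |E - E'|)) * b))) := by
  set R := TZ W E (-M) (2 * M + 1) with hR
  set R' := TZ W E' (-M) (2 * M + 1) with hR'
  set η := (2 * M + 1) * b ^ 2 * |E - E'| with hη
  have hη0 : 0 ≤ η := by positivity
  rw [← Matrix.trace_sub]
  apply abs_trace_le
  intro v
  rw [Matrix.sub_mulVec]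
  let y : ℕ → V2 := fun j => R ^ (L - j) *ᵥ (R' ^ j *ᵥ v)
  have hy0 : y 0 = R ^ L *ᵥ v := by
    simp only [y, Nat.sub_zero, pow_zero, Matrix.one_mulVec]
  have hyL : y L = R' ^ L *ᵥ v := by
    simp only [y, Nat.sub_self, pow_zero, Matrix.one_mulVec]
  have hstep : ∀ {j}, j < L → dist (y j) (y (j + 1)) ≤ b * (η * (b * ‖v‖)) := by
    intro j hj
    rw [dist_eq_norm]
    have e2 : y j - y (j + 1) = R ^ (L - (j + 1)) *ᵥ
        (R *ᵥ (R' ^ j *ᵥ v) - R' *ᵥ (R' ^ j *ᵥ v)) := by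
      simp only [y]
      have h1 : L - j = (L - (j + 1)) + 1 := by omega
      rw [h1, pow_succ, pow_succ', Matrix.mulVec_sub]
      simp only [Matrix.mulVec_mulVec, Matrix.mul_assoc]
    rw [e2]
    refine le_trans (h.pow_bound hb _ _) ?_
    apply mul_le_mul_of_nonneg_left _ hb
    refine le_trans (h.diff_bound h' hb le_rfl _) ?_
    apply mul_le_mul_of_nonneg_left _ hη0
    exact h'.pow_bound hb j v
  have hsum := dist_le_range_sum_of_dist_le (f := y) L hstep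
  rw [hy0, hyL, dist_eq_norm, Finset.sum_const, Finset.card_range, nsmul_eq_mul] at hsum
  refine le_trans hsum (le_of_eq ?_)
  ring

/-- The thresholds. -/
noncomputable def kap (k : ℕ) : ℝ := (1 / 2) ^ (k + 6)

/-- The bounds. -/
noncomputable def bb (k : ℕ) : ℝ := 8 - 4 * (1 / 2) ^ k

theorem bb_ge (k : ℕ) : 4 ≤ bb k := by
  unfold bb
  have : (1 / 2 : ℝ) ^ k ≤ 1 := pow_le_one₀ (by norm_num) (by norm_num)
  linarith

theorem bb_le (k : ℕ) : bb k ≤ 8 := by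
  unfold bb
  have : (0 : ℝ) ≤ (1 / 2 : ℝ) ^ k := by positivity
  linarith

/-- The sets of good energies. -/
def SS (N l : ℕ → ℕ) (s : ℕ → ℝ) : ℕ → Set ℝ
  | 0 => Set.Icc 0 1
  | (k + 1) => {E | E ∈ SS N l s k ∧
      (((TZ (Wk N l s k) (E + s k) (-(N k : ℤ)) (2 * N k + 1)) ^ (2 * l k + 1)).trace / 2) ^ 2
        ≤ 1 - kap k ^ 2}

theorem good_base (e : ℝ) (he0 : 0 ≤ e) (he1 : e ≤ 11 / 10) (W : ℤ → ℝ) (hW : ∀ n, W n = 0) :
    Good W 0 e 4 := by
  have hT : TZ W e (-((0 : ℕ) : ℤ)) (2 * 0 + 1) = stepM e := by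
    show stepM (e + W _) * 1 = _
    rw [hW, add_zero, mul_one]
  set σ := Real.sqrt (1 - (e / 2) ^ 2) with hσ
  have hσ2 : σ ^ 2 = 1 - (e / 2) ^ 2 := Real.sq_sqrt (by nlinarith)
  have hσlow : 4 / 5 ≤ σ := by
    apply Real.le_sqrt_of_sq_le
    nlinarith
  have hσ1 : σ ≤ 1 := by
    rw [hσ]; apply Real.sqrt_le_one.mpr; nlinarith [sq_nonneg (e / 2)]
  have hσpos : 0 < σ := by linarith
  obtain ⟨φ, hs, hc⟩ := exists_angle σ (e / 2) (by rw [hσ2]; ring)
  have hq : ∀ v : V2, qf (stepM e) σ v = (v 0 ^ 2 - e * (v 0 * v 1) + v 1 ^ 2) / σ := by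
    intro v
    unfold qf
    congr 1
    simp only [wedge, stepM, Matrix.mulVec, dotProduct, Fin.sum_univ_two, Matrix.of_apply,
      Matrix.cons_val', Matrix.cons_val_zero, Matrix.cons_val_one]
    simp
    ring
  have hmax : ∀ v : V2, ‖v‖ = max |v 0| |v 1| := by
    intro v
    apply le_antisymm
    · rw [pi_norm_le_iff_of_nonneg (le_trans (abs_nonneg _) (le_max_left _ _))]
      intro i
      fin_cases i
      · exact le_max_left _ _
      · exact le_max_right _ _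
    · exact max_le (norm_le_pi_norm v 0) (norm_le_pi_norm v 1)
  have hA : ∀ v : V2, ‖v‖ ^ 2 ≤ 4 * qf (stepM e) σ v := by
    intro v
    rw [hq v, mul_div_assoc', le_div_iff₀ hσpos]
    have h1 : σ ^ 2 * ‖v‖ ^ 2 ≤ v 0 ^ 2 - e * (v 0 * v 1) + v 1 ^ 2 := by
      rw [hσ2, hmax]
      rcases max_cases |v 0| |v 1| with ⟨h, _⟩ | ⟨h, _⟩
      · rw [h, sq_abs]
        nlinarith [sq_nonneg (v 1 - e / 2 * v 0)]
      · rw [h, sq_abs]
        nlinarith [sq_nonneg (v 0 - e / 2 * v 1)]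
    have h2 : 0 ≤ ‖v‖ ^ 2 := by positivity
    have h3 : σ ≤ 4 * σ ^ 2 := by nlinarith
    calc ‖v‖ ^ 2 * σ ≤ ‖v‖ ^ 2 * (4 * σ ^ 2) := by gcongr
      _ = 4 * (σ ^ 2 * ‖v‖ ^ 2) := by ring
      _ ≤ 4 * (v 0 ^ 2 - e * (v 0 * v 1) + v 1 ^ 2) := by gcongr
  have hB : ∀ v : V2, qf (stepM e) σ v ≤ 4 * ‖v‖ ^ 2 := by
    intro v
    rw [hq v, div_le_iff₀ hσpos]
    have h0 : |v 0| ≤ ‖v‖ := norm_le_pi_norm v 0
    have h1 : |v 1| ≤ ‖v‖ := norm_le_pi_norm v 1
    have h2 : v 0 ^ 2 ≤ ‖v‖ ^ 2 := by rw [← sq_abs]; gcongr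
    have h3 : v 1 ^ 2 ≤ ‖v‖ ^ 2 := by rw [← sq_abs]; gcongr
    have h4 : -(v 0 * v 1) ≤ ‖v‖ ^ 2 := by
      calc -(v 0 * v 1) ≤ |v 0 * v 1| := neg_le_abs _
        _ = |v 0| * |v 1| := abs_mul _ _
        _ ≤ ‖v‖ * ‖v‖ := by gcongr
        _ = ‖v‖ ^ 2 := by ring
    have h5 : v 0 ^ 2 - e * (v 0 * v 1) + v 1 ^ 2 ≤ (2 + e) * ‖v‖ ^ 2 := by nlinarith
    have h6 : (2 + e) * ‖v‖ ^ 2 ≤ 4 * ‖v‖ ^ 2 * σ := by
      have h7 : 2 + e ≤ 4 * σ := by linarith
      have h8 : 0 ≤ ‖v‖ ^ 2 := by positivity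
      nlinarith
    linarith
  refine ⟨φ, by rw [hs]; exact hσpos.ne', ?_, ?_⟩
  · rw [hT, hc, Matrix.trace_fin_two]
    simp [stepM]
    ring
  · intro i hi v
    rw [hT, hs]
    have hi' : i = 0 ∨ i = 1 := by omega
    rcases hi' with rfl | rfl
    · rw [TZ_zero, Matrix.one_mulVec]
      exact ⟨hA v, hB v⟩
    · have hT1 : TZ W e (-((0 : ℕ) : ℤ)) 1 = stepM e := hT
      rw [hT1]
      have h1 := hA (stepM e *ᵥ v)
      have h2 := hB (stepM e *ᵥ v)
      rw [qf_inv _ (det_stepM e)] at h1 h2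
      exact ⟨h1, h2⟩

section
variable {N l : ℕ → ℕ} {s : ℕ → ℝ} (H : Scales N l s)
  (H2 : ∀ k, (2 * (N k : ℝ) + 1) * s k ≤ (1 / 2) ^ (3 * k + 30))
include H H2

theorem Scales.good (k : ℕ) : ∀ E ∈ SS N l s k, ∀ x : ℝ, 0 ≤ x → x ≤ 2 * s k →
    Good (Wk N l s k) (N k) (E + x) (bb k) := by
  induction k with
  | zero =>
    intro E hE x hx0 hx1
    have hs0 : s 0 ≤ (1 / 2) ^ 30 := by
      have := H2 0
      rw [H.N0] at this
      simpa using this
    have h30 : ((1 : ℝ) / 2) ^ 30 ≤ 1 / 20 := by norm_num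
    rw [H.N0]
    have hb0 : bb 0 = 4 := by unfold bb; norm_num
    rw [hb0]
    apply good_base
    · have := hE.1; linarith
    · have := hE.2; linarith
    · intro n
      unfold Wk
      simp
  | succ k ih =>
    intro E hE x hx0 hx1
    obtain ⟨hEk, htr⟩ := hE
    have hsk := H.spos k
    have hsk1 := H.spos (k + 1)
    have hsh := H.shalf k
    set b := bb k with hb
    have hb4 : 4 ≤ b := bb_ge k
    have hb8 : b ≤ 8 := bb_le k
    have hb0 : 0 ≤ b := by linarith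
    have hb1 : 1 ≤ b := by linarith
    -- good energies at level k
    have g1 : Good (Wk N l s k) (N k) (E + x) b := ih E hEk x hx0 (by linarith)
    have g2 : Good (Wk N l s k) (N k) (E + x + s k) b := by
      have := ih E hEk (x + s k) (by linarith) (by linarith)
      rwa [← add_assoc] at this
    have g3 : Good (Wk N l s k) (N k) (E + s k) b := ih E hEk (s k) hsk.le (by linarith)
    -- powers
    set κ := kap k / 2 with hκ
    have hkap : kap k = (1 / 2) ^ (k + 6) := rfl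
    have hκe : κ = (1 / 2) ^ (k + 7) := by rw [hκ, hkap]; ring
    have hκ0 : 0 < κ := by rw [hκe]; positivity
    have hκ1 : κ ≤ 1 := by rw [hκe]; exact pow_le_one₀ (by norm_num) (by norm_num)
    have hpk := H2 k
    have hpk1 := H2 (k + 1)
    have hN1 : ((N (k + 1) : ℕ) : ℝ) = l k * (2 * N k + 1) + N k := by
      rw [H.Nsucc k]; push_cast; ring
    set P : ℝ := (1 / 2) ^ k with hP
    have hP0 : 0 < P := by positivity
    have hP1 : P ≤ 1 := pow_le_one₀ (by norm_num) (by norm_num)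
    have e1 : ((1 : ℝ) / 2) ^ (3 * k + 30) = P ^ 3 * (1 / 2) ^ 30 := by
      rw [pow_add, pow_mul, hP, ← pow_mul, ← pow_mul]; ring
    have e2 : ((1 : ℝ) / 2) ^ (3 * (k + 1) + 30) = P ^ 3 * (1 / 2) ^ 33 := by
      rw [show 3 * (k + 1) + 30 = 3 * k + 33 by ring, pow_add, pow_mul, hP, ← pow_mul, ← pow_mul]
      ring
    have e3 : kap k = P * (1 / 2) ^ 6 := by rw [hkap, pow_add, hP]
    have e4 : κ = P * (1 / 2) ^ 7 := by rw [hκe, pow_add, hP]
    rw [e1] at hpk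
    rw [e2] at hpk1
    have hS : (((TZ (Wk N l s k) (E + x + s k) (-(N k : ℤ)) (2 * N k + 1)) ^ (2 * l k + 1)).trace / 2) ^ 2
        ≤ 1 - κ ^ 2 := by
      have hdiff := g2.trace_pow_diff g3 hb0 (2 * l k + 1)
      rw [show E + x + s k - (E + s k) = x by ring, abs_of_nonneg hx0] at hdiff
      set a := ((TZ (Wk N l s k) (E + x + s k) (-(N k : ℤ)) (2 * N k + 1)) ^ (2 * l k + 1)).trace / 2
        with ha
      set c := ((TZ (Wk N l s k) (E + s k) (-(N k : ℤ)) (2 * N k + 1)) ^ (2 * l k + 1)).trace / 2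
        with hc
      set d := ((2 * l k + 1 : ℕ) : ℝ) * (b * ((((2 * (N k : ℝ) + 1) * b ^ 2 * x)) * b)) with hd
      have hac : |a - c| ≤ d := by
        have : a - c = (((TZ (Wk N l s k) (E + x + s k) (-(N k : ℤ)) (2 * N k + 1)) ^ (2 * l k + 1)).trace
          - ((TZ (Wk N l s k) (E + s k) (-(N k : ℤ)) (2 * N k + 1)) ^ (2 * l k + 1)).trace) / 2 := by
          rw [ha, hc]; ring
        rw [this, abs_div, abs_two]
        linarith
      have hd1 : d ≤ P ^ 3 * (1 / 2) ^ 20 := by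
        have h1 : d = b ^ 4 * ((2 * (N (k + 1) : ℝ) + 1) * x) := by
          rw [hd, hN1]; push_cast; ring
        rw [h1]
        have h2 : b ^ 4 ≤ 8 ^ 4 := by gcongr
        calc b ^ 4 * ((2 * (N (k + 1) : ℝ) + 1) * x)
            ≤ 8 ^ 4 * ((2 * (N (k + 1) : ℝ) + 1) * (2 * s (k + 1))) := by gcongr
          _ = 8 ^ 4 * 2 * ((2 * (N (k + 1) : ℝ) + 1) * s (k + 1)) := by ring
          _ ≤ 8 ^ 4 * 2 * (P ^ 3 * (1 / 2) ^ 33) := by gcongr
          _ = P ^ 3 * (1 / 2) ^ 20 := by ring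
      have hd0 : 0 ≤ d := le_trans (abs_nonneg _) hac
      have hP3 : P ^ 3 ≤ P ^ 2 := pow_le_pow_of_le_one hP0.le hP1 (by norm_num)
      have hP2 : P ^ 2 ≤ 1 := pow_le_one₀ hP0.le hP1
      have hd2 : d ≤ P ^ 2 * (1 / 2) ^ 20 := le_trans hd1 (by gcongr)
      have hc2 : c ^ 2 ≤ 1 - kap k ^ 2 := htr
      have hc1 : |c| ≤ 1 := by
        rw [← sq_le_one_iff_abs_le_one]
        have : 0 ≤ kap k ^ 2 := by positivity
        linarith
      have hasq : a ^ 2 ≤ c ^ 2 + 2 * d + d ^ 2 := by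
        have e : a ^ 2 = c ^ 2 + 2 * c * (a - c) + (a - c) ^ 2 := by ring
        have k1 : 2 * c * (a - c) ≤ 2 * d := by
          calc 2 * c * (a - c) ≤ |2 * c * (a - c)| := le_abs_self _
            _ = 2 * (|c| * |a - c|) := by rw [abs_mul, abs_mul, abs_two]; ring
            _ ≤ 2 * (1 * d) := by gcongr
            _ = 2 * d := by ring
        have k2 : (a - c) ^ 2 ≤ d ^ 2 := by
          rw [← sq_abs (a - c)]; gcongr
        linarith
      have hdd : d ^ 2 ≤ d := by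
        have : d ≤ 1 := by
          calc d ≤ P ^ 2 * (1 / 2) ^ 20 := hd2
            _ ≤ 1 * (1 / 2) ^ 20 := by gcongr
            _ ≤ 1 := by norm_num
        nlinarith
      have hkk : kap k ^ 2 = P ^ 2 * (1 / 2) ^ 12 := by rw [e3]; ring
      have hκκ : κ ^ 2 = P ^ 2 * (1 / 2) ^ 14 := by rw [e4]; ring
      have hfin : 3 * d ≤ kap k ^ 2 - κ ^ 2 := by
        rw [hkk, hκκ]
        have : 0 ≤ P ^ 2 := by positivity
        norm_num at hd2 ⊢
        linarith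
      linarith
    set ρ := 3 * (b * ((2 * (N k : ℝ) + 1) * b ^ 2 * s k)) / κ ^ 2 with hρ
    have hρle : ρ ≤ P * (1 / 2) ^ 5 := by
      rw [hρ, div_le_iff₀ (by positivity), e4]
      have h3 : b ^ 3 ≤ 8 ^ 3 := by gcongr
      calc 3 * (b * ((2 * (N k : ℝ) + 1) * b ^ 2 * s k)) = 3 * b ^ 3 * ((2 * (N k : ℝ) + 1) * s k) := by
            ring
        _ ≤ 3 * 8 ^ 3 * (P ^ 3 * (1 / 2) ^ 30) := by gcongr
        _ = P ^ 3 * (3 * 8 ^ 3 * (1 / 2) ^ 30) := by ring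
        _ ≤ P ^ 3 * ((1 / 2) ^ 19) := by gcongr; norm_num
        _ = P * (1 / 2) ^ 5 * (P * (1 / 2) ^ 7) ^ 2 := by ring
    have hρ8 : ρ ≤ 1 / 8 := by
      calc ρ ≤ P * (1 / 2) ^ 5 := hρle
        _ ≤ 1 * (1 / 2) ^ 5 := by gcongr
        _ ≤ 1 / 8 := by norm_num
    have hρ0 : 0 ≤ ρ := by rw [hρ]; positivity
    have hstep := Good.step (W := Wk N l s k) (W' := Wk N l s (k + 1)) (M := N k) (l := l k)
      (s := s k) (E := E + x) (b := b) (κ := κ) (ρ := ρ) (H.Wk_period k)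
      (by intro n; unfold Wk; rw [Finset.sum_range_succ]) hb1 hsk g1 g2 hκ0 hκ1 hS hρ hρ8
    rw [← H.Nsucc k] at hstep
    apply hstep.mono (mul_nonneg hb0 (add_nonneg zero_le_one (mul_nonneg (by norm_num) hρ0)))
    -- b (1 + 5 ρ) ≤ bb (k+1)
    have hbk : b = 8 - 4 * P := rfl
    have hbk1 : bb (k + 1) = 8 - 4 * (P * (1 / 2)) := by unfold bb; rw [pow_succ]
    rw [hbk1]
    have h5 : b * (5 * ρ) ≤ 8 * (5 * (P * (1 / 2) ^ 5)) := by gcongr
    have h6 : b * (1 + 5 * ρ) = b + b * (5 * ρ) := by ring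
    rw [h6, hbk]
    rw [hbk] at h5
    norm_num at h5 ⊢
    linarith

/-- All solutions are bounded for good energies. -/
theorem Scales.bddSol (E : ℝ) (hE : ∀ k, E ∈ SS N l s k) :
    BddSol (fun n : ℕ => E - (-(Winf N l s n))) 8 := by
  intro y hy hy0 hy1 n
  obtain ⟨k, hk⟩ : ∃ k, n ≤ N k := ⟨n, H.N_ge n⟩
  have g := H.good H2 k E (hE k) 0 le_rfl (by have := H.spos k; linarith)
  rw [add_zero] at g
  have hb8 := bb_le k
  have hb4 := bb_ge k
  -- vectors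
  let Ψ : ℕ → V2 := fun m => ![y (m + 1), y m]
  have hT : ∀ m : ℕ, m ≤ N k → Ψ m = TZ (Wk N l s k) E 1 m *ᵥ Ψ 0 := by
    intro m
    induction m with
    | zero => intro _; rw [TZ_zero, Matrix.one_mulVec]
    | succ m ih =>
      intro hm
      rw [TZ_succ, ← Matrix.mulVec_mulVec, ← ih (by omega)]
      have hW : Wk N l s k (1 + m) = Winf N l s ((m + 1 : ℕ) : ℤ) := by
        rw [H.Winf_eq (k := k)]
        · push_cast; rw [add_comm]
        · have : (0 : ℤ) ≤ ((m + 1 : ℕ) : ℤ) := by positivity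
          rw [abs_of_nonneg this]
          exact_mod_cast hm
      have hrec : y (m + 2) = (E - -Winf N l s ((m + 1 : ℕ) : ℤ)) * y (m + 1) - y m := hy m
      rw [sub_neg_eq_add] at hrec
      ext i
      fin_cases i
      · simp [Ψ, stepM, Matrix.mulVec, dotProduct, Fin.sum_univ_two]
        rw [hW, hrec]
        push_cast
        ring
      · simp [Ψ, stepM, Matrix.mulVec, dotProduct, Fin.sum_univ_two]
  have hinf := g.infix_bound (by linarith) (i := N k + 1) (j := N k + 1 + n) (by omega) (by omega)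
    (Ψ 0)
  have e1 : (-(N k : ℤ) + ((N k + 1 : ℕ) : ℤ)) = 1 := by push_cast; ring
  rw [e1, show N k + 1 + n - (N k + 1) = n by omega, ← hT n hk] at hinf
  have h0 : ‖Ψ 0‖ ≤ 1 := by
    rw [pi_norm_le_iff_of_nonneg (by norm_num)]
    intro i
    fin_cases i
    · simpa [Ψ] using hy1
    · simpa [Ψ] using hy0
  have h1 : |y n| ≤ ‖Ψ n‖ := by
    have := norm_le_pi_norm (Ψ n) 1
    simpa [Ψ] using this
  calc |y n| ≤ ‖Ψ n‖ := h1
    _ ≤ bb k * ‖Ψ 0‖ := hinf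
    _ ≤ 8 * 1 := by gcongr
    _ = 8 := by norm_num

end

end Pool.Agent.LP
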