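import Mathlib

set_option autoImplicit false
set_option maxHeartbeats 1000000
open MeasureTheory Filter Topology

namespace Pool.Agent.LP

theorem cos_sum_formula (α β : ℝ) (A : ℕ) :
    2 * Real.sin β * ∑ a ∈ Finset.range A, Real.cos (α + 2 * a * β)
      = Real.sin (α + (2 * A - 1) * β) - Real.sin (α - β) := by
  induction A with
  | zero => simp; ring_nf
  | succ A ih =>
    rw [Finset.sum_range_succ, mul_add, ih]
    have h : 2 * Real.sin β * Real.cos (α + 2 * A * β)
        = Real.sin (α + 2 * A * β + β) - Real.sin (α + 2 * A * β - β) := by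
      rw [Real.sin_add, Real.sin_sub]; ring
    rw [h]
    have e1 : α + (2 * ((A + 1 : ℕ) : ℝ) - 1) * β = α + 2 * A * β + β := by push_cast; ring
    have e2 : α + (2 * (A : ℝ) - 1) * β = α + 2 * A * β - β := by ring
    rw [e1, e2]; ring

theorem cos_avg_tendsto (α β : ℝ) (hβ : Real.sin β ≠ 0) :
    Tendsto (fun A : ℕ => (∑ a ∈ Finset.range A, Real.cos (α + 2 * a * β)) / A) atTop (𝓝 0) := by
  have hb : ∀ A : ℕ, |∑ a ∈ Finset.range A, Real.cos (α + 2 * a * β)| ≤ 1 / |Real.sin β| := by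
    intro A
    have h := cos_sum_formula α β A
    have h1 : |2 * Real.sin β * ∑ a ∈ Finset.range A, Real.cos (α + 2 * a * β)| ≤ 2 := by
      rw [h]
      calc _ ≤ |Real.sin (α + (2 * A - 1) * β)| + |Real.sin (α - β)| := abs_sub _ _
        _ ≤ 1 + 1 := add_le_add (Real.abs_sin_le_one _) (Real.abs_sin_le_one _)
        _ = 2 := by norm_num
    rw [abs_mul, abs_mul, abs_two] at h1
    rw [le_div_iff₀ (abs_pos.mpr hβ)]
    linarith
  apply squeeze_zero_norm (a := fun A : ℕ => (1 / |Real.sin β|) / A)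
  · intro A
    rw [norm_div, Real.norm_eq_abs, Real.norm_natCast]
    gcongr
    exact hb A
  · exact tendsto_const_div_atTop_nhds_zero_nat _

/-- Fejér type kernel -/
noncomputable def fej (n : ℕ) (θ : ℝ) : ℝ :=
  (2 / (n : ℝ) ^ 2) * ∑ i ∈ Finset.range n, ∑ j ∈ Finset.range n,
    Real.cos (2 * ((i : ℝ) - j) * θ)

theorem fej_sum_eq (n : ℕ) (θ : ℝ) : ∑ i ∈ Finset.range n, ∑ j ∈ Finset.range n,
    Real.cos (2 * ((i : ℝ) - j) * θ)
    = (∑ i ∈ Finset.range n, Real.cos (2 * i * θ)) ^ 2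
      + (∑ i ∈ Finset.range n, Real.sin (2 * i * θ)) ^ 2 := by
  rw [sq, sq, Finset.sum_mul_sum, Finset.sum_mul_sum, ← Finset.sum_add_distrib]
  apply Finset.sum_congr rfl
  intro i _
  rw [← Finset.sum_add_distrib]
  apply Finset.sum_congr rfl
  intro j _
  rw [show 2 * ((i : ℝ) - j) * θ = 2 * i * θ - 2 * j * θ by ring, Real.cos_sub]

theorem fej_nonneg (n : ℕ) (θ : ℝ) : 0 ≤ fej n θ := by
  unfold fej
  rw [fej_sum_eq]
  positivity

theorem fej_le (n : ℕ) (θ : ℝ) : fej n θ ≤ 2 := by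
  unfold fej
  by_cases hn : n = 0
  · rw [hn]; simp
  have hn' : (0 : ℝ) < n := by exact_mod_cast Nat.pos_of_ne_zero hn
  have h1 : ∑ i ∈ Finset.range n, ∑ j ∈ Finset.range n, Real.cos (2 * ((i : ℝ) - j) * θ)
      ≤ ∑ i ∈ Finset.range n, ∑ j ∈ Finset.range n, (1 : ℝ) := by
    apply Finset.sum_le_sum; intro i _
    apply Finset.sum_le_sum; intro j _
    exact Real.cos_le_one _
  simp only [Finset.sum_const, Finset.card_range, nsmul_eq_mul, mul_one] at h1
  calc (2 / (n : ℝ) ^ 2) * ∑ i ∈ Finset.range n, ∑ j ∈ Finset.range n,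
        Real.cos (2 * ((i : ℝ) - j) * θ) ≤ (2 / (n : ℝ) ^ 2) * (n * n) := by gcongr
    _ = 2 := by field_simp

/-- The kernel is at least one where the sine is small. -/
theorem fej_ge_one (n : ℕ) (hn : 1 ≤ n) (κ θ : ℝ) (hκ : 4 * n * κ ≤ 1) (hκ0 : 0 ≤ κ)
    (hs : Real.sin θ ^ 2 < κ ^ 2) : 1 ≤ fej n θ := by
  have hn' : (0 : ℝ) < n := by exact_mod_cast hn
  -- reduce θ modulo π
  obtain ⟨m, hm⟩ : ∃ m : ℤ, |θ - m * Real.pi| ≤ Real.pi / 2 := by
    refine ⟨round (θ / Real.pi), ?_⟩
    have h1 := abs_sub_round (θ / Real.pi)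
    have hpi := Real.pi_pos
    have e : θ - round (θ / Real.pi) * Real.pi = (θ / Real.pi - round (θ / Real.pi)) * Real.pi := by
      field_simp
    rw [e, abs_mul, abs_of_pos hpi]
    calc |θ / Real.pi - round (θ / Real.pi)| * Real.pi ≤ 1 / 2 * Real.pi := by gcongr
      _ = Real.pi / 2 := by ring
  set τ := θ - m * Real.pi with hτ
  have hsin : |Real.sin τ| = |Real.sin θ| := by
    have h2 : Real.sin τ ^ 2 = Real.sin θ ^ 2 := by
      rw [hτ, Real.sin_sub, Real.sin_int_mul_pi, mul_zero, sub_zero, mul_pow]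
      have : Real.cos (m * Real.pi) ^ 2 = 1 := by
        have := Real.sin_sq_add_cos_sq (m * Real.pi)
        rw [Real.sin_int_mul_pi] at this
        linarith
      rw [this, mul_one]
    rw [← Real.sqrt_sq_eq_abs, ← Real.sqrt_sq_eq_abs, h2]
  have hτsin : |τ| ≤ Real.pi / 2 * |Real.sin τ| := by
    have h3 := Real.mul_abs_le_abs_sin hm
    have hpi := Real.pi_pos
    calc |τ| = Real.pi / 2 * (2 / Real.pi * |τ|) := by field_simp
      _ ≤ Real.pi / 2 * |Real.sin τ| := by gcongr
  have hsκ : |Real.sin θ| < κ := by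
    apply abs_lt_of_sq_lt_sq hs hκ0
  have hτκ : |τ| ≤ Real.pi / 2 * κ := by
    rw [hsin] at hτsin
    have hpi := Real.pi_pos
    calc |τ| ≤ Real.pi / 2 * |Real.sin θ| := hτsin
      _ ≤ Real.pi / 2 * κ := by gcongr
  have hterm : ∀ i ∈ Finset.range n, ∀ j ∈ Finset.range n,
      (1 / 2 : ℝ) ≤ Real.cos (2 * ((i : ℝ) - j) * θ) := by
    intro i hi j hj
    rw [Finset.mem_range] at hi hj
    have hi' : (i : ℝ) < n := by exact_mod_cast hi
    have hj' : (j : ℝ) < n := by exact_mod_cast hj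
    have hi0 : (0 : ℝ) ≤ i := by positivity
    have hj0 : (0 : ℝ) ≤ j := by positivity
    have e : Real.cos (2 * ((i : ℝ) - j) * θ) = Real.cos (2 * ((i : ℝ) - j) * τ) := by
      have : 2 * ((i : ℝ) - j) * θ = 2 * ((i : ℝ) - j) * τ + ((((i : ℤ) - j) * m : ℤ) : ℝ) * (2 * Real.pi) := by
        rw [hτ]; push_cast; ring
      rw [this, Real.cos_add_int_mul_two_pi]
    rw [e]
    have hx : |2 * ((i : ℝ) - j) * τ| ≤ 1 := by
      rw [abs_mul, abs_mul, abs_two]
      have h4 : |(i : ℝ) - j| ≤ n := by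
        rw [abs_le]; constructor <;> linarith
      have hpi := Real.pi_le_four
      have hpi0 := Real.pi_pos
      calc 2 * |(i : ℝ) - j| * |τ| ≤ 2 * n * (Real.pi / 2 * κ) := by gcongr
        _ = Real.pi * (n * κ) := by ring
        _ ≤ 4 * (n * κ) := by gcongr
        _ = 4 * n * κ := by ring
        _ ≤ 1 := hκ
    have h5 := Real.one_sub_sq_div_two_le_cos (x := 2 * ((i : ℝ) - j) * τ)
    have h6 : (2 * ((i : ℝ) - j) * τ) ^ 2 ≤ 1 := by
      rw [← sq_abs]
      exact pow_le_one₀ (abs_nonneg _) hx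
    linarith
  have hsum : ∑ i ∈ Finset.range n, ∑ j ∈ Finset.range n, (1 / 2 : ℝ)
      ≤ ∑ i ∈ Finset.range n, ∑ j ∈ Finset.range n, Real.cos (2 * ((i : ℝ) - j) * θ) := by
    apply Finset.sum_le_sum; intro i hi
    apply Finset.sum_le_sum; intro j hj
    exact hterm i hi j hj
  simp only [Finset.sum_const, Finset.card_range, nsmul_eq_mul] at hsum
  unfold fej
  calc (1 : ℝ) = (2 / (n : ℝ) ^ 2) * (n * (n * (1 / 2))) := by field_simp
    _ ≤ _ := by gcongr

/-- Averages of the kernel. -/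
theorem fej_avg_tendsto (n : ℕ) (hn : 1 ≤ n) (l0 : ℕ) (φ : ℝ)
    (hφ : ∀ m : ℤ, m ≠ 0 → Real.sin (m * φ) ≠ 0) :
    Tendsto (fun A : ℕ => (∑ a ∈ Finset.range A, fej n ((2 * (l0 + a : ℕ) + 1 : ℕ) * φ)) / A) atTop
      (𝓝 (2 / n)) := by
  have hn' : (0 : ℝ) < n := by exact_mod_cast hn
  have e : ∀ A : ℕ, (∑ a ∈ Finset.range A, fej n ((2 * (l0 + a : ℕ) + 1 : ℕ) * φ)) / A
      = (2 / (n : ℝ) ^ 2) * ∑ i ∈ Finset.range n, ∑ j ∈ Finset.range n,
        (∑ a ∈ Finset.range A, Real.cos (2 * ((i : ℝ) - j) * ((2 * (l0 + a : ℕ) + 1 : ℕ) * φ))) / A := by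
    intro A
    unfold fej
    rw [← Finset.mul_sum, mul_div_assoc]
    congr 1
    rw [Finset.sum_comm, Finset.sum_div]
    apply Finset.sum_congr rfl
    intro i _
    rw [Finset.sum_comm, Finset.sum_div]
  have hlim : ∀ i ∈ Finset.range n, ∀ j ∈ Finset.range n,
      Tendsto (fun A : ℕ => (∑ a ∈ Finset.range A,
        Real.cos (2 * ((i : ℝ) - j) * ((2 * (l0 + a : ℕ) + 1 : ℕ) * φ))) / (A : ℝ)) atTop
        (𝓝 (if i = j then 1 else 0)) := by
    intro i _ j _
    by_cases hij : i = j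
    · rw [if_pos hij, hij]
      apply tendsto_const_nhds.congr'
      filter_upwards [eventually_ge_atTop 1] with A hA
      have hA' : (A : ℝ) ≠ 0 := by
        have : (0 : ℝ) < A := by exact_mod_cast hA
        exact this.ne'
      simp only [sub_self, mul_zero, zero_mul, Real.cos_zero, Finset.sum_const, Finset.card_range,
        nsmul_eq_mul, mul_one]
      rw [div_self hA']
    · rw [if_neg hij]
      have hm : (2 * ((i : ℤ) - j)) ≠ 0 := by
        intro h
        apply hij
        have : (i : ℤ) = j := by linarith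
        exact_mod_cast this
      have hs := hφ (2 * ((i : ℤ) - j)) hm
      have hs' : Real.sin (2 * ((i : ℝ) - j) * φ) ≠ 0 := by
        have e1 : (((2 * ((i : ℤ) - j) : ℤ) : ℝ)) * φ = 2 * ((i : ℝ) - j) * φ := by push_cast; ring
        rwa [e1] at hs
      have h := cos_avg_tendsto (2 * ((i : ℝ) - j) * ((2 * l0 + 1) * φ)) (2 * ((i : ℝ) - j) * φ) hs'
      refine h.congr (fun A => ?_)
      congr 1
      apply Finset.sum_congr rfl
      intro a _
      congr 1
      push_cast
      ring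
  have h2 : Tendsto (fun A : ℕ => (2 / (n : ℝ) ^ 2) * ∑ i ∈ Finset.range n, ∑ j ∈ Finset.range n,
        (∑ a ∈ Finset.range A, Real.cos (2 * ((i : ℝ) - j) * ((2 * (l0 + a : ℕ) + 1 : ℕ) * φ))) / (A : ℝ))
      atTop (𝓝 ((2 / (n : ℝ) ^ 2) * ∑ i ∈ Finset.range n, ∑ j ∈ Finset.range n,
        (if i = j then (1 : ℝ) else 0))) := by
    apply Tendsto.const_mul
    apply tendsto_finsetSum
    intro i hi
    apply tendsto_finsetSum
    intro j hj
    exact hlim i hi j hj
  have e3 : (2 / (n : ℝ) ^ 2) * ∑ i ∈ Finset.range n, ∑ j ∈ Finset.range n,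
        (if i = j then (1 : ℝ) else 0) = 2 / n := by
    have : ∀ i ∈ Finset.range n, ∑ j ∈ Finset.range n, (if i = j then (1 : ℝ) else 0) = 1 := by
      intro i hi
      rw [Finset.sum_ite_eq, if_pos hi]
    rw [Finset.sum_congr rfl this]
    simp only [Finset.sum_const, Finset.card_range, nsmul_eq_mul, mul_one]
    field_simp
  rw [e3] at h2
  exact h2.congr (fun A => (e A).symm)

theorem fej_continuous (n : ℕ) : Continuous (fej n) := by
  unfold fej
  fun_prop

/-- Measure estimate for the resonant set. -/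
theorem meas_step (K : Set ℝ) (hK : MeasurableSet K) (hKfin : volume K ≠ ⊤) (φ : ℝ → ℝ)
    (hφ : Continuous φ)
    (hae : ∀ᵐ E ∂(volume.restrict K), ∀ m : ℤ, m ≠ 0 → Real.sin (m * φ E) ≠ 0)
    (n : ℕ) (hn : 1 ≤ n) (κ : ℝ) (hκ0 : 0 ≤ κ) (hκ : 4 * n * κ ≤ 1) (ε : ℝ) (hε : 0 < ε) (l0 : ℕ) :
    ∃ l : ℕ, l0 ≤ l ∧
      volume.real {E | E ∈ K ∧ Real.sin (((2 * l + 1 : ℕ) : ℝ) * φ E) ^ 2 < κ ^ 2}
        ≤ 2 / n * volume.real K + ε := by
  have : IsFiniteMeasure (volume.restrict K) := ⟨by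
    rw [Measure.restrict_apply_univ]; exact lt_top_iff_ne_top.mpr hKfin⟩
  set h : ℕ → ℝ → ℝ := fun a E => fej n ((2 * (l0 + a : ℕ) + 1 : ℕ) * φ E) with hh
  have hcont : ∀ a, Continuous (h a) := by
    intro a
    exact (fej_continuous n).comp (continuous_const.mul hφ)
  have hint : ∀ a, Integrable (h a) (volume.restrict K) := by
    intro a
    apply Integrable.of_bound (hcont a).aestronglyMeasurable 2
    filter_upwards with E
    rw [Real.norm_eq_abs, abs_of_nonneg (fej_nonneg _ _)]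
    exact fej_le _ _
  -- the average converges
  have hdct : Tendsto (fun A : ℕ => ∫ E in K, (∑ a ∈ Finset.range A, h a E) / A) atTop
      (𝓝 (∫ E in K, (2 / n : ℝ))) := by
    apply tendsto_integral_of_dominated_convergence (fun _ => (2 : ℝ))
    · intro A
      apply Continuous.aestronglyMeasurable
      apply Continuous.div_const
      exact continuous_finsetSum _ (fun a _ => hcont a)
    · exact integrable_const _
    · intro A
      filter_upwards with E
      have h1 : 0 ≤ ∑ a ∈ Finset.range A, h a E := Finset.sum_nonneg (fun a _ => fej_nonneg _ _)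
      rw [Real.norm_eq_abs, abs_of_nonneg (by positivity)]
      have h2 : ∑ a ∈ Finset.range A, h a E ≤ ∑ a ∈ Finset.range A, (2 : ℝ) :=
        Finset.sum_le_sum (fun a _ => fej_le _ _)
      rw [Finset.sum_const, Finset.card_range, nsmul_eq_mul] at h2
      apply div_le_of_le_mul₀ (by positivity) (by norm_num)
      linarith
    · filter_upwards [hae] with E hE
      exact fej_avg_tendsto n hn l0 (φ E) hE
  rw [setIntegral_const, smul_eq_mul] at hdct
  -- find a good index
  obtain ⟨a, ha⟩ : ∃ a, ∫ E in K, h a E ≤ 2 / n * volume.real K + ε := by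
    by_contra hc
    push Not at hc
    have hlow : ∀ᶠ A : ℕ in atTop, 2 / n * volume.real K + ε
        ≤ ∫ E in K, (∑ a ∈ Finset.range A, h a E) / A := by
      filter_upwards [eventually_ge_atTop 1] with A hA
      have hA' : (0 : ℝ) < A := by exact_mod_cast hA
      rw [integral_div, integral_finsetSum _ (fun a _ => hint a)]
      rw [le_div_iff₀ hA']
      calc (2 / n * volume.real K + ε) * A
          = ∑ a ∈ Finset.range A, (2 / n * volume.real K + ε) := by
            rw [Finset.sum_const, Finset.card_range, nsmul_eq_mul]; ring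
        _ ≤ ∑ a ∈ Finset.range A, ∫ E in K, h a E := Finset.sum_le_sum (fun a _ => (hc a).le)
    have := ge_of_tendsto hdct hlow
    linarith
  refine ⟨l0 + a, by omega, ?_⟩
  set Bad := {E | E ∈ K ∧ Real.sin (((2 * (l0 + a) + 1 : ℕ) : ℝ) * φ E) ^ 2 < κ ^ 2} with hBad
  have hBm : MeasurableSet Bad := by
    have hc : Continuous (fun E => Real.sin (((2 * (l0 + a) + 1 : ℕ) : ℝ) * φ E) ^ 2) :=
      (Real.continuous_sin.comp (continuous_const.mul hφ)).pow 2
    exact hK.inter (measurableSet_lt hc.measurable measurable_const)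
  calc volume.real Bad = ∫ E in K, Bad.indicator (fun _ => (1 : ℝ)) E := by
        rw [setIntegral_indicator hBm, setIntegral_const, smul_eq_mul, mul_one]
        congr 1
        ext E
        constructor
        · intro hE; exact ⟨hE.1, hE⟩
        · intro hE; exact hE.2
    _ ≤ ∫ E in K, h a E := by
        have hi1 : IntegrableOn (Bad.indicator (fun _ => (1 : ℝ))) K volume :=
          (integrable_const (1 : ℝ)).indicator hBm
        have hi2 : IntegrableOn (h a) K volume := hint a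
        apply setIntegral_mono_on hi1 hi2 hK _
        · intro E hE
          by_cases hb : E ∈ Bad
          · rw [Set.indicator_of_mem hb]
            exact fej_ge_one n hn κ _ hκ hκ0 hb.2
          · rw [Set.indicator_of_notMem hb]
            exact fej_nonneg _ _
    _ ≤ _ := ha

end Pool.Agent.LP
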