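import Mathlib
import Pool.Agent.Lib_helper90.Mat

set_option autoImplicit false
set_option maxHeartbeats 1000000
open Matrix Polynomial

namespace Pool.Agent.LP

theorem TZ_poly (W : ℤ → ℝ) (m : ℤ) (n : ℕ) : ∃ A B C D : ℝ[X], A.Monic ∧ A.natDegree = n ∧
    C.degree < (n : WithBot ℕ) ∧ B.degree < (n : WithBot ℕ) ∧
    D.degree < ((n + 1 : ℕ) : WithBot ℕ) ∧ (1 ≤ n → D.degree < (n : WithBot ℕ)) ∧
    ∀ E : ℝ, TZ W E m n = !![A.eval E, B.eval E; C.eval E, D.eval E] := by
  induction n with
  | zero =>
    refine ⟨1, 0, 0, 1, monic_one, natDegree_one, ?_, ?_, ?_, ?_, ?_⟩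
    · rw [degree_zero]; exact WithBot.bot_lt_coe 0
    · rw [degree_zero]; exact WithBot.bot_lt_coe 0
    · rw [degree_one]; exact_mod_cast Nat.zero_lt_one
    · intro h; omega
    · intro E
      rw [TZ_zero]
      ext i j
      fin_cases i <;> fin_cases j <;> simp
  | succ n ih =>
    obtain ⟨A, B, C, D, hA, hAd, hC, hB, hD, hD', hE⟩ := ih
    set w := W (m + n) with hw
    have hXm : (X + Polynomial.C w).Monic := monic_X_add_C w
    have hXd : (X + Polynomial.C w).natDegree = 1 := natDegree_X_add_C w
    have hprod : ((X + Polynomial.C w) * A).Monic := hXm.mul hA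
    have hprodd : ((X + Polynomial.C w) * A).natDegree = n + 1 := by
      rw [hXm.natDegree_mul hA, hXd, hAd]; ring
    have hprodd' : ((X + Polynomial.C w) * A).degree = ((n + 1 : ℕ) : WithBot ℕ) := by
      rw [degree_eq_natDegree hprod.ne_zero, hprodd]
    have hlt : C.degree < ((X + Polynomial.C w) * A).degree := by
      rw [hprodd']
      refine lt_trans hC ?_
      exact_mod_cast Nat.lt_succ_self n
    refine ⟨(X + Polynomial.C w) * A - C, (X + Polynomial.C w) * B - D, A, B, ?_, ?_, ?_, ?_, ?_, ?_, ?_⟩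
    · exact hprod.sub_of_left hlt
    · rw [natDegree_sub_eq_left_of_natDegree_lt, hprodd]
      rw [hprodd]
      by_cases h0 : C = 0
      · rw [h0, natDegree_zero]; omega
      · rw [degree_eq_natDegree h0] at hC
        have : C.natDegree < n := by exact_mod_cast hC
        omega
    · rw [degree_eq_natDegree hA.ne_zero, hAd]
      exact_mod_cast Nat.lt_succ_self n
    · -- degree of B'
      refine lt_of_le_of_lt (degree_sub_le _ _) (max_lt ?_ hD)
      by_cases h0 : B = 0
      · rw [h0, mul_zero, degree_zero]; exact WithBot.bot_lt_coe _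
      · rw [degree_eq_natDegree h0] at hB
        have hBn : B.natDegree < n := by exact_mod_cast hB
        have hne : (X + Polynomial.C w) * B ≠ 0 := mul_ne_zero hXm.ne_zero h0
        rw [degree_eq_natDegree hne, natDegree_mul hXm.ne_zero h0, hXd]
        exact_mod_cast (by omega : 1 + B.natDegree < n + 1)
    · refine lt_trans hB ?_
      exact_mod_cast (by omega : n < n + 1 + 1)
    · intro _
      refine lt_trans hB ?_
      exact_mod_cast (by omega : n < n + 1)
    · intro E
      rw [TZ_succ, hE E]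
      ext i j
      fin_cases i <;> fin_cases j <;>
        simp [stepM, Matrix.mul_apply, Fin.sum_univ_two, hw] <;> ring

theorem trace_poly (W : ℤ → ℝ) (m : ℤ) (n : ℕ) (hn : 1 ≤ n) :
    ∃ P : ℝ[X], P.natDegree = n ∧ ∀ E : ℝ, (TZ W E m n).trace = P.eval E := by
  obtain ⟨A, B, C, D, hA, hAd, hC, hB, hD, hD', hE⟩ := TZ_poly W m n
  refine ⟨A + D, ?_, ?_⟩
  · rw [natDegree_add_eq_left_of_natDegree_lt, hAd]
    rw [hAd]
    by_cases h0 : D = 0
    · rw [h0, natDegree_zero]; omega
    · have := hD' hn
      rw [degree_eq_natDegree h0] at this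
      exact_mod_cast this
  · intro E
    rw [hE E, Matrix.trace_fin_two, eval_add]
    simp

theorem level_finite (W : ℤ → ℝ) (m : ℤ) (n : ℕ) (hn : 1 ≤ n) (s c : ℝ) :
    {E : ℝ | (TZ W (E + s) m n).trace = c}.Finite := by
  obtain ⟨P, hP, hE⟩ := trace_poly W m n hn
  have hne : P - Polynomial.C c ≠ 0 := by
    intro h
    have h2 : P = Polynomial.C c := sub_eq_zero.mp h
    rw [h2, natDegree_C] at hP
    omega
  have hfin : {x : ℝ | x ∈ (P - Polynomial.C c).roots.toFinset}.Finite := Finset.finite_toSet _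
  have hinj : Set.InjOn (fun E : ℝ => E + s) ((fun E : ℝ => E + s) ⁻¹'
      {x : ℝ | x ∈ (P - Polynomial.C c).roots.toFinset}) := fun a _ b _ h => by simpa using h
  apply Set.Finite.subset (Set.Finite.preimage hinj hfin)
  intro E hEm
  simp only [Set.mem_preimage, Set.mem_setOf_eq, Multiset.mem_toFinset] at *
  rw [mem_roots hne, IsRoot.def, eval_sub, eval_C, ← hE, hEm, sub_self]

theorem trace_continuous (W : ℤ → ℝ) (m : ℤ) (n : ℕ) (s : ℝ) :
    Continuous (fun E : ℝ => TZ W (E + s) m n) := by
  induction n with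
  | zero => simp only [TZ_zero]; exact continuous_const
  | succ n ih =>
    simp only [TZ_succ]
    apply Continuous.matrix_mul _ ih
    unfold stepM
    apply continuous_matrix
    intro i j
    fin_cases i <;> fin_cases j <;> simp <;> fun_prop

end Pool.Agent.LP
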