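import Mathlib
import Pool.Agent.Lib_helper90.Induct
import Pool.Agent.Lib_helper90.MeasStep
import Pool.Agent.Lib_helper90.PolyTr

set_option autoImplicit false
set_option maxHeartbeats 1000000
open Matrix MeasureTheory Filter Topology

namespace Pool.Agent.LP

/-- the step size, as a function of the level and of the block size. -/
noncomputable def sfun (k N : ℕ) : ℝ := if k = 0 then (1 / 2) ^ 30 else 11 * 2 ^ (k + 2) / (N : ℝ) ^ 2

/-- the defect of the set of good energies -/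
def badset (κ : ℝ) (W : ℤ → ℝ) (N l : ℕ) (s : ℝ) (S : Set ℝ) : Set ℝ :=
  {E | E ∈ S ∧ 1 - κ ^ 2 < (((TZ W (E + s) (-(N : ℤ)) (2 * N + 1)) ^ (2 * l + 1)).trace / 2) ^ 2}

/-- lower bound imposed on `l`. -/
noncomputable def lmin (k : ℕ) (s : ℝ) : ℕ := max (2 ^ (4 * k + 42)) ⌈11 * 2 ^ (k + 4) / s⌉₊

/-- state of the construction -/
structure St where
  N : ℕ
  W : ℤ → ℝ
  S : Set ℝ

open Classical in
/-- choice of the number of blocks. -/
noncomputable def lpick (k : ℕ) (st : St) : ℕ :=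
  if h : ∃ l : ℕ, lmin k (sfun k st.N) ≤ l ∧
      volume.real (badset (kap k) st.W st.N l (sfun k st.N) st.S) ≤ (1 / 2) ^ (k + 3) + (1 / 2) ^ (k + 4)
  then h.choose else lmin k (sfun k st.N)

/-- the sequence of states -/
noncomputable def stt : ℕ → St
  | 0 => ⟨0, fun _ => 0, Set.Icc 0 1⟩
  | (k + 1) =>
    ⟨lpick k (stt k) * (2 * (stt k).N + 1) + (stt k).N,
     fun n => (stt k).W n + Dk (stt k).N (lpick k (stt k)) (sfun k (stt k).N) n,
     {E | E ∈ (stt k).S ∧ (((TZ (stt k).W (E + sfun k (stt k).N) (-((stt k).N : ℤ))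
        (2 * (stt k).N + 1)) ^ (2 * lpick k (stt k) + 1)).trace / 2) ^ 2 ≤ 1 - kap k ^ 2}⟩

noncomputable def cN (k : ℕ) : ℕ := (stt k).N
noncomputable def cl (k : ℕ) : ℕ := lpick k (stt k)
noncomputable def cs (k : ℕ) : ℝ := sfun k (cN k)

theorem stt_W (k : ℕ) : (stt k).W = Wk cN cl cs k := by
  induction k with
  | zero => funext n; simp [stt, Wk]
  | succ k ih =>
    funext n
    unfold Wk
    rw [Finset.sum_range_succ]
    show (stt k).W n + _ = _
    rw [ih]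
    rfl

theorem stt_S (k : ℕ) : (stt k).S = SS cN cl cs k := by
  induction k with
  | zero => rfl
  | succ k ih =>
    show {E | E ∈ (stt k).S ∧ _} = {E | E ∈ SS cN cl cs k ∧ _}
    rw [ih, stt_W]
    rfl

theorem cl_ge (k : ℕ) : lmin k (cs k) ≤ cl k := by
  unfold cl lpick
  split_ifs with h
  · exact h.choose_spec.1
  · exact le_rfl

theorem cN_succ (k : ℕ) : cN (k + 1) = cl k * (2 * cN k + 1) + cN k := rfl

theorem cN_zero : cN 0 = 0 := rfl

theorem cl_ge1 (k : ℕ) : 2 ^ (4 * k + 42) ≤ cl k := le_trans (le_max_left _ _) (cl_ge k)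

theorem cl_ge2 (k : ℕ) : 11 * 2 ^ (k + 4) / cs k ≤ cl k := by
  have h1 : ⌈11 * 2 ^ (k + 4) / cs k⌉₊ ≤ cl k := le_trans (le_max_right _ _) (cl_ge k)
  exact le_trans (Nat.le_ceil _) (by exact_mod_cast h1)

theorem cl_le_cN (k : ℕ) : cl k ≤ cN (k + 1) := by
  rw [cN_succ]
  nlinarith [Nat.zero_le (cl k * cN k), Nat.zero_le (cN k)]

theorem cN_pos (k : ℕ) : 1 ≤ cN (k + 1) := by
  have h1 := cl_ge1 k
  have h2 := cl_le_cN k
  have h3 : 1 ≤ 2 ^ (4 * k + 42) := Nat.one_le_two_pow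
  omega

theorem cs_pos (k : ℕ) : 0 < cs k := by
  unfold cs sfun
  split_ifs with h
  · positivity
  · obtain ⟨j, rfl⟩ : ∃ j, k = j + 1 := ⟨k - 1, by omega⟩
    have : (0 : ℝ) < cN (j + 1) := by exact_mod_cast cN_pos j
    positivity

theorem cs_succ (k : ℕ) : cs (k + 1) = 11 * 2 ^ (k + 3) / (cN (k + 1) : ℝ) ^ 2 := by
  unfold cs sfun
  rw [if_neg (by omega)]

theorem cN_sq_ge (k : ℕ) : (cN (k + 1) : ℝ) ≤ (cN (k + 1) : ℝ) ^ 2 := by
  have : (1 : ℝ) ≤ cN (k + 1) := by exact_mod_cast cN_pos k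
  nlinarith

theorem c_scales : Scales cN cl cs where
  N0 := cN_zero
  Nsucc := cN_succ
  lpos := fun k => le_trans Nat.one_le_two_pow (cl_ge1 k)
  spos := cs_pos
  shalf := by
    intro k
    have hN : (0 : ℝ) < cN (k + 1) := by exact_mod_cast cN_pos k
    rw [cs_succ, div_le_iff₀ (by positivity)]
    have h1 := cl_ge2 k
    have h2 : (cl k : ℝ) ≤ cN (k + 1) := by exact_mod_cast cl_le_cN k
    have h3 : 11 * 2 ^ (k + 4) / cs k ≤ (cN (k + 1) : ℝ) ^ 2 := le_trans h1 (le_trans h2 (cN_sq_ge k))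
    rw [div_le_iff₀ (cs_pos k)] at h3
    have e : (11 : ℝ) * 2 ^ (k + 4) = 2 * (11 * 2 ^ (k + 3)) := by ring
    rw [e] at h3
    linarith
  slow := by
    intro k hk
    obtain ⟨j, rfl⟩ : ∃ j, k = j + 1 := ⟨k - 1, by omega⟩
    have hN : (0 : ℝ) < cN (j + 1) := by exact_mod_cast cN_pos j
    rw [cs_succ]
    have e : (11 : ℝ) * 2 ^ (j + 3) / (cN (j + 1) : ℝ) ^ 2 * (1 / 2) ^ (j + 1 + 2)
        = 11 / (cN (j + 1) : ℝ) ^ 2 := by
      have : (2 : ℝ) ^ (j + 3) * (1 / 2) ^ (j + 1 + 2) = 1 := by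
        rw [show j + 1 + 2 = j + 3 by ring, ← mul_pow]; norm_num
      calc _ = 11 * ((2 : ℝ) ^ (j + 3) * (1 / 2) ^ (j + 1 + 2)) / (cN (j + 1) : ℝ) ^ 2 := by ring
        _ = _ := by rw [this, mul_one]
    rw [e]
  N1 := by
    have e : cs 0 = (1 / 2) ^ 30 := by unfold cs sfun; rw [if_pos rfl]
    rw [e]
    have h1 := cl_ge1 0
    have h2 := cl_le_cN 0
    have h3 : ((2 ^ (4 * 0 + 42) : ℕ) : ℝ) ≤ cN 1 := by exact_mod_cast le_trans h1 h2
    refine le_trans ?_ h3
    norm_num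

theorem half_pow_mul (a b : ℕ) : ((1 : ℝ) / 2) ^ a * (2 : ℝ) ^ (a + b) = 2 ^ b := by
  rw [pow_add (2 : ℝ), ← mul_assoc, ← mul_pow]
  norm_num

theorem c_P2 (k : ℕ) : (2 * (cN k : ℝ) + 1) * cs k ≤ (1 / 2) ^ (3 * k + 30) := by
  rcases Nat.eq_zero_or_pos k with h | h
  · subst h
    rw [cN_zero]
    unfold cs sfun
    rw [if_pos rfl]
    norm_num
  · obtain ⟨j, rfl⟩ : ∃ j, k = j + 1 := ⟨k - 1, by omega⟩
    have hN : (1 : ℝ) ≤ cN (j + 1) := by exact_mod_cast cN_pos j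
    have hN0 : (0 : ℝ) < cN (j + 1) := by linarith
    rw [cs_succ, mul_div_assoc', div_le_iff₀ (by positivity)]
    have h1 : ((2 : ℝ) ^ (4 * j + 42)) ≤ cN (j + 1) := by
      have := le_trans (cl_ge1 j) (cl_le_cN j)
      exact_mod_cast this
    calc (2 * (cN (j + 1) : ℝ) + 1) * (11 * 2 ^ (j + 3))
        ≤ (3 * (cN (j + 1) : ℝ)) * (11 * 2 ^ (j + 3)) := by gcongr; linarith
      _ = (33 * 2 ^ (j + 3)) * cN (j + 1) := by ring
      _ ≤ ((1 / 2) ^ (3 * (j + 1) + 30) * (2 : ℝ) ^ (4 * j + 42)) * cN (j + 1) := by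
          have e : ((1 : ℝ) / 2) ^ (3 * (j + 1) + 30) * (2 : ℝ) ^ (4 * j + 42) = 2 ^ (j + 9) := by
            rw [show 4 * j + 42 = (3 * (j + 1) + 30) + (j + 9) by ring]
            exact half_pow_mul _ _
          rw [e]
          have e2 : (2 : ℝ) ^ (j + 9) = 64 * 2 ^ (j + 3) := by ring
          rw [e2]
          have h0 : (0 : ℝ) < 2 ^ (j + 3) := by positivity
          have h9 : (33 : ℝ) * 2 ^ (j + 3) ≤ 64 * 2 ^ (j + 3) := by linarith
          exact mul_le_mul_of_nonneg_right h9 hN0.le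
      _ ≤ ((1 / 2) ^ (3 * (j + 1) + 30) * cN (j + 1)) * cN (j + 1) := by gcongr
      _ = (1 / 2) ^ (3 * (j + 1) + 30) * (cN (j + 1) : ℝ) ^ 2 := by ring

theorem SS_closed (N l : ℕ → ℕ) (s : ℕ → ℝ) (k : ℕ) : IsClosed (SS N l s k) := by
  induction k with
  | zero => exact isClosed_Icc
  | succ k ih =>
    have hc : Continuous (fun E : ℝ => (((TZ (Wk N l s k) (E + s k) (-(N k : ℤ))
        (2 * N k + 1)) ^ (2 * l k + 1)).trace / 2) ^ 2) := by
      apply Continuous.pow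
      apply Continuous.div_const
      apply Continuous.matrix_trace
      exact (trace_continuous _ _ _ _).pow _
    have h2 : IsClosed {E : ℝ | (((TZ (Wk N l s k) (E + s k) (-(N k : ℤ))
        (2 * N k + 1)) ^ (2 * l k + 1)).trace / 2) ^ 2 ≤ 1 - kap k ^ 2} :=
      isClosed_le hc continuous_const
    exact ih.inter h2

theorem SS_sub (N l : ℕ → ℕ) (s : ℕ → ℝ) (k : ℕ) : SS N l s (k + 1) ⊆ SS N l s k :=
  fun _ hE => hE.1

theorem SS_sub_Icc (N l : ℕ → ℕ) (s : ℕ → ℝ) (k : ℕ) : SS N l s k ⊆ Set.Icc 0 1 := by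
  induction k with
  | zero => exact le_rfl
  | succ k ih => exact (SS_sub N l s k).trans ih

theorem SS_vol_le (N l : ℕ → ℕ) (s : ℕ → ℝ) (k : ℕ) : volume.real (SS N l s k) ≤ 1 := by
  have h := measureReal_mono (SS_sub_Icc N l s k) (μ := volume) (by simp)
  simpa using h

theorem SS_vol_ne_top (N l : ℕ → ℕ) (s : ℕ → ℝ) (k : ℕ) : volume (SS N l s k) ≠ ⊤ :=
  ne_top_of_le_ne_top (by simp) (measure_mono (SS_sub_Icc N l s k))

section
variable {N l : ℕ → ℕ} {s : ℕ → ℝ} (H : Scales N l s)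
  (H2 : ∀ k, (2 * (N k : ℝ) + 1) * s k ≤ (1 / 2) ^ (3 * k + 30))
include H H2

/-- Existence of a good choice at each level. -/
theorem Scales.exists_choice (k l0 : ℕ) : ∃ l' : ℕ, l0 ≤ l' ∧
    volume.real (badset (kap k) (Wk N l s k) (N k) l' (s k) (SS N l s k))
      ≤ (1 / 2) ^ (k + 3) + (1 / 2) ^ (k + 4) := by
  set T : ℝ → M2 := fun E => TZ (Wk N l s k) (E + s k) (-(N k : ℤ)) (2 * N k + 1) with hT
  set φ : ℝ → ℝ := fun E => Real.arccos ((T E).trace / 2) with hφ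
  have hφc : Continuous φ := by
    apply Real.continuous_arccos.comp
    apply Continuous.div_const
    apply Continuous.matrix_trace
    exact trace_continuous _ _ _ _
  -- on the good set
  have hgood : ∀ E ∈ SS N l s k, (T E).trace = 2 * Real.cos (φ E) ∧ Real.sin (φ E) ≠ 0 := by
    intro E hE
    have g := H.good H2 k E hE (s k) (H.spos k).le (by have := H.spos k; linarith)
    obtain ⟨φ', hs', ht', _⟩ := g
    have e : (T E).trace = 2 * Real.cos φ' := ht'
    have e2 : (T E).trace / 2 = Real.cos φ' := by rw [e]; ring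
    have h1 : -1 ≤ (T E).trace / 2 := by rw [e2]; exact Real.neg_one_le_cos _
    have h2 : (T E).trace / 2 ≤ 1 := by rw [e2]; exact Real.cos_le_one _
    constructor
    · simp only [hφ]
      rw [Real.cos_arccos h1 h2]; ring
    · simp only [hφ]
      rw [Real.sin_arccos, e2]
      have h3 : 1 - Real.cos φ' ^ 2 = Real.sin φ' ^ 2 := by
        have := Real.sin_sq_add_cos_sq φ'; linarith
      rw [h3, Real.sqrt_sq_eq_abs]
      exact abs_ne_zero.mpr hs'
  -- almost everywhere irrational rotation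
  have hae : ∀ᵐ E ∂(volume.restrict (SS N l s k)), ∀ m : ℤ, m ≠ 0 → Real.sin (m * φ E) ≠ 0 := by
    have hcount : (⋃ q : ℚ, {E : ℝ | (T E).trace = 2 * Real.cos (q * Real.pi)}).Countable := by
      apply Set.countable_iUnion
      intro q
      exact (level_finite (Wk N l s k) (-(N k : ℤ)) (2 * N k + 1) (by omega) (s k) _).countable
    have hnull : volume (⋃ q : ℚ, {E : ℝ | (T E).trace = 2 * Real.cos (q * Real.pi)}) = 0 :=
      hcount.measure_zero _
    rw [ae_restrict_iff' (SS_closed N l s k).measurableSet]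
    have hae0 : ∀ᵐ E ∂(volume : Measure ℝ),
        E ∉ (⋃ q : ℚ, {E : ℝ | (T E).trace = 2 * Real.cos (q * Real.pi)}) :=
      measure_eq_zero_iff_ae_notMem.mp hnull
    filter_upwards [hae0] with E hE hES m hm hsin
    apply hE
    obtain ⟨n, hn⟩ := Real.sin_eq_zero_iff.mp hsin
    rw [Set.mem_iUnion]
    refine ⟨(n : ℚ) / m, ?_⟩
    have hm' : (m : ℝ) ≠ 0 := by exact_mod_cast hm
    have e : φ E = (((n : ℚ) / m : ℚ) : ℝ) * Real.pi := by
      push_cast
      field_simp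
      linarith
    show (T E).trace = 2 * Real.cos ((((n : ℚ) / m : ℚ) : ℝ) * Real.pi)
    rw [← e]
    exact (hgood E hES).1
  obtain ⟨l', hl', hvol⟩ := meas_step (SS N l s k) (SS_closed N l s k).measurableSet
    (SS_vol_ne_top N l s k) φ hφc hae (2 ^ (k + 4)) Nat.one_le_two_pow (kap k)
    (by unfold kap; positivity) (by
      unfold kap
      push_cast
      have : (2 : ℝ) ^ (k + 4) * (1 / 2) ^ (k + 6) = 1 / 4 := by
        rw [show k + 6 = (k + 4) + 2 by ring, pow_add (1 / 2 : ℝ), ← mul_assoc, ← mul_pow]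
        norm_num
      rw [mul_assoc, this]; norm_num) ((1 / 2) ^ (k + 4)) (by positivity) l0
  refine ⟨l', hl', ?_⟩
  have hset : badset (kap k) (Wk N l s k) (N k) l' (s k) (SS N l s k)
      = {E | E ∈ SS N l s k ∧ Real.sin (((2 * l' + 1 : ℕ) : ℝ) * φ E) ^ 2 < kap k ^ 2} := by
    ext E
    constructor
    · rintro ⟨h1, h2⟩
      refine ⟨h1, ?_⟩
      obtain ⟨g1, g2⟩ := hgood E h1
      have g1' : (TZ (Wk N l s k) (E + s k) (-(N k : ℤ)) (2 * N k + 1)).trace
          = 2 * Real.cos (φ E) := g1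
      rw [trace_pow _ (det_TZ _ _ _ _) (φ E) g1' g2] at h2
      have := Real.sin_sq_add_cos_sq (((2 * l' + 1 : ℕ) : ℝ) * φ E)
      rw [mul_div_cancel_left₀ _ (two_ne_zero)] at h2
      linarith
    · rintro ⟨h1, h2⟩
      refine ⟨h1, ?_⟩
      obtain ⟨g1, g2⟩ := hgood E h1
      have g1' : (TZ (Wk N l s k) (E + s k) (-(N k : ℤ)) (2 * N k + 1)).trace
          = 2 * Real.cos (φ E) := g1
      rw [trace_pow _ (det_TZ _ _ _ _) (φ E) g1' g2]
      have := Real.sin_sq_add_cos_sq (((2 * l' + 1 : ℕ) : ℝ) * φ E)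
      rw [mul_div_cancel_left₀ _ (two_ne_zero)]
      linarith
  rw [hset]
  refine le_trans hvol ?_
  have h1 := SS_vol_le N l s k
  have h2 : (2 : ℝ) / ((2 ^ (k + 4) : ℕ) : ℝ) * volume.real (SS N l s k) ≤ (1 / 2) ^ (k + 3) := by
    push_cast
    calc (2 : ℝ) / 2 ^ (k + 4) * volume.real (SS N l s k) ≤ 2 / 2 ^ (k + 4) * 1 := by gcongr
      _ = (1 / 2) ^ (k + 3) := by
        rw [one_div, inv_pow]
        field_simp
        ring
  linarith

end

theorem c_meas (k : ℕ) :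
    volume.real (badset (kap k) (Wk cN cl cs k) (cN k) (cl k) (cs k) (SS cN cl cs k))
      ≤ (1 / 2) ^ (k + 3) + (1 / 2) ^ (k + 4) := by
  have hex := c_scales.exists_choice c_P2 k (lmin k (cs k))
  rw [← stt_W, ← stt_S] at hex
  have hex' : ∃ l : ℕ, lmin k (sfun k (stt k).N) ≤ l ∧
      volume.real (badset (kap k) (stt k).W (stt k).N l (sfun k (stt k).N) (stt k).S)
        ≤ (1 / 2) ^ (k + 3) + (1 / 2) ^ (k + 4) := hex
  have hcl : cl k = hex'.choose := by
    unfold cl lpick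
    rw [dif_pos hex']
  rw [← stt_W, ← stt_S, hcl]
  exact hex'.choose_spec.2

theorem c_vol (k : ℕ) : 5 / 8 + 3 * (1 / 2 : ℝ) ^ (k + 3) ≤ volume.real (SS cN cl cs k) := by
  induction k with
  | zero =>
    show _ ≤ volume.real (Set.Icc (0 : ℝ) 1)
    rw [Real.volume_real_Icc_of_le (by norm_num)]
    norm_num
  | succ k ih =>
    have hsub : SS cN cl cs k ⊆ SS cN cl cs (k + 1) ∪
        badset (kap k) (Wk cN cl cs k) (cN k) (cl k) (cs k) (SS cN cl cs k) := by
      intro E hE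
      by_cases h : (((TZ (Wk cN cl cs k) (E + cs k) (-(cN k : ℤ)) (2 * cN k + 1)) ^ (2 * cl k + 1)).trace / 2) ^ 2
        ≤ 1 - kap k ^ 2
      · left; exact ⟨hE, h⟩
      · right; exact ⟨hE, not_le.mp h⟩
    have h1 : volume.real (SS cN cl cs k) ≤ volume.real (SS cN cl cs (k + 1))
        + volume.real (badset (kap k) (Wk cN cl cs k) (cN k) (cl k) (cs k) (SS cN cl cs k)) := by
      refine le_trans (measureReal_mono hsub ?_) (measureReal_union_le _ _)
      apply ne_top_of_le_ne_top _ (measure_mono (s := _) (t := Set.Icc (0 : ℝ) 1) _)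
      · simp
      · apply Set.union_subset (SS_sub_Icc _ _ _ _)
        intro E hE
        exact SS_sub_Icc _ _ _ k hE.1
    have h2 := c_meas k
    have e1 : (1 / 2 : ℝ) ^ (k + 1 + 3) = (1 / 2) ^ (k + 4) := by ring_nf
    have e2 : (1 / 2 : ℝ) ^ (k + 3) = 2 * (1 / 2) ^ (k + 4) := by ring
    rw [e1]
    rw [e2] at ih h2
    linarith

theorem c_vol_iInter : volume (⋂ k, SS cN cl cs k) ≠ 0 := by
  have hanti : Antitone (SS cN cl cs) := antitone_nat_of_succ_le (fun k => SS_sub _ _ _ k)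
  have h := tendsto_measure_iInter_atTop (μ := volume) (s := SS cN cl cs)
    (fun k => (SS_closed _ _ _ k).measurableSet.nullMeasurableSet) hanti
    ⟨0, SS_vol_ne_top _ _ _ 0⟩
  intro h0
  rw [h0] at h
  have hle : ENNReal.ofReal (5 / 8) ≤ 0 := by
    apply ge_of_tendsto' h
    intro k
    have h1 := c_vol k
    have h2 : (0 : ℝ) ≤ 3 * (1 / 2 : ℝ) ^ (k + 3) := by positivity
    have h3 : (5 / 8 : ℝ) ≤ volume.real (SS cN cl cs k) := by linarith
    exact ENNReal.ofReal_le_of_le_toReal h3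
  have : (0 : ENNReal) < ENNReal.ofReal (5 / 8) := ENNReal.ofReal_pos.mpr (by norm_num)
  exact absurd hle (not_le.mpr this)

end Pool.Agent.LP
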