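import Mathlib
import Pool.Agent.Lib_helper90.Eigen
import Pool.Agent.Lib_helper90.Operator

set_option autoImplicit false
open Filter Topology

namespace Pool.Agent.LP

/-- tent function -/
noncomputable def tent (m : ℕ) (n : ℤ) : ℝ := max 0 ((m : ℝ) - |(n : ℝ)|)

theorem tent_FS (m : ℕ) : FS (tent m) := by
  apply Set.Finite.subset (Set.finite_Icc (-(m : ℤ)) m)
  intro n hn
  simp only [Function.mem_support] at hn
  rw [Set.mem_Icc]
  have h1 : |(n : ℝ)| < m := by
    by_contra hc
    push Not at hc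
    apply hn
    unfold tent
    exact max_eq_left (by linarith)
  have h2 : |n| < (m : ℤ) := by exact_mod_cast h1
  rw [abs_lt] at h2
  constructor <;> linarith [h2.1, h2.2]

theorem tent_supp (m : ℕ) (n : ℤ) (hn : tent m n ≠ 0) : |n| ≤ m := by
  by_contra hc
  push Not at hc
  apply hn
  unfold tent
  have : (m : ℝ) < |(n : ℝ)| := by exact_mod_cast hc
  exact max_eq_left (by linarith)

theorem tent_kin (m : ℕ) : kin (tent m) ≤ 2 * m := by
  have hsum : Summable (fun n : ℤ => (if n ∈ Finset.Ico (-(m : ℤ)) m then (1 : ℝ) else 0)) := by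
    apply summable_of_supp (Finset.Ico (-(m : ℤ)) m : Set ℤ) (Finset.finite_toSet _)
    intro n hn
    by_contra hc
    rw [Finset.mem_coe] at hc
    simp only [hc, if_false] at hn
    exact hn rfl
  have h1 : kin (tent m) ≤ ∑' n : ℤ, (if n ∈ Finset.Ico (-(m : ℤ)) m then (1 : ℝ) else 0) := by
    unfold kin
    apply Summable.tsum_le_tsum _ (tent_FS m).summable_kin hsum
    intro n
    by_cases hn : n ∈ Finset.Ico (-(m : ℤ)) m
    · simp only [hn, if_true]
      have h2 : |tent m (n + 1) - tent m n| ≤ 1 := by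
        unfold tent
        refine le_trans (abs_max_sub_max_le_max _ _ _ _) ?_
        rw [sub_self, abs_zero, max_eq_right (abs_nonneg _)]
        have e : ((m : ℝ) - |((n + 1 : ℤ) : ℝ)|) - ((m : ℝ) - |(n : ℝ)|)
            = |(n : ℝ)| - |((n + 1 : ℤ) : ℝ)| := by ring
        rw [e]
        refine le_trans (abs_abs_sub_abs_le _ _) ?_
        push_cast
        rw [show (n : ℝ) - (n + 1) = -1 by ring]
        simp
      calc (tent m (n + 1) - tent m n) ^ 2 = |tent m (n + 1) - tent m n| ^ 2 := (sq_abs _).symm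
        _ ≤ 1 ^ 2 := pow_le_pow_left₀ (abs_nonneg _) h2 2
        _ = 1 := by norm_num
    · simp only [hn, if_false]
      have hn' : ¬ (-(m : ℤ) ≤ n ∧ n < m) := by simpa using hn
      have h3 : tent m n = 0 ∧ tent m (n + 1) = 0 := by
        unfold tent
        by_cases h4 : n < -(m : ℤ)
        · have h5 : (m : ℤ) ≤ |n| := by rw [abs_of_neg (by omega)]; omega
          have h6 : (m : ℤ) ≤ |n + 1| := by
            rcases le_or_gt (n + 1) 0 with h7 | h7
            · rw [abs_of_nonpos h7]; omega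
            · omega
          have h5' : (m : ℝ) ≤ |(n : ℝ)| := by exact_mod_cast h5
          have h6' : (m : ℝ) ≤ |((n + 1 : ℤ) : ℝ)| := by exact_mod_cast h6
          exact ⟨max_eq_left (by linarith), max_eq_left (by linarith)⟩
        · have h4' : (m : ℤ) ≤ n := by
            by_contra hc
            exact hn' ⟨by omega, by omega⟩
          have h5 : (m : ℤ) ≤ |n| := by rw [abs_of_nonneg (by omega)]; omega
          have h6 : (m : ℤ) ≤ |n + 1| := by rw [abs_of_nonneg (by omega)]; omega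
          have h5' : (m : ℝ) ≤ |(n : ℝ)| := by exact_mod_cast h5
          have h6' : (m : ℝ) ≤ |((n + 1 : ℤ) : ℝ)| := by exact_mod_cast h6
          exact ⟨max_eq_left (by linarith), max_eq_left (by linarith)⟩
      rw [h3.1, h3.2]; norm_num
  refine le_trans h1 ?_
  rw [tsum_eq_sum (s := Finset.Ico (-(m : ℤ)) m) (by
    intro n hn
    simp only [hn, if_false])]
  rw [Finset.sum_congr rfl (fun n hn => by simp only [hn, if_true] : ∀ n ∈ Finset.Ico (-(m : ℤ)) m,
    (if n ∈ Finset.Ico (-(m : ℤ)) m then (1 : ℝ) else 0) = 1)]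
  rw [Finset.sum_const, Int.card_Ico, nsmul_eq_mul, mul_one]
  have : ((m : ℤ) - (-(m : ℤ))).toNat = 2 * m := by omega
  rw [this]
  push_cast
  exact le_rfl

section
variable {N l : ℕ → ℕ} {s : ℕ → ℝ} (H : Scales N l s)
include H

theorem Scales.N_one_pos : 1 ≤ N 1 := by
  have := H.N_ge 1
  exact this

theorem Scales.bet_one_le : bet N l s 1 ≤ s 0 := by
  set m := N 1 with hm
  have hmpos : (0 : ℝ) < m := by
    have := H.N_one_pos
    exact_mod_cast this
  have h1 := H.bet_lower' 1 (tent m) (tent_FS m) (fun n hn => tent_supp m n hn)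
  have h2 := tent_kin m
  -- potential
  have h3 : pot (Wk N l s 1) (tent m) ≤ s 0 * (nr (tent m) - (m : ℝ) ^ 2) := by
    have hs1 := (tent_FS m).summable_sq
    have hs2 : Summable (fun n : ℤ => (if n = 0 then (m : ℝ) ^ 2 else 0)) := by
      apply summable_of_supp {0} (Set.finite_singleton 0)
      intro n hn
      by_contra hc
      simp only [Set.mem_singleton_iff] at hc
      simp [hc] at hn
    have e : s 0 * (nr (tent m) - (m : ℝ) ^ 2)
        = ∑' n : ℤ, s 0 * (tent m n ^ 2 - (if n = 0 then (m : ℝ) ^ 2 else 0)) := by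
      rw [tsum_mul_left, Summable.tsum_sub hs1 hs2, tsum_ite_eq]
      rfl
    rw [e]
    unfold pot
    apply Summable.tsum_le_tsum _ ((tent_FS m).summable_pot _) ((hs1.sub hs2).mul_left _)
    intro n
    unfold Wk
    rw [Finset.sum_range_one]
    by_cases hn : n = 0
    · have h4 : Dk (N 0) (l 0) (s 0) n = 0 := by
        apply Dk_zero_of_abs_le
        rw [hn]; simp
      rw [h4, hn]
      have : tent m 0 = m := by
        unfold tent
        simp
      rw [this]
      simp
    · simp only [hn, if_false, sub_zero]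
      exact mul_le_mul_of_nonneg_right (Dk_le _ _ _ (H.spos 0).le n) (by positivity)
  have hs0 := H.spos 0
  have h5 : 2 * (m : ℝ) ≤ s 0 * (m : ℝ) ^ 2 := by
    have := H.N1
    rw [div_le_iff₀ hs0] at this
    nlinarith
  have h6 : bet N l s 1 * nr (tent m) ≤ s 0 * nr (tent m) := by nlinarith
  have h7 : 0 < nr (tent m) := by
    have hs1 := (tent_FS m).summable_sq
    have : tent m 0 ^ 2 ≤ nr (tent m) := hs1.le_tsum 0 (fun _ _ => by positivity)
    have h8 : tent m 0 = m := by
      unfold tent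
      simp
    rw [h8] at this
    have : 0 < (m : ℝ) ^ 2 := by positivity
    linarith
  exact le_of_mul_le_mul_right h6 h7

theorem Scales.pi_small (k : ℕ) (hk : 1 ≤ k) : (Real.pi / N k) ^ 2 ≤ 10 / (N k : ℝ) ^ 2 := by
  rw [div_pow]
  have h1 : Real.pi ^ 2 ≤ 10 := by
    have := Real.pi_lt_d2
    have h0 := Real.pi_pos
    nlinarith
  gcongr

theorem Scales.Npos {k : ℕ} (hk : 1 ≤ k) : (0 : ℝ) < N k := by
  have := H.N_ge k
  have : 0 < N k := by omega
  exact_mod_cast this

theorem Scales.pi_le_s (k : ℕ) (hk : 1 ≤ k) : (Real.pi / N k) ^ 2 ≤ s k := by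
  have h1 := H.pi_small k hk
  have h2 := H.slow k hk
  have hN := H.Npos hk
  have h3 : (1 / 2 : ℝ) ^ (k + 2) ≤ 1 := pow_le_one₀ (by norm_num) (by norm_num)
  have h4 : s k * (1 / 2) ^ (k + 2) ≤ s k * 1 := by
    have := H.spos k
    gcongr
  have h5 : 10 / (N k : ℝ) ^ 2 ≤ 11 / (N k : ℝ) ^ 2 := by gcongr; norm_num
  linarith

/-- Lower bound for the energy at level `k`. -/
theorem Scales.lower (k : ℕ) (hk : 1 ≤ k) : ∀ ψ : ℤ → ℝ, FS ψ →
    (bet N l s k - (Real.pi / N k) ^ 2) * nr ψ ≤ kin ψ + pot (Wk N l s k) ψ := by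
  induction k, hk using Nat.le_induction with
  | base =>
    intro ψ hψ
    apply ims_step (N 0) (l 0) (s 0) (Wk N l s 0) (Wk N l s 1) (bet N l s 1) 0 (N 1)
      (H.Nsucc 0) H.N_one_pos _ _ (H.Wk_period 1) (H.bet_lower' 1) _ _ ψ hψ
    · rw [H.N0]; omega
    · intro n
      unfold Wk
      simp
    · intro φ hφ
      rw [zero_mul]
      have h1 := kin_nonneg φ
      have h2 := pot_nonneg (Wk N l s 0) φ (H.Wk_nonneg 0)
      linarith
    · rw [zero_add]
      exact H.bet_one_le
  | succ k hk ih =>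
    intro ψ hψ
    apply ims_step (N k) (l k) (s k) (Wk N l s k) (Wk N l s (k + 1)) (bet N l s (k + 1))
      (bet N l s k - (Real.pi / N k) ^ 2) (N (k + 1)) (H.Nsucc k) _ _ _ (H.Wk_period (k + 1))
      (H.bet_lower' (k + 1)) ih _ ψ hψ
    · have := H.N_ge (k + 1); omega
    · have := H.N_succ_ge k; omega
    · intro n
      unfold Wk
      rw [Finset.sum_range_succ]
    · have h1 := H.bet_anti (Nat.le_succ k)
      have h2 := H.pi_le_s k hk
      linarith

theorem Scales.lower_inf (k : ℕ) (hk : 1 ≤ k) (ψ : ℤ → ℝ) (hψ : FS ψ) :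
    (bet N l s k - (Real.pi / N k) ^ 2) * nr ψ ≤ kin ψ + pot (Winf N l s) ψ := by
  have h1 := H.lower k hk ψ hψ
  have h2 : pot (Wk N l s k) ψ ≤ pot (Winf N l s) ψ := pot_mono hψ (H.Wk_le_Winf k)
  linarith

theorem Scales.exists_level {k : ℕ} (hk : 1 ≤ k) (n : ℤ) (h1 : (N 1 : ℤ) < |n|) (h2 : |n| ≤ N k) :
    ∃ j, 1 ≤ j ∧ j < k ∧ Dk (N j) (l j) (s j) n = s j := by
  induction k, hk using Nat.le_induction with
  | base => exact absurd h2 (not_le.mpr h1)
  | succ k hk ih =>
    by_cases h3 : |n| ≤ N k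
    · obtain ⟨j, a, b, c⟩ := ih h3
      exact ⟨j, a, by omega, c⟩
    · push Not at h3
      refine ⟨k, hk, by omega, ?_⟩
      apply Dk_eq_s
      rw [← H.Nsucc k, (blk_zero_iff _ _).mpr h2, mul_zero, sub_zero]
      exact h3

/-- Concentration of approximate minimizers. -/
theorem Scales.mass (k : ℕ) (hk : 1 ≤ k) (φ : ℤ → ℝ) (hφ : FS φ)
    (hs : ∀ n, φ n ≠ 0 → |n| ≤ N k) (hn : nr φ = 1)
    (he : kin φ + pot (Winf N l s) φ ≤ bet N l s k + 1 / (N k : ℝ) ^ 2) :
    3 / 4 ≤ ∑ n ∈ Finset.Icc (-(N 1 : ℤ)) (N 1), φ n ^ 2 := by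
  classical
  -- energy bound at each level
  have hj : ∀ j, 1 ≤ j → j < k → pot (Dk (N j) (l j) (s j)) φ / s j ≤ (1 / 2) ^ (j + 2) := by
    intro j h1 h2
    have e1 : pot (Wk N l s (j + 1)) φ = pot (Wk N l s j) φ + pot (Dk (N j) (l j) (s j)) φ := by
      rw [← pot_add hφ]
      unfold Wk
      simp only [Finset.sum_range_succ]
    have e2 := H.lower j h1 φ hφ
    have e3 : pot (Wk N l s (j + 1)) φ ≤ pot (Winf N l s) φ := pot_mono hφ (H.Wk_le_Winf (j + 1))
    have e4 := H.bet_anti h2.le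
    have e5 : 1 / (N k : ℝ) ^ 2 ≤ 1 / (N j : ℝ) ^ 2 := by
      have a := H.Npos h1
      have b : (N j : ℝ) ≤ N k := by exact_mod_cast H.N_mono h2.le
      gcongr
    have e6 := H.pi_small j h1
    have e7 := H.slow j h1
    have e8 : 10 / (N j : ℝ) ^ 2 + 1 / (N j : ℝ) ^ 2 = 11 / (N j : ℝ) ^ 2 := by ring
    rw [hn] at e2
    rw [div_le_iff₀ (H.spos j)]
    linarith
  -- pointwise bound
  have hsum : nr φ ≤ ∑ n ∈ Finset.Icc (-(N 1 : ℤ)) (N 1), φ n ^ 2
      + ∑ j ∈ Finset.Ico 1 k, pot (Dk (N j) (l j) (s j)) φ / s j := by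
    have hs1 : Summable (fun n : ℤ => (if n ∈ Finset.Icc (-(N 1 : ℤ)) (N 1) then φ n ^ 2 else 0)) := by
      apply summable_of_supp _ hφ
      intro n hn
      simp only [Function.mem_support]
      intro h0
      apply hn
      simp [h0]
    have e1 : ∑ n ∈ Finset.Icc (-(N 1 : ℤ)) (N 1), φ n ^ 2
        = ∑' n : ℤ, (if n ∈ Finset.Icc (-(N 1 : ℤ)) (N 1) then φ n ^ 2 else 0) := by
      rw [tsum_eq_sum (s := Finset.Icc (-(N 1 : ℤ)) (N 1)) (by
        intro n hn
        simp only [hn, if_false])]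
      apply Finset.sum_congr rfl
      intro n hn
      simp only [hn, if_true]
    have hs2 : ∀ j ∈ Finset.Ico 1 k, Summable (fun n : ℤ => (Dk (N j) (l j) (s j) n * φ n ^ 2) / s j) :=
      fun j _ => (hφ.summable_pot _).div_const _
    have e2 : ∑ j ∈ Finset.Ico 1 k, pot (Dk (N j) (l j) (s j)) φ / s j
        = ∑' n : ℤ, ∑ j ∈ Finset.Ico 1 k, (Dk (N j) (l j) (s j) n * φ n ^ 2) / s j := by
      rw [Summable.tsum_finsetSum hs2]
      apply Finset.sum_congr rfl
      intro j _
      unfold pot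
      rw [tsum_div_const]
    rw [e1, e2, ← Summable.tsum_add hs1 (summable_sum hs2)]
    unfold nr
    apply Summable.tsum_le_tsum _ hφ.summable_sq (hs1.add (summable_sum hs2))
    intro n
    have hnn : 0 ≤ ∑ j ∈ Finset.Ico 1 k, (Dk (N j) (l j) (s j) n * φ n ^ 2) / s j := by
      apply Finset.sum_nonneg
      intro j _
      have a := Dk_nonneg (N j) (l j) (s j) (H.spos j).le n
      have b := H.spos j
      positivity
    by_cases h1 : n ∈ Finset.Icc (-(N 1 : ℤ)) (N 1)
    · simp only [h1, if_true]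
      linarith
    · simp only [h1, if_false, zero_add]
      by_cases h0 : φ n = 0
      · rw [h0]
        rw [h0] at hnn
        simpa using hnn
      · have h2 : (N 1 : ℤ) < |n| := by
          by_contra hc
          push Not at hc
          apply h1
          rw [Finset.mem_Icc]
          exact abs_le.mp hc
        obtain ⟨j, a, b, c⟩ := H.exists_level hk n h2 (hs n h0)
        have hterm : φ n ^ 2 = (Dk (N j) (l j) (s j) n * φ n ^ 2) / s j := by
          rw [c, mul_div_assoc, mul_comm, div_mul_cancel₀ _ (H.spos j).ne']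
        calc φ n ^ 2 = (Dk (N j) (l j) (s j) n * φ n ^ 2) / s j := hterm
          _ ≤ ∑ j ∈ Finset.Ico 1 k, (Dk (N j) (l j) (s j) n * φ n ^ 2) / s j := by
              apply Finset.single_le_sum (f := fun j => (Dk (N j) (l j) (s j) n * φ n ^ 2) / s j)
              · intro i _
                have a' := Dk_nonneg (N i) (l i) (s i) (H.spos i).le n
                have b' := H.spos i
                positivity
              · rw [Finset.mem_Ico]; exact ⟨a, b⟩
  have hgeo : ∑ j ∈ Finset.Ico 1 k, (1 / 2 : ℝ) ^ (j + 2) ≤ 1 / 4 := by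
    have : ∀ k : ℕ, 1 ≤ k → ∑ j ∈ Finset.Ico 1 k, (1 / 2 : ℝ) ^ (j + 2)
        = 1 / 4 - (1 / 2) ^ (k + 1) := by
      intro k hk
      induction k, hk using Nat.le_induction with
      | base => norm_num
      | succ k hk ih =>
        rw [Finset.sum_Ico_succ_top hk, ih]
        ring
    rw [this k hk]
    have : (0 : ℝ) ≤ (1 / 2) ^ (k + 1) := by positivity
    linarith
  have h2 : ∑ j ∈ Finset.Ico 1 k, pot (Dk (N j) (l j) (s j)) φ / s j
      ≤ ∑ j ∈ Finset.Ico 1 k, (1 / 2 : ℝ) ^ (j + 2) := by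
    apply Finset.sum_le_sum
    intro j hj'
    rw [Finset.mem_Ico] at hj'
    exact hj j hj'.1 hj'.2
  rw [hn] at hsum
  linarith

theorem Scales.tendsto_N : Tendsto (fun k => (N k : ℝ)) atTop atTop := by
  apply tendsto_atTop_mono (f := fun k : ℕ => (k : ℝ)) _ tendsto_natCast_atTop_atTop
  intro k
  exact_mod_cast H.N_ge k

/-- Existence of an `ℓ²` eigenfunction, as a real sequence. -/
theorem Scales.exists_eigen : ∃ (β : ℝ) (u : ℤ → ℝ), Summable (fun n => u n ^ 2) ∧
    (∃ n, u n ≠ 0) ∧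
    ∀ n, 2 * u n - u (n + 1) - u (n - 1) + Winf N l s n * u n = β * u n := by
  classical
  -- the limit
  have hanti : Antitone (bet N l s) := fun j k h => H.bet_anti h
  have hbdd : BddBelow (Set.range (bet N l s)) := ⟨0, by rintro _ ⟨k, rfl⟩; exact H.bet_nonneg k⟩
  set β := ⨅ k, bet N l s k with hβ
  have hβlim : Tendsto (bet N l s) atTop (𝓝 β) := tendsto_atTop_ciInf hanti hbdd
  have hβle : ∀ k, β ≤ bet N l s k := fun k => ciInf_le hbdd k
  have hN2 : Tendsto (fun k => (Real.pi / N k) ^ 2) atTop (𝓝 0) := by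
    have h1 : Tendsto (fun k => Real.pi / (N k : ℝ)) atTop (𝓝 0) :=
      H.tendsto_N.const_div_atTop _
    have := h1.pow 2
    simpa using this
  have hlow : ∀ ψ : ℤ → ℝ, FS ψ → β * nr ψ ≤ kin ψ + pot (Winf N l s) ψ := by
    intro ψ hψ
    have h1 : Tendsto (fun k => (bet N l s k - (Real.pi / N k) ^ 2) * nr ψ) atTop
        (𝓝 ((β - 0) * nr ψ)) := (hβlim.sub hN2).mul_const _
    rw [sub_zero] at h1
    exact le_of_tendsto h1 (eventually_atTop.mpr ⟨1, fun k hk => H.lower_inf k hk ψ hψ⟩)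
  -- approximate minimizers
  have hex : ∀ k : ℕ, ∃ φ : ℤ → ℝ, FS φ ∧ (∀ n, φ n ≠ 0 → |n| ≤ N (k + 1)) ∧ nr φ = 1 ∧
      kin φ + pot (Winf N l s) φ ≤ bet N l s (k + 1) + 1 / (N (k + 1) : ℝ) ^ 2 := by
    intro k
    have hpos : (0 : ℝ) < 1 / (N (k + 1) : ℝ) ^ 2 := by
      have := H.Npos (k := k + 1) (by omega)
      positivity
    obtain ⟨x, ⟨φ, h1, h2, h3, h4⟩, hx⟩ := exists_lt_of_csInf_lt (RQ_nonempty (N := N) (l := l) (s := s) (k + 1))
      (show sInf (RQ N l s (k + 1)) < bet N l s (k + 1) + 1 / (N (k + 1) : ℝ) ^ 2 by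
        unfold bet; linarith)
    exact ⟨φ, h1, h2, h3, by rw [h4]; exact hx.le⟩
  choose φ hφFS hφs hφn hφe using hex
  have hbound : ∀ k n, φ k n ∈ Set.Icc (-1 : ℝ) 1 := by
    intro k n
    have h1 : φ k n ^ 2 ≤ nr (φ k) := (hφFS k).summable_sq.le_tsum n (fun _ _ => by positivity)
    rw [hφn k] at h1
    rw [Set.mem_Icc, ← abs_le]
    exact abs_le_one_iff_mul_self_le_one.mpr (by nlinarith)
  -- compactness
  have hcomp : IsCompact (Set.pi Set.univ (fun _ : ℤ => Set.Icc (-1 : ℝ) 1)) :=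
    isCompact_univ_pi (fun _ => isCompact_Icc)
  obtain ⟨u, _, g, hg, hlim⟩ := hcomp.tendsto_subseq (x := φ) (fun k => by
    intro n _
    exact hbound k n)
  have hpt : ∀ n, Tendsto (fun k => φ (g k) n) atTop (𝓝 (u n)) := fun n =>
    (tendsto_pi_nhds.mp hlim) n
  have hgt : Tendsto g atTop atTop := hg.tendsto_atTop
  -- energies converge
  have hek : Tendsto (fun k => kin (φ (g k)) + pot (Winf N l s) (φ (g k)) - β) atTop (𝓝 0) := by
    have h1 : Tendsto (fun k : ℕ => bet N l s (k + 1) + 1 / (N (k + 1) : ℝ) ^ 2 - β) atTop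
        (𝓝 (β + 0 - β)) := by
      apply Tendsto.sub_const
      apply Tendsto.add
      · exact hβlim.comp (tendsto_add_atTop_nat 1)
      · have h2 : Tendsto (fun k => (1 : ℝ) / (N k : ℝ)) atTop (𝓝 0) := H.tendsto_N.const_div_atTop _
        have h3 := (h2.pow 2).comp (tendsto_add_atTop_nat 1)
        simp only [ne_eq, OfNat.ofNat_ne_zero, not_false_eq_true, zero_pow] at h3
        refine h3.congr (fun k => ?_)
        simp only [Function.comp_apply, div_pow, one_pow]
    rw [add_zero, sub_self] at h1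
    have h2 := h1.comp hgt
    apply squeeze_zero _ _ h2
    · intro k
      have := hlow _ (hφFS (g k))
      rw [hφn] at this
      linarith
    · intro k
      have := hφe (g k)
      simp only [Function.comp_apply]
      linarith
  refine ⟨β, u, ?_, ?_, ?_⟩
  · -- summable
    apply summable_of_sum_le (c := 1) (fun n => by positivity)
    intro F
    have h1 : Tendsto (fun k => ∑ n ∈ F, φ (g k) n ^ 2) atTop (𝓝 (∑ n ∈ F, u n ^ 2)) :=
      tendsto_finset_sum _ (fun n _ => (hpt n).pow 2)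
    apply le_of_tendsto' h1
    intro k
    rw [← hφn (g k)]
    exact (hφFS (g k)).summable_sq.sum_le_tsum _ (fun _ _ => by positivity)
  · -- nonzero
    by_contra hc
    push Not at hc
    have h1 : Tendsto (fun k => ∑ n ∈ Finset.Icc (-(N 1 : ℤ)) (N 1), φ (g k) n ^ 2) atTop
        (𝓝 (∑ n ∈ Finset.Icc (-(N 1 : ℤ)) (N 1), u n ^ 2)) :=
      tendsto_finset_sum _ (fun n _ => (hpt n).pow 2)
    have h2 : 3 / 4 ≤ ∑ n ∈ Finset.Icc (-(N 1 : ℤ)) (N 1), u n ^ 2 := by
      apply ge_of_tendsto' h1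
      intro k
      exact H.mass (g k + 1) (by omega) (φ (g k)) (hφFS _) (hφs _) (hφn _) (hφe _)
    rw [Finset.sum_eq_zero (fun n _ => by rw [hc n]; norm_num)] at h2
    norm_num at h2
  · intro n
    have h1 : Tendsto (fun k => (2 * φ (g k) n - φ (g k) (n + 1) - φ (g k) (n - 1)
        + Winf N l s n * φ (g k) n - β * φ (g k) n) ^ 2) atTop
        (𝓝 ((2 * u n - u (n + 1) - u (n - 1) + Winf N l s n * u n - β * u n) ^ 2)) := by
      apply Tendsto.pow
      exact ((((hpt n).const_mul 2).sub (hpt (n + 1))).sub (hpt (n - 1))).add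
        ((hpt n).const_mul _) |>.sub ((hpt n).const_mul _)
    have h2 : Tendsto (fun k => (kin (φ (g k)) + pot (Winf N l s) (φ (g k)) - β)
        * (2 + Winf N l s n - β)) atTop (𝓝 (0 * (2 + Winf N l s n - β))) := hek.mul_const _
    rw [zero_mul] at h2
    have h3 : (2 * u n - u (n + 1) - u (n - 1) + Winf N l s n * u n - β * u n) ^ 2 ≤ 0 := by
      apply le_of_tendsto_of_tendsto' h1 h2
      intro k
      exact residual (Winf N l s) β hlow (φ (g k)) (hφFS _) (hφn _) n
    have h4 : 2 * u n - u (n + 1) - u (n - 1) + Winf N l s n * u n - β * u n = 0 := by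
      exact pow_eq_zero_iff (two_ne_zero) |>.mp (le_antisymm h3 (by positivity))
    linarith

end

end Pool.Agent.LP
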