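import Mathlib
import Pool.Agent.Lib_helper90.Resolvent

set_option autoImplicit false
open MeasureTheory

namespace Pool.Agent.LP

theorem sum_re_sq_le (φ : l2) (e : ℕ ↪ ℤ) (N : ℕ) :
    ∑ n ∈ Finset.range N, ((φ (e n)).re) ^ 2 ≤ ‖φ‖ ^ 2 := by
  calc ∑ n ∈ Finset.range N, ((φ (e n)).re) ^ 2
      ≤ ∑ n ∈ Finset.range N, ‖φ (e n)‖ ^ 2 := by
        apply Finset.sum_le_sum
        intro n _
        have := Complex.abs_re_le_norm (φ (e n))
        calc ((φ (e n)).re) ^ 2 = |(φ (e n)).re| ^ 2 := (sq_abs _).symm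
          _ ≤ ‖φ (e n)‖ ^ 2 := pow_le_pow_left₀ (abs_nonneg _) this 2
    _ = ∑ m ∈ (Finset.range N).map e, ‖φ m‖ ^ 2 := by rw [Finset.sum_map]
    _ ≤ ∑' m : ℤ, ‖φ m‖ ^ 2 := (l2_summable φ).sum_le_tsum _ (fun _ _ => by positivity)
    _ = ‖φ‖ ^ 2 := (l2_norm_sq φ).symm

/-- Half line bounds at the sites `0`, `1`, `-1`. -/
theorem site_bound (V : ℤ → ℝ) (hEven : ∀ n, V (-n) = V n) (E B : ℝ)
    (hB0 : 0 ≤ B) (hB : BddSol (fun n : ℕ => E - V n) B) (φ χ : l2)
    (hrec : ∀ n : ℤ, n ≠ 0 → φ (n + 1) + φ (n - 1) + (V n : ℂ) * φ n - (E : ℂ) * φ n = χ n)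
    (N : ℕ) (hN : 1 ≤ N) :
    |(φ 0).re| ≤ B * (2 * ‖φ‖ / Real.sqrt N + Real.sqrt N * ‖χ‖) ∧
    |(φ 1).re| ≤ B * (2 * ‖φ‖ / Real.sqrt N + Real.sqrt N * ‖χ‖) ∧
    |(φ (-1)).re| ≤ B * (2 * ‖φ‖ / Real.sqrt N + Real.sqrt N * ‖χ‖) := by
  -- right half line
  let eR : ℕ ↪ ℤ := ⟨fun n => (n : ℤ), fun a b h => by simpa using h⟩
  let eR1 : ℕ ↪ ℤ := ⟨fun n => ((n + 1 : ℕ) : ℤ), fun a b h => by simpa using h⟩
  let eL : ℕ ↪ ℤ := ⟨fun n => -(n : ℤ), fun a b h => by simpa using h⟩
  let eL1 : ℕ ↪ ℤ := ⟨fun n => -((n + 1 : ℕ) : ℤ), fun a b h => by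
    have : ((a + 1 : ℕ) : ℤ) = ((b + 1 : ℕ) : ℤ) := neg_injective h
    simpa using this⟩
  have hR := half_line_bound (fun n : ℕ => E - V n) (fun n => (φ (n : ℤ)).re)
    (fun n => (χ (n : ℤ)).re) (by
      intro n
      have h := hrec ((n + 1 : ℕ) : ℤ) (by
        have : (0 : ℤ) < ((n + 1 : ℕ) : ℤ) := by positivity
        exact this.ne')
      have h' := congrArg Complex.re h
      have e1 : ((n + 1 : ℕ) : ℤ) + 1 = ((n + 2 : ℕ) : ℤ) := by push_cast; ring
      have e2 : ((n + 1 : ℕ) : ℤ) - 1 = (n : ℤ) := by push_cast; ring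
      rw [e1, e2] at h'
      simp only [Complex.add_re, Complex.sub_re, Complex.re_ofReal_mul] at h'
      linarith) B ‖φ‖ ‖χ‖ hB0 (norm_nonneg _) (norm_nonneg _) hB
      (fun N => sum_re_sq_le φ eR N) (fun N => sum_re_sq_le φ eR1 N)
      (fun N => sum_re_sq_le χ eR1 N) N hN
  have hL := half_line_bound (fun n : ℕ => E - V n) (fun n => (φ (-(n : ℤ))).re)
    (fun n => (χ (-(n : ℤ))).re) (by
      intro n
      have h := hrec (-((n + 1 : ℕ) : ℤ)) (by
        have : (0 : ℤ) < ((n + 1 : ℕ) : ℤ) := by positivity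
        intro h0
        omega)
      have h' := congrArg Complex.re h
      have e1 : -((n + 1 : ℕ) : ℤ) - 1 = -((n + 2 : ℕ) : ℤ) := by push_cast; ring
      have e2 : -((n + 1 : ℕ) : ℤ) + 1 = -(n : ℤ) := by push_cast; ring
      rw [e1, e2] at h'
      simp only [Complex.add_re, Complex.sub_re, Complex.re_ofReal_mul, hEven] at h'
      linarith) B ‖φ‖ ‖χ‖ hB0 (norm_nonneg _) (norm_nonneg _) hB
      (fun N => sum_re_sq_le φ eL N) (fun N => sum_re_sq_le φ eL1 N)
      (fun N => sum_re_sq_le χ eL1 N) N hN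
  refine ⟨?_, ?_, ?_⟩
  · simpa using hR.1
  · simpa using hR.2
  · simpa using hL.2

/-- the vector `δ₀`. -/
noncomputable def delta0 : l2 := lp.single 2 (0 : ℤ) (1 : ℂ)

theorem inner_delta0 (φ : l2) : inner ℂ delta0 φ = φ 0 := by
  unfold delta0
  rw [lp.inner_single_left]
  simp

theorem delta0_apply_zero : delta0 0 = 1 := by
  unfold delta0
  rw [lp.single_apply_self]

theorem delta0_apply_ne (n : ℤ) (hn : n ≠ 0) : delta0 n = 0 := by
  unfold delta0
  rw [lp.single_apply_ne _ _ _ hn]

section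
variable (V : ℤ → ℝ) (C : ℝ) (hV : ∀ n, |V n| ≤ C) (hEven : ∀ n, V (-n) = V n)

include hEven in
theorem no_atom (E B : ℝ) (hB0 : 0 ≤ B) (hB : BddSol (fun n : ℕ => E - V n) B)
    (μ : Measure ℝ) [IsFiniteMeasure μ] (hμ : IsSpec (opH V C hV) delta0 μ) :
    μ {E} = 0 := by
  have hH := opH_isSelfAdjoint V C hV
  set M := μ.real Set.univ with hM
  -- test function
  let f : ℕ → ℝ → ℝ := fun m x => max 0 (1 - m * |x - E|)
  have hf : ∀ m, Continuous (f m) := fun m => by fun_prop
  have hf0 : ∀ m x, 0 ≤ f m x := fun m x => le_max_left _ _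
  have hf1 : ∀ m x, f m x ≤ 1 := fun m x => by
    apply max_le (by norm_num)
    have : 0 ≤ (m : ℝ) * |x - E| := by positivity
    linarith
  have key : ∀ N m : ℕ, 1 ≤ N → 1 ≤ m → μ.real {E} ≤
      B * (2 * Real.sqrt M / Real.sqrt N + Real.sqrt N * (Real.sqrt M / m)) := by
    intro N m hN hm
    set φ : l2 := (fc (opH V C hV) (f m)) delta0 with hφ
    set χ : l2 := (fc (opH V C hV) (fun x => (x - E) * f m x)) delta0 with hχ
    have hrec : ∀ n : ℤ, n ≠ 0 →
        φ (n + 1) + φ (n - 1) + (V n : ℂ) * φ n - (E : ℂ) * φ n = χ n := by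
      intro n _
      have h := apply_fc hH delta0 (f m) (hf m) E
      have h2 := congrArg (fun ψ : l2 => ψ n) h
      exact h2
    have hb := (site_bound V hEven E B hB0 hB φ χ hrec N hN).1
    have hMnn : 0 ≤ M := measureReal_nonneg
    have hφn : ‖φ‖ ≤ Real.sqrt M := by
      apply Real.le_sqrt_of_sq_le
      rw [hφ, norm_sq_fc hμ _ (hf m)]
      have hi : Integrable (fun x => (f m x) ^ 2) μ := (hμ _ (by fun_prop)).1
      calc ∫ x, (f m x) ^ 2 ∂μ ≤ ∫ x, (1 : ℝ) ∂μ := by
            apply integral_mono hi (integrable_const _)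
            intro x
            exact pow_le_one₀ (hf0 m x) (hf1 m x)
        _ = M := by simp [hM]
    have hmpos : (0 : ℝ) < m := by exact_mod_cast hm
    have hχn : ‖χ‖ ≤ Real.sqrt M / m := by
      rw [le_div_iff₀ hmpos]
      apply Real.le_sqrt_of_sq_le
      rw [mul_pow, hχ, norm_sq_fc hμ _ (by fun_prop)]
      have hi : Integrable (fun x => ((x - E) * f m x) ^ 2) μ := (hμ _ (by fun_prop)).1
      rw [← integral_mul_const]
      calc ∫ x, ((x - E) * f m x) ^ 2 * (m : ℝ) ^ 2 ∂μ ≤ ∫ x, (1 : ℝ) ∂μ := by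
            apply integral_mono (hi.mul_const _) (integrable_const _)
            intro x
            show ((x - E) * f m x) ^ 2 * (m : ℝ) ^ 2 ≤ 1
            have hb1 : |x - E| * f m x * m ≤ 1 := by
              by_cases hx : (m : ℝ) * |x - E| ≤ 1
              · have h1 := hf1 m x
                have h2 : 0 ≤ (m : ℝ) * |x - E| := by positivity
                calc |x - E| * f m x * m = (m * |x - E|) * f m x := by ring
                  _ ≤ 1 * 1 := mul_le_mul hx h1 (hf0 m x) (by norm_num)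
                  _ = 1 := by ring
              · push Not at hx
                have h1 : f m x = 0 := by
                  show max 0 (1 - (m : ℝ) * |x - E|) = 0
                  exact max_eq_left (by linarith)
                rw [h1]; simp
            have hb0 : 0 ≤ |x - E| * f m x * m := by
              have := hf0 m x
              positivity
            calc ((x - E) * f m x) ^ 2 * (m : ℝ) ^ 2 = (|x - E| * f m x * m) ^ 2 := by
                  rw [mul_pow, mul_pow, mul_pow, sq_abs]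
              _ ≤ 1 := pow_le_one₀ hb0 hb1
        _ = M := by simp [hM]
    have hlow : μ.real {E} ≤ |(φ 0).re| := by
      have h1 : (φ 0).re = ∫ x, f m x ∂μ := by
        rw [(hμ (f m) (hf m)).2, inner_delta0]
        rfl
      rw [h1]
      refine le_trans ?_ (le_abs_self _)
      have hi : Integrable (f m) μ := (hμ _ (hf m)).1
      calc μ.real {E} = ∫ x, Set.indicator {E} (fun _ => (1 : ℝ)) x ∂μ := by
            rw [integral_indicator_const _ (measurableSet_singleton E)]
            simp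
        _ ≤ ∫ x, f m x ∂μ := by
            apply integral_mono _ hi
            · intro x
              by_cases hx : x = E
              · simp [hx, f]
              · simp only [Set.mem_singleton_iff, hx, not_false_eq_true,
                  Set.indicator_of_notMem]
                exact hf0 m x
            · exact (integrable_const _).indicator (measurableSet_singleton E)
    have hNpos : 0 < Real.sqrt N := Real.sqrt_pos.mpr (by exact_mod_cast hN)
    refine le_trans hlow (le_trans hb ?_)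
    gcongr
  have hz : μ.real {E} = 0 := by
    have hnn : 0 ≤ μ.real {E} := measureReal_nonneg
    by_contra hne
    have hpos : 0 < μ.real {E} := lt_of_le_of_ne hnn (Ne.symm hne)
    -- limit m → ∞
    have k1 : ∀ N : ℕ, 1 ≤ N → μ.real {E} ≤ B * (2 * Real.sqrt M / Real.sqrt N) := by
      intro N hN
      have hlim : Filter.Tendsto
          (fun m : ℕ => B * (2 * Real.sqrt M / Real.sqrt N + Real.sqrt N * (Real.sqrt M / m)))
          Filter.atTop (nhds (B * (2 * Real.sqrt M / Real.sqrt N + Real.sqrt N * 0))) := by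
        apply Filter.Tendsto.const_mul
        apply Filter.Tendsto.const_add
        apply Filter.Tendsto.const_mul
        exact tendsto_const_div_atTop_nhds_zero_nat _
      have := ge_of_tendsto hlim (Filter.eventually_atTop.mpr ⟨1, fun m hm => key N m hN hm⟩)
      simpa using this
    have hlim2 : Filter.Tendsto (fun N : ℕ => B * (2 * Real.sqrt M / Real.sqrt N))
        Filter.atTop (nhds (B * 0)) := by
      apply Filter.Tendsto.const_mul
      apply Filter.Tendsto.const_div_atTop
      exact Real.tendsto_sqrt_atTop.comp tendsto_natCast_atTop_atTop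
    have := ge_of_tendsto hlim2 (Filter.eventually_atTop.mpr ⟨1, fun N hN => k1 N hN⟩)
    simp at this
    linarith
  rw [measureReal_def, ENNReal.toReal_eq_zero_iff] at hz
  rcases hz with h | h
  · exact h
  · exact absurd h (measure_ne_top _ _)

end

end Pool.Agent.LP
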