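import Mathlib
import Pool.Agent.Lib_helper90.NoAtom

set_option autoImplicit false
open MeasureTheory

namespace Pool.Agent.LP

section
variable (V : ℤ → ℝ) (C : ℝ) (hV : ∀ n, |V n| ≤ C) (hEven : ∀ n, V (-n) = V n)

include hEven in
theorem poisson_lower (E B : ℝ) (hB0 : 0 ≤ B) (hB : BddSol (fun n : ℕ => E - V n) B)
    (μ : Measure ℝ) (hμ : IsSpec (opH V C hV) delta0 μ)
    (ε : ℝ) (hε : 0 < ε) (hε1 : ε ≤ 1) :
    1 ≤ (8 * B + 4 * B * (C + |E|) + 1) ^ 2 * (ε * ∫ x, 1 / ((x - E) ^ 2 + ε ^ 2) ∂μ) := by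
  have hH := opH_isSelfAdjoint V C hV
  have hC : 0 ≤ C := le_trans (abs_nonneg _) (hV 0)
  set f : ℝ → ℝ := fun x => 1 / ((x - E) ^ 2 + ε ^ 2) with hfdef
  have hden : ∀ x : ℝ, 0 < (x - E) ^ 2 + ε ^ 2 := fun x => by positivity
  have hf : Continuous f := by
    apply Continuous.div continuous_const (by fun_prop)
    intro x; exact (hden x).ne'
  set I : ℝ := ∫ x, f x ∂μ with hI
  set v : l2 := (fc (opH V C hV) (fun x => (x - E) * f x)) delta0 with hv
  set w : l2 := (fc (opH V C hV) f) delta0 with hw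
  have hI0 : 0 ≤ I := integral_nonneg (fun x => by have := hden x; simp only [hfdef]; positivity)
  have hnorm : ‖v‖ ^ 2 + ε ^ 2 * ‖w‖ ^ 2 = I := by
    rw [hv, hw, norm_sq_fc hμ _ (by fun_prop), norm_sq_fc hμ _ hf, ← integral_const_mul,
      ← integral_add]
    · rw [hI]
      congr 1
      funext x
      have := (hden x).ne'
      simp only [hfdef]
      field_simp
    · exact (hμ _ (by fun_prop)).1
    · exact ((hμ _ (by fun_prop)).1).const_mul _
  have hvn : ‖v‖ ≤ Real.sqrt I := by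
    apply Real.le_sqrt_of_sq_le
    have : 0 ≤ ε ^ 2 * ‖w‖ ^ 2 := by positivity
    linarith
  have hwn : ε * ‖w‖ ≤ Real.sqrt I := by
    apply Real.le_sqrt_of_sq_le
    rw [mul_pow]
    have : 0 ≤ ‖v‖ ^ 2 := by positivity
    linarith
  -- equation
  have heq : opH V C hV v - (E : ℂ) • v = delta0 - ((ε ^ 2 : ℝ) : ℂ) • w := by
    rw [hv, apply_fc hH delta0 _ (by fun_prop) E, hw]
    have e1 : (fun x => (x - E) * ((x - E) * f x)) = fun x => (1 : ℝ) - ε ^ 2 * f x := by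
      funext x
      have := (hden x).ne'
      simp only [hfdef]
      field_simp
      ring
    rw [e1, fc_sub_smul_apply delta0 (fun _ => (1 : ℝ)) f continuous_const hf (ε ^ 2),
      fc_one_apply hH]
  have hpt : ∀ n : ℤ, v (n + 1) + v (n - 1) + (V n : ℂ) * v n - (E : ℂ) * v n
      = delta0 n - ((ε ^ 2 : ℝ) : ℂ) * w n := by
    intro n
    exact congrArg (fun ψ : l2 => ψ n) heq
  set χ : l2 := -(((ε ^ 2 : ℝ) : ℂ) • w) with hχ
  have hχn : ‖χ‖ = ε * (ε * ‖w‖) := by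
    rw [hχ, norm_neg, norm_smul, Complex.norm_real, Real.norm_eq_abs, abs_of_pos (by positivity)]
    ring
  have hrec : ∀ n : ℤ, n ≠ 0 →
      v (n + 1) + v (n - 1) + (V n : ℂ) * v n - (E : ℂ) * v n = χ n := by
    intro n hn
    rw [hpt n, delta0_apply_ne n hn, zero_sub]
    rfl
  -- choice of N
  obtain ⟨N, hN1, hN2⟩ : ∃ N : ℕ, 1 / ε ≤ N ∧ (N : ℝ) ≤ 2 / ε := by
    refine ⟨⌈1 / ε⌉₊, Nat.le_ceil _, ?_⟩
    have h1 := (Nat.ceil_lt_add_one (show (0 : ℝ) ≤ 1 / ε by positivity)).le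
    have h2 : 1 ≤ 1 / ε := by
      rw [le_div_iff₀ hε]; linarith
    calc ((⌈1 / ε⌉₊ : ℕ) : ℝ) ≤ 1 / ε + 1 := h1
      _ ≤ 1 / ε + 1 / ε := by linarith
      _ = 2 / ε := by ring
  have hNpos : (0 : ℝ) < N := lt_of_lt_of_le (by positivity) hN1
  have hNn : 1 ≤ N := by
    have : 0 < N := by exact_mod_cast hNpos
    omega
  obtain ⟨b0, b1, b2⟩ := site_bound V hEven E B hB0 hB v χ hrec N hNn
  set Q := Real.sqrt (ε * I) with hQ
  have hQ0 : 0 ≤ Q := Real.sqrt_nonneg _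
  have hQe : Q = Real.sqrt ε * Real.sqrt I := Real.sqrt_mul hε.le I
  have hse : 0 < Real.sqrt ε := Real.sqrt_pos.mpr hε
  have hsN : 0 < Real.sqrt N := Real.sqrt_pos.mpr hNpos
  have hsI : 0 ≤ Real.sqrt I := Real.sqrt_nonneg _
  have hse2 : Real.sqrt ε * Real.sqrt ε = ε := Real.mul_self_sqrt hε.le
  have hbound : B * (2 * ‖v‖ / Real.sqrt N + Real.sqrt N * ‖χ‖) ≤ 4 * B * Q := by
    have t1 : 2 * ‖v‖ / Real.sqrt N ≤ 2 * Q := by
      rw [div_le_iff₀ hsN]
      have h1 : 1 ≤ Real.sqrt ε * Real.sqrt N := by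
        rw [← Real.sqrt_mul hε.le]
        apply Real.one_le_sqrt.mpr
        have := mul_le_mul_of_nonneg_left hN1 hε.le
        rw [mul_one_div_cancel hε.ne'] at this
        exact this
      rw [hQe]
      calc 2 * ‖v‖ ≤ 2 * Real.sqrt I := by linarith
        _ = 2 * Real.sqrt I * 1 := by ring
        _ ≤ 2 * Real.sqrt I * (Real.sqrt ε * Real.sqrt N) := by gcongr
        _ = 2 * (Real.sqrt ε * Real.sqrt I) * Real.sqrt N := by ring
    have t2 : Real.sqrt N * ‖χ‖ ≤ 2 * Q := by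
      rw [hχn, hQe]
      have h1 : Real.sqrt N * Real.sqrt ε ≤ 2 := by
        rw [← Real.sqrt_mul hNpos.le]
        apply Real.sqrt_le_iff.mpr
        refine ⟨by norm_num, ?_⟩
        have := mul_le_mul_of_nonneg_right hN2 hε.le
        rw [div_mul_cancel₀ _ hε.ne'] at this
        linarith
      calc Real.sqrt N * (ε * (ε * ‖w‖)) ≤ Real.sqrt N * (ε * Real.sqrt I) := by gcongr
        _ = (Real.sqrt N * Real.sqrt ε) * (Real.sqrt ε * Real.sqrt I) := by
            rw [show (Real.sqrt N * Real.sqrt ε) * (Real.sqrt ε * Real.sqrt I)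
              = Real.sqrt N * ((Real.sqrt ε * Real.sqrt ε) * Real.sqrt I) by ring, hse2]
        _ ≤ 2 * (Real.sqrt ε * Real.sqrt I) := by gcongr
    calc B * (2 * ‖v‖ / Real.sqrt N + Real.sqrt N * ‖χ‖) ≤ B * (2 * Q + 2 * Q) := by gcongr
      _ = 4 * B * Q := by ring
  have h0 := le_trans b0 hbound
  have h1 := le_trans b1 hbound
  have h2 := le_trans b2 hbound
  have hw0 : ε ^ 2 * |(w 0).re| ≤ Q := by
    have k1 : |(w 0).re| ≤ ‖w‖ := le_trans (Complex.abs_re_le_norm _)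
      (lp.norm_apply_le_norm (by norm_num) w 0)
    calc ε ^ 2 * |(w 0).re| ≤ ε ^ 2 * ‖w‖ := by gcongr
      _ = ε * (ε * ‖w‖) := by ring
      _ ≤ ε * Real.sqrt I := by gcongr
      _ = Real.sqrt ε * Q := by rw [hQe, ← mul_assoc, hse2]
      _ ≤ 1 * Q := by
          gcongr
          exact Real.sqrt_le_one.mpr hε1
      _ = Q := one_mul _
  have hz := congrArg Complex.re (hpt 0)
  rw [delta0_apply_zero] at hz
  simp only [Complex.add_re, Complex.sub_re, Complex.re_ofReal_mul, zero_add, zero_sub,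
    Complex.one_re] at hz
  have hz1 : 1 ≤ |(v 1).re| + |(v (-1)).re| + (C + |E|) * |(v 0).re| + ε ^ 2 * |(w 0).re| := by
    have e : (1 : ℝ) = (v 1).re + (v (-1)).re + (V 0 - E) * (v 0).re + ε ^ 2 * (w 0).re := by
      linarith
    have k0 : |V 0 - E| ≤ C + |E| := by
      calc |V 0 - E| ≤ |V 0| + |E| := abs_sub _ _
        _ ≤ C + |E| := by linarith [hV 0]
    have k1 : (V 0 - E) * (v 0).re ≤ (C + |E|) * |(v 0).re| := by
      calc (V 0 - E) * (v 0).re ≤ |(V 0 - E) * (v 0).re| := le_abs_self _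
        _ = |V 0 - E| * |(v 0).re| := abs_mul _ _
        _ ≤ (C + |E|) * |(v 0).re| := by gcongr
    have k2 : ε ^ 2 * (w 0).re ≤ ε ^ 2 * |(w 0).re| := by
      gcongr
      exact le_abs_self _
    have k3 := le_abs_self (v 1).re
    have k4 := le_abs_self (v (-1)).re
    linarith
  have hfin : 1 ≤ (8 * B + 4 * B * (C + |E|) + 1) * Q := by
    have k5 : (C + |E|) * |(v 0).re| ≤ (C + |E|) * (4 * B * Q) := by
      gcongr
    nlinarith [k5]
  have hQ2 : Q ^ 2 = ε * I := Real.sq_sqrt (by positivity)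
  calc (1 : ℝ) = 1 ^ 2 := by norm_num
    _ ≤ ((8 * B + 4 * B * (C + |E|) + 1) * Q) ^ 2 := by
        apply pow_le_pow_left₀ (by norm_num) hfin
    _ = (8 * B + 4 * B * (C + |E|) + 1) ^ 2 * (ε * I) := by
        rw [mul_pow, hQ2]

end

end Pool.Agent.LP
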