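import Mathlib
import Pool.Agent.Lib_helper90.Poisson

set_option autoImplicit false
open MeasureTheory ProbabilityTheory

namespace Pool.Agent.LP

/-- A finite measure whose Poisson integral is bounded below on a closed set of positive
Lebesgue measure charges this set. -/
theorem mu_ne_zero_of_poisson (μ : Measure ℝ) [IsFiniteMeasure μ] (S : Set ℝ) (hScl : IsClosed S)
    (hSfin : volume S ≠ ⊤) (hSpos : volume S ≠ 0) (K : ℝ) (hK : 0 < K)
    (hP : ∀ E ∈ S, ∀ ε : ℝ, 0 < ε → ε ≤ 1 → 1 ≤ K * (ε * ∫ x, 1 / ((x - E) ^ 2 + ε ^ 2) ∂μ)) :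
    μ S ≠ 0 := by
  intro hμS
  have hSm : MeasurableSet S := hScl.measurableSet
  let e : ℕ → NNReal := fun n => 1 / ((n : NNReal) + 1)
  have he0 : ∀ n, e n ≠ 0 := fun n => by
    simp only [e]; positivity
  have hepos : ∀ n, (0 : ℝ) < e n := fun n => by
    have := he0 n
    exact_mod_cast pos_iff_ne_zero.mpr this
  have hele : ∀ n, (e n : ℝ) ≤ 1 := fun n => by
    simp only [e]
    push_cast
    rw [div_le_one (by positivity)]
    have : (0 : ℝ) ≤ n := by positivity
    linarith
  let P : ℕ → ℝ → ℝ → ℝ := fun n x E => cauchyPDFReal x (e n) E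
  have hPdef : ∀ n x E, P n x E = Real.pi⁻¹ * (e n) * ((E - x) ^ 2 + (e n : ℝ) ^ 2)⁻¹ :=
    fun n x E => rfl
  have hP0 : ∀ n x E, 0 ≤ P n x E := fun n x E => (cauchyPDF_pos x (he0 n) E).le
  have : IsFiniteMeasure (volume.restrict S) := ⟨by
    rw [Measure.restrict_apply_univ]; exact lt_top_iff_ne_top.mpr hSfin⟩
  have hcont : ∀ n, Continuous (fun q : ℝ × ℝ => P n q.1 q.2) := by
    intro n
    simp only [hPdef]
    apply Continuous.mul continuous_const
    apply Continuous.inv₀ (by fun_prop)
    intro q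
    have := hepos n
    positivity
  have hbd : ∀ n x E, P n x E ≤ Real.pi⁻¹ * (e n) * ((e n : ℝ) ^ 2)⁻¹ := by
    intro n x E
    rw [hPdef]
    have := hepos n
    gcongr
    have : 0 ≤ (E - x) ^ 2 := by positivity
    linarith
  have hint : ∀ n, Integrable (fun q : ℝ × ℝ => P n q.1 q.2) (μ.prod (volume.restrict S)) := by
    intro n
    apply Integrable.of_bound (hcont n).aestronglyMeasurable
      (Real.pi⁻¹ * (e n) * ((e n : ℝ) ^ 2)⁻¹)
    filter_upwards with q
    rw [Real.norm_eq_abs, abs_of_nonneg (hP0 n _ _)]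
    exact hbd n _ _
  let G : ℕ → ℝ → ℝ := fun n x => ∫ E in S, P n x E
  have hG0 : ∀ n x, 0 ≤ G n x := fun n x => integral_nonneg (fun E => hP0 n x E)
  have hG1 : ∀ n x, G n x ≤ 1 := by
    intro n x
    calc G n x ≤ ∫ E, P n x E := by
          apply setIntegral_le_integral (integrable_cauchyPDFReal x)
          filter_upwards with E using hP0 n x E
      _ = 1 := integral_cauchyPDFReal_eq_one x (he0 n)
  -- lower bound of the integrals
  have hlow : ∀ n, (volume.real S) / (K * Real.pi) ≤ ∫ x, G n x ∂μ := by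
    intro n
    have hswap : ∫ x, G n x ∂μ = ∫ E in S, ∫ x, P n x E ∂μ :=
      integral_integral_swap (hint n)
    rw [hswap]
    have hge : ∀ E ∈ S, 1 / (K * Real.pi) ≤ ∫ x, P n x E ∂μ := by
      intro E hE
      have h1 := hP E hE (e n) (hepos n) (hele n)
      have h2 : ∫ x, P n x E ∂μ = Real.pi⁻¹ * ((e n : ℝ) * ∫ x, 1 / ((x - E) ^ 2 + (e n : ℝ) ^ 2) ∂μ) := by
        rw [← integral_const_mul, ← integral_const_mul]
        congr 1
        funext x
        rw [hPdef, show (E - x) ^ 2 = (x - E) ^ 2 by ring]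
        ring
      rw [h2]
      rw [div_le_iff₀ (by positivity)]
      have hpi := Real.pi_pos
      calc (1 : ℝ) ≤ K * ((e n : ℝ) * ∫ x, 1 / ((x - E) ^ 2 + (e n : ℝ) ^ 2) ∂μ) := h1
        _ = Real.pi⁻¹ * ((e n : ℝ) * ∫ x, 1 / ((x - E) ^ 2 + (e n : ℝ) ^ 2) ∂μ) * (K * Real.pi) := by
            field_simp
    calc (volume.real S) / (K * Real.pi) = ∫ E in S, (1 / (K * Real.pi) : ℝ) := by
          rw [setIntegral_const]
          simp only [smul_eq_mul]
          ring
      _ ≤ ∫ E in S, ∫ x, P n x E ∂μ := by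
          apply setIntegral_mono_on (integrable_const _) _ hSm hge
          exact (hint n).integral_prod_right
  -- pointwise convergence
  have hlim : ∀ x ∉ S, Filter.Tendsto (fun n => G n x) Filter.atTop (nhds 0) := by
    intro x hx
    obtain ⟨δ, hδ, hball⟩ := Metric.isOpen_iff.mp hScl.isOpen_compl x hx
    have hle : ∀ n, G n x ≤ volume.real S * (Real.pi⁻¹ * (e n) * (δ ^ 2)⁻¹) := by
      intro n
      have hbS : ∀ E ∈ S, P n x E ≤ Real.pi⁻¹ * (e n) * (δ ^ 2)⁻¹ := by
        intro E hE
        rw [hPdef]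
        have hd : δ ≤ |E - x| := by
          by_contra hlt
          push Not at hlt
          exact hball (by rw [Metric.mem_ball, Real.dist_eq]; exact hlt) hE
        have := hepos n
        gcongr
        have h3 : δ ^ 2 ≤ (E - x) ^ 2 := by
          rw [← sq_abs (E - x)]
          exact pow_le_pow_left₀ hδ.le hd 2
        have : 0 ≤ (e n : ℝ) ^ 2 := by positivity
        linarith
      calc G n x ≤ ∫ E in S, (Real.pi⁻¹ * (e n) * (δ ^ 2)⁻¹ : ℝ) := by
            apply setIntegral_mono_on _ (integrable_const _) hSm hbS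
            exact (integrable_cauchyPDFReal x).integrableOn
        _ = volume.real S * (Real.pi⁻¹ * (e n) * (δ ^ 2)⁻¹) := by
            rw [setIntegral_const]; rfl
    have hez : Filter.Tendsto (fun n => (e n : ℝ)) Filter.atTop (nhds 0) := by
      have := tendsto_one_div_add_atTop_nhds_zero_nat (𝕜 := ℝ)
      simpa [e] using this
    have hz : Filter.Tendsto (fun n => volume.real S * (Real.pi⁻¹ * (e n) * (δ ^ 2)⁻¹))
        Filter.atTop (nhds (volume.real S * (Real.pi⁻¹ * 0 * (δ ^ 2)⁻¹))) := by
      apply Filter.Tendsto.const_mul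
      apply Filter.Tendsto.mul_const
      exact hez.const_mul _
    rw [mul_zero, zero_mul, mul_zero] at hz
    exact squeeze_zero (fun n => hG0 n x) hle hz
  have hGmeas : ∀ n, AEStronglyMeasurable (G n) μ := by
    intro n
    exact (hint n).aestronglyMeasurable.integral_prod_right'
  have hdct : Filter.Tendsto (fun n => ∫ x, G n x ∂μ) Filter.atTop (nhds (∫ x, (0 : ℝ) ∂μ)) := by
    apply tendsto_integral_of_dominated_convergence (fun _ => (1 : ℝ)) hGmeas (integrable_const _)
    · intro n
      filter_upwards with x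
      rw [Real.norm_eq_abs, abs_of_nonneg (hG0 n x)]
      exact hG1 n x
    · have : ∀ᵐ x ∂μ, x ∉ S := by
        rw [ae_iff]
        simpa using hμS
      filter_upwards [this] with x hx using hlim x hx
  rw [integral_zero] at hdct
  have hc : (volume.real S) / (K * Real.pi) ≤ 0 := ge_of_tendsto' hdct hlow
  have hvpos : 0 < volume.real S := ENNReal.toReal_pos hSpos hSfin
  have : 0 < (volume.real S) / (K * Real.pi) := by
    have := Real.pi_pos
    positivity
  linarith

end Pool.Agent.LP
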