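import Mathlib
import Pool.Agent.Lib_helper90.Construct
import Pool.Agent.Lib_helper90.Eigen2
import Pool.Agent.Lib_helper90.MuPos

set_option autoImplicit false
set_option maxHeartbeats 1000000
open MeasureTheory Filter Topology

namespace Pool.Agent.LP

/-- The potential of the counterexample. -/
noncomputable def VV (n : ℤ) : ℝ := -(Winf cN cl cs n)

theorem cs_tendsto : Tendsto cs atTop (𝓝 0) := by
  have h1 : ∀ k, cs k ≤ cs 0 * (1 / 2) ^ k := by
    intro k
    induction k with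
    | zero => simp
    | succ k ih =>
      have := c_scales.shalf k
      calc cs (k + 1) ≤ cs k / 2 := this
        _ ≤ (cs 0 * (1 / 2) ^ k) / 2 := by gcongr
        _ = cs 0 * (1 / 2) ^ (k + 1) := by ring
  have h2 : Tendsto (fun k : ℕ => cs 0 * (1 / 2) ^ k) atTop (𝓝 (cs 0 * 0)) :=
    (tendsto_pow_atTop_nhds_zero_of_lt_one (by norm_num) (by norm_num)).const_mul _
  rw [mul_zero] at h2
  exact squeeze_zero (fun k => (cs_pos k).le) h1 h2

theorem VV_limit_periodic (ε : ℝ) (hε : 0 < ε) : ∃ p : ℕ, 0 < p ∧ ∃ W : ℤ → ℝ,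
    (∀ n : ℤ, W (n + (p : ℤ)) = W n) ∧ ∀ n : ℤ, |VV n - W n| < ε := by
  obtain ⟨k, hk⟩ := (cs_tendsto.eventually (gt_mem_nhds (show (0 : ℝ) < ε / 2 by positivity))).exists
  refine ⟨2 * cN k + 1, by omega, fun n => -(Wk cN cl cs k n), ?_, ?_⟩
  · intro n
    have h := c_scales.Wk_period k n 1
    rw [mul_one] at h
    show -(Wk cN cl cs k (n + ((2 * cN k + 1 : ℕ) : ℤ))) = -(Wk cN cl cs k n)
    rw [← h]
    push_cast
    rfl
  · intro n
    show |-(Winf cN cl cs n) - -(Wk cN cl cs k n)| < ε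
    have h1 := c_scales.Wk_le_Winf k n
    have h2 := c_scales.Winf_le k n
    rw [abs_lt]
    constructor <;> linarith

theorem VV_bound (n : ℤ) : |VV n| ≤ 2 * cs 0 := by
  show |-(Winf cN cl cs n)| ≤ 2 * cs 0
  rw [abs_neg, abs_of_nonneg (c_scales.Winf_nonneg n)]
  have h2 := c_scales.Winf_le 0 n
  have h3 : Wk cN cl cs 0 n = 0 := by unfold Wk; simp
  rw [h3] at h2
  linarith

theorem VV_even (n : ℤ) : VV (-n) = VV n := by
  show -(Winf cN cl cs (-n)) = -(Winf cN cl cs n)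
  rw [c_scales.Winf_even n]

/-- The operator of the counterexample. -/
noncomputable def HH : l2 →L[ℂ] l2 := opH VV (2 * cs 0) VV_bound

/-- An eigenvector. -/
theorem exists_eigenvector : ∃ (a : ℝ) (U : l2), U ≠ 0 ∧ HH U = (a : ℂ) • U := by
  obtain ⟨β, u, hsum, ⟨n0, hn0⟩, heq⟩ := c_scales.exists_eigen
  have hmem : Memℓp (fun n : ℤ => (u n : ℂ)) 2 := by
    apply memlp_of_summable
    refine hsum.congr (fun n => ?_)
    rw [Complex.norm_real, Real.norm_eq_abs, sq_abs]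
  refine ⟨2 - β, ⟨fun n => (u n : ℂ), hmem⟩, ?_, ?_⟩
  · intro h
    have h1 := congrArg (fun ψ : l2 => ψ n0) h
    have h2 : (u n0 : ℂ) = 0 := h1
    exact hn0 (by exact_mod_cast h2)
  · apply Subtype.ext
    funext n
    show (u (n + 1) : ℂ) + (u (n - 1) : ℂ) + (VV n : ℂ) * (u n : ℂ)
      = (((2 - β : ℝ)) : ℂ) * (u n : ℂ)
    have h := heq n
    have h2 : u (n + 1) + u (n - 1) + VV n * u n = (2 - β) * u n := by
      show u (n + 1) + u (n - 1) + (-(Winf cN cl cs n)) * u n = (2 - β) * u n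
      linarith
    exact_mod_cast h2

theorem HH_pow (a : ℝ) (U : l2) (h : HH U = (a : ℂ) • U) (k : ℕ) :
    (HH ^ k) U = ((a : ℂ) ^ k) • U := by
  induction k with
  | zero => simp
  | succ k ih =>
    rw [pow_succ]
    show (HH ^ k) (HH U) = _
    rw [h, map_smul, ih, smul_smul]
    congr 1
    ring

/-- spectral measure at the eigenvector -/
theorem eigen_measure : ∃ (ψ : l2) (μ : Measure ℝ) (a : ℝ), IsFiniteMeasure μ ∧
    (∀ k : ℕ, Integrable (fun x : ℝ => x ^ k) μ) ∧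
    (∀ k : ℕ, ∫ x, (x : ℂ) ^ k ∂μ = inner ℂ ψ ((HH ^ k) ψ)) ∧ μ {a} ≠ 0 := by
  obtain ⟨a, U, hU, hHU⟩ := exists_eigenvector
  have hpos : 0 < ‖U‖ ^ 2 := by
    have := norm_pos_iff.mpr hU
    positivity
  refine ⟨U, ENNReal.ofReal (‖U‖ ^ 2) • Measure.dirac a, a, ?_, ?_, ?_, ?_⟩
  · exact Measure.smul_finite _ ENNReal.ofReal_ne_top
  · intro k
    apply Integrable.smul_measure _ ENNReal.ofReal_ne_top
    exact integrable_dirac (by simp)
  · intro k
    rw [integral_smul_measure, integral_dirac, HH_pow a U hHU k, inner_smul_right,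
      inner_self_eq_norm_sq_to_K, ENNReal.toReal_ofReal hpos.le]
    rw [Complex.real_smul]
    push_cast
    exact mul_comm _ _
  · rw [Measure.smul_apply, Measure.dirac_apply_of_mem (Set.mem_singleton a), smul_eq_mul, mul_one]
    exact (ENNReal.ofReal_pos.mpr hpos).ne'

/-- the spectral measure at `δ₀` is not pure point. -/
theorem delta_measure : ∃ (ψ : l2) (μ : Measure ℝ), IsFiniteMeasure μ ∧
    (∀ k : ℕ, Integrable (fun x : ℝ => x ^ k) μ) ∧
    (∀ k : ℕ, ∫ x, (x : ℂ) ^ k ∂μ = inner ℂ ψ ((HH ^ k) ψ)) ∧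
    ¬ ∃ S : Set ℝ, S.Countable ∧ μ Sᶜ = 0 := by
  have hH : IsSelfAdjoint HH := opH_isSelfAdjoint VV (2 * cs 0) VV_bound
  obtain ⟨μ, hfin, hμ⟩ := exists_spectral_measure HH hH delta0
  obtain ⟨hm1, hm2⟩ := spectral_measure_moments HH hH delta0 μ hμ
  refine ⟨delta0, μ, hfin, hm1, hm2, ?_⟩
  rintro ⟨S, hSc, hS0⟩
  set K := ⋂ k, SS cN cl cs k with hK
  have hKcl : IsClosed K := isClosed_iInter (fun k => SS_closed _ _ _ k)
  have hKsub : K ⊆ Set.Icc 0 1 := (Set.iInter_subset _ 0).trans (SS_sub_Icc _ _ _ 0)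
  have hKfin : volume K ≠ ⊤ := ne_top_of_le_ne_top (by simp) (measure_mono hKsub)
  have hbdd : ∀ E ∈ K, BddSol (fun n : ℕ => E - VV n) 8 := by
    intro E hE
    exact c_scales.bddSol c_P2 E (fun k => Set.mem_iInter.mp hE k)
  have hcs0 := cs_pos 0
  -- K is charged
  have hKμ : μ K ≠ 0 := by
    apply mu_ne_zero_of_poisson μ K hKcl hKfin c_vol_iInter
      ((8 * 8 + 4 * 8 * (2 * cs 0 + 1) + 1) ^ 2) (by positivity)
    intro E hE ε hε hε1
    have h1 := poisson_lower VV (2 * cs 0) VV_bound VV_even E 8 (by norm_num) (hbdd E hE) μ hμ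
      ε hε hε1
    have hE1 : |E| ≤ 1 := by
      have := hKsub hE
      rw [abs_le]
      constructor
      · linarith [this.1]
      · exact this.2
    refine le_trans h1 ?_
    have hnn : 0 ≤ ε * ∫ x, 1 / ((x - E) ^ 2 + ε ^ 2) ∂μ := by
      apply mul_nonneg hε.le
      apply integral_nonneg
      intro x
      positivity
    have h2 : (8 * 8 + 4 * 8 * (2 * cs 0 + |E|) + 1) ^ 2
        ≤ (8 * 8 + 4 * 8 * (2 * cs 0 + 1) + 1) ^ 2 := by gcongr
    exact mul_le_mul_of_nonneg_right h2 hnn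
  -- no atoms on K
  have hat : ∀ E ∈ K, μ {E} = 0 := by
    intro E hE
    exact no_atom VV (2 * cs 0) VV_bound VV_even E 8 (by norm_num) (hbdd E hE) μ hμ
  have h3 : μ (K ∩ S) = 0 := by
    have hc : (K ∩ S).Countable := hSc.mono Set.inter_subset_right
    rw [measure_null_iff_singleton hc]
    intro x hx
    exact hat x hx.1
  apply hKμ
  have h4 : K ⊆ (K ∩ S) ∪ Sᶜ := by
    intro x hx
    by_cases hxS : x ∈ S
    · left; exact ⟨hx, hxS⟩
    · right; exact hxS
  exact measure_mono_null h4 (measure_union_null h3 hS0)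

end Pool.Agent.LP
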